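import Pool.Agent.H208P.A
import Pool.Agent.H920R2.We2

/-!
The product of regular weighted centres.
-/

set_option autoImplicit false
set_option linter.unusedSectionVars false

open MvPolynomial Pool.Agent.H920R2
open scoped Pointwise

universe u v

namespace Pool.Agent.H208P

/-- A decreasing multiplicative filtration by ideals. -/
structure Filt {B : Type u} [CommRing B] (F : ℕ → Ideal B) : Prop where
  zero : F 0 = ⊤
  anti : ∀ a b, a ≤ b → F b ≤ F a
  mul : ∀ a b, F a * F b ≤ F (a + b)

lemma Filt.of_centre {k B : Type u} [Field k] [CommRing B] [Algebra k B] {F : ℕ → Ideal B}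
    (h : RegularWeightedCentre k F) : Filt F := ⟨h.zero, h.anti, h.mul⟩

lemma Filt.mem0 {B : Type u} [CommRing B] {F : ℕ → Ideal B} (h : Filt F) (b : B) : b ∈ F 0 := by
  rw [h.zero]; trivial

lemma Filt.mul_mem {B : Type u} [CommRing B] {F : ℕ → Ideal B} (h : Filt F) {a b : ℕ} {x y : B}
    (hx : x ∈ F a) (hy : y ∈ F b) : x * y ∈ F (a + b) := h.mul _ _ (Ideal.mul_mem_mul hx hy)

lemma Filt.mul_mem' {B : Type u} [CommRing B] {F : ℕ → Ideal B} (h : Filt F) {a b c : ℕ} {x y : B}
    (hx : x ∈ F a) (hy : y ∈ F b) (hc : c ≤ a + b) : x * y ∈ F c :=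
  h.anti _ _ hc (h.mul_mem hx hy)

lemma Filt.pow_mem {B : Type u} [CommRing B] {F : ℕ → Ideal B} (h : Filt F) {a : ℕ} {x : B}
    (hx : x ∈ F a) (n : ℕ) : x ^ n ∈ F (n * a) := by
  induction n with
  | zero => rw [Nat.zero_mul]; exact h.mem0 _
  | succ n ih => rw [pow_succ]; exact h.mul_mem' ih hx (by rw [Nat.succ_mul])

lemma Filt.prod_mem {B : Type u} [CommRing B] {F : ℕ → Ideal B} (h : Filt F) {ι : Type}
    (s : Finset ι) (m : ι → ℕ) (x : ι → B) (hx : ∀ i ∈ s, x i ∈ F (m i)) :
    ∏ i ∈ s, x i ∈ F (∑ i ∈ s, m i) := by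
  classical
  induction s using Finset.induction_on with
  | empty => simpa using h.mem0 _
  | insert i s hi ih =>
    rw [Finset.prod_insert hi, Finset.sum_insert hi]
    exact h.mul_mem (hx i (Finset.mem_insert_self i s))
      (ih fun i' hi' => hx i' (Finset.mem_insert_of_mem hi'))

section prod

variable {k : Type u} [Field k] {ι : Type} [Fintype ι] {A : ι → Type u} [∀ i, CommRing (A i)]
    [∀ i, Algebra k (A i)] {B : Type u} [CommRing B] [Algebra k B]
    (j : ∀ i, A i →ₐ[k] B) (F : ∀ i, ℕ → Ideal (A i)) (w : ι → ℕ)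

/-- The product filtration. -/
def prodF (d : ℕ) : Ideal B :=
  Ideal.span {y | ∃ (e : ι → ℕ) (a : ∀ i, A i), (∀ i, a i ∈ F i (e i)) ∧ d ≤ ∑ i, w i * e i ∧
    y = ∏ i, j i (a i)}

variable {F w}

lemma mem_prodF {d : ℕ} (e : ι → ℕ) (a : ∀ i, A i) (ha : ∀ i, a i ∈ F i (e i))
    (hd : d ≤ ∑ i, w i * e i) : ∏ i, j i (a i) ∈ prodF j F w d :=
  Ideal.subset_span ⟨e, a, ha, hd, rfl⟩

lemma single_mem_prodF (hF : ∀ i, Filt (F i)) {d : ℕ} (i : ι) {e : ℕ} {a : A i} (ha : a ∈ F i e)
    (hd : d ≤ w i * e) : j i a ∈ prodF j F w d := by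
  classical
  have h1 : j i a = ∏ i', j i' ((Function.update (fun _ => 1) i a : ∀ i, A i) i') := by
    rw [Finset.prod_eq_single i]
    · rw [Function.update_self]
    · intro i' _ hne
      rw [Function.update_of_ne hne, map_one]
    · intro h; exact absurd (Finset.mem_univ i) h
  rw [h1]
  refine mem_prodF j (Pi.single i e) _ ?_ ?_
  · intro i'
    by_cases h : i' = i
    · subst h
      rw [Function.update_self, Pi.single_eq_same]
      exact ha
    · rw [Function.update_of_ne h, Pi.single_eq_of_ne h]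
      exact (hF i').mem0 _
  · rw [Finset.sum_eq_single i]
    · rw [Pi.single_eq_same]; exact hd
    · intro i' _ hne
      rw [Pi.single_eq_of_ne hne, mul_zero]
    · intro h; exact absurd (Finset.mem_univ i) h

lemma filt_prodF (hF : ∀ i, Filt (F i)) : Filt (prodF j F w) where
  zero := by
    rw [eq_top_iff]
    have h1 : (1 : B) = ∏ i, j i (1 : A i) := by simp
    have h2 : (1 : B) ∈ prodF j F w 0 := by
      rw [h1]
      exact mem_prodF j (fun _ => 0) _ (fun i => (hF i).mem0 _) (Nat.zero_le _)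
    exact le_of_eq ((Ideal.eq_top_iff_one _).2 h2).symm
  anti := by
    intro a b hab
    apply Ideal.span_mono
    rintro y ⟨e, x, h1, h2, h3⟩
    exact ⟨e, x, h1, hab.trans h2, h3⟩
  mul := by
    intro a b
    unfold prodF
    rw [Ideal.span_mul_span']
    apply Ideal.span_mono
    rintro _ ⟨_, ⟨e, x, h1, h2, rfl⟩, _, ⟨e', x', h1', h2', rfl⟩, rfl⟩
    refine ⟨fun i => e i + e' i, fun i => x i * x' i, fun i => (hF i).mul_mem (h1 i) (h1' i),
      ?_, ?_⟩
    · simp only [mul_add, Finset.sum_add_distrib]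
      omega
    · simp only [map_mul, Finset.prod_mul_distrib]

/-- The first step of the product filtration. -/
lemma prodF_one_le (hF : ∀ i, Filt (F i)) {P : Ideal B}
    (h : ∀ i, ∀ a ∈ F i 1, j i a ∈ P) : prodF j F w 1 ≤ P := by
  unfold prodF
  rw [Ideal.span_le]
  rintro _ ⟨e, x, h1, h2, rfl⟩
  have h3 : ∃ i, 1 ≤ e i := by
    by_contra hcon
    push Not at hcon
    have h4 : ∑ i, w i * e i = 0 := Finset.sum_eq_zero fun i _ => by
      rw [Nat.lt_one_iff.1 (hcon i), mul_zero]
    omega
  obtain ⟨i, hi⟩ := h3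
  have h4 : j i (x i) ∈ P := h i _ ((hF i).anti _ _ hi (h1 i))
  exact Ideal.mem_of_dvd P (Finset.dvd_prod_of_mem (fun i => j i (x i)) (Finset.mem_univ i)) h4

variable {j}

/-- Products of spans of monomials. -/
lemma prod_span_le {D : Type u} [CommRing D] (M : ι → Set D) (T : Ideal D)
    (h : ∀ z : ι → D, (∀ i, z i ∈ M i) → ∏ i, z i ∈ T) (y : ι → D)
    (hy : ∀ i, y i ∈ Ideal.span (M i)) : ∏ i, y i ∈ T := by
  classical
  have h1 : ∏ i, y i ∈ ∏ i, Ideal.span (M i) := Ideal.prod_mem_prod fun i _ => hy i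
  rw [Ideal.prod_span] at h1
  refine (Ideal.span_le.2 ?_ : Ideal.span (∏ i, M i) ≤ T) h1
  intro x hx
  rw [Set.mem_finsetProd] at hx
  obtain ⟨g, hg, rfl⟩ := hx
  exact h g fun i => hg (Finset.mem_univ i)

/-- **The product of regular weighted centres is a regular weighted centre.** -/
theorem centre_prodF (hj : IsCoprod k j) (hfB : Algebra.FiniteType k B)
    (hF : ∀ i, RegularWeightedCentre k (F i)) (hw : ∀ i, 1 ≤ w i) :
    RegularWeightedCentre k (prodF j F w) := by
  classical
  have hFf : ∀ i, Filt (F i) := fun i => Filt.of_centre (hF i)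
  have hPf : Filt (prodF j F w) := filt_prodF j hFf
  refine ⟨hPf.zero, hPf.anti, hPf.mul, ?_⟩
  intro P hP hP1
  have h1 : ∀ i, ∃ (f : A i) (n : ℕ) (x : Fin n → A i) (v : Fin n → ℕ), f ∉ P.comap (j i) ∧
      ((aeval (fun c => algebraMap (A i) (Localization.Away f) (x c)) :
        MvPolynomial (Fin n) k →ₐ[k] Localization.Away f) :
        MvPolynomial (Fin n) k →+* Localization.Away f).Etale ∧
      ∀ d, (F i d).map (algebraMap (A i) (Localization.Away f)) =
        Ideal.span {y | ∃ α : Fin n → ℕ, d ≤ ∑ i, α i * v i ∧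
          y = ∏ c, algebraMap (A i) (Localization.Away f) (x c) ^ α c} := by
    intro i
    refine (hF i).coord (P.comap (j i)) (hP.comap _) ?_
    intro a ha
    rw [Ideal.mem_comap]
    apply hP1
    exact single_mem_prodF j hFf i ha (by rw [mul_one]; exact hw i)
  choose f n x v hf het hspan using h1
  let g : B := ∏ i, j i (f i)
  have hg : g = ∏ i, j i (f i) := rfl
  let D := Localization.Away g
  obtain ⟨l, hl⟩ : ∃ l : ∀ i, Localization.Away (f i) →ₐ[k] D,
      ∀ i a, l i (algebraMap (A i) (Localization.Away (f i)) a) = algebraMap B D (j i a) :=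
    exists_loc_map (j := j) f
  let κ := Σ i, Fin (n i)
  let e : Fin (Fintype.card κ) ≃ κ := (Fintype.equivFin κ).symm
  have hE := coprod_etale (k := k) hj hfB f x het
  have hE' := etale_rename (k := k) e _ hE
  refine ⟨g, Fintype.card κ, fun c => j (e c).1 (x (e c).1 (e c).2),
    fun c => w (e c).1 * v (e c).1 (e c).2, ?_, hE', ?_⟩
  · intro h
    rw [hg] at h
    obtain ⟨i, -, hi⟩ := (Ideal.IsPrime.prod_mem_iff).1 h
    exact hf i hi
  intro d
  -- reindexing
  have hre : {y : D | ∃ α : Fin (Fintype.card κ) → ℕ,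
      d ≤ ∑ c, α c * (w (e c).1 * v (e c).1 (e c).2) ∧
      y = ∏ c, algebraMap B D (j (e c).1 (x (e c).1 (e c).2)) ^ α c} =
      {y : D | ∃ α : ∀ i, Fin (n i) → ℕ, d ≤ ∑ i, w i * ∑ c, α i c * v i c ∧
        y = ∏ i, ∏ c, algebraMap B D (j i (x i c)) ^ α i c} := by
    ext y
    constructor
    · rintro ⟨α, h1, h2⟩
      refine ⟨fun i c => α (e.symm ⟨i, c⟩), ?_, ?_⟩
      · refine h1.trans (le_of_eq ?_)
        have h3 := Equiv.sum_comp e (fun c : κ => α (e.symm c) * (w c.1 * v c.1 c.2))
        simp only [Equiv.symm_apply_apply] at h3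
        rw [h3, Fintype.sum_sigma]
        refine Finset.sum_congr rfl fun i _ => ?_
        rw [Finset.mul_sum]
        refine Finset.sum_congr rfl fun c _ => ?_
        ring
      · have h3 := Equiv.prod_comp e
          (fun c : κ => algebraMap B D (j c.1 (x c.1 c.2)) ^ α (e.symm c))
        simp only [Equiv.symm_apply_apply] at h3
        rw [h2, h3, Fintype.prod_sigma]
    · rintro ⟨α, h1, h2⟩
      refine ⟨fun c => α (e c).1 (e c).2, ?_, ?_⟩
      · refine h1.trans (le_of_eq ?_)
        rw [Equiv.sum_comp e (fun c : κ => α c.1 c.2 * (w c.1 * v c.1 c.2)), Fintype.sum_sigma]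
        refine Finset.sum_congr rfl fun i _ => ?_
        rw [Finset.mul_sum]
        refine Finset.sum_congr rfl fun c _ => ?_
        ring
      · rw [h2, Equiv.prod_comp e
          (fun c : κ => algebraMap B D (j c.1 (x c.1 c.2)) ^ α c.1 c.2), Fintype.prod_sigma]
  change (prodF j F w d).map (algebraMap B D) = Ideal.span _
  rw [hre]
  apply le_antisymm
  · rw [Ideal.map_le_iff_le_comap]
    unfold prodF
    rw [Ideal.span_le]
    rintro _ ⟨ε, a, ha, hd, rfl⟩
    change algebraMap B D (∏ i, j i (a i)) ∈ Ideal.span {y : D | ∃ α : ∀ i, Fin (n i) → ℕ,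
      d ≤ ∑ i, w i * ∑ c, α i c * v i c ∧ y = ∏ i, ∏ c, algebraMap B D (j i (x i c)) ^ α i c}
    rw [map_prod]
    refine prod_span_le (fun i => {y : D | ∃ α : Fin (n i) → ℕ, ε i ≤ ∑ c, α c * v i c ∧
      y = ∏ c, algebraMap B D (j i (x i c)) ^ α c}) _ ?_ _ ?_
    · intro z hz
      choose α h1 h2 using hz
      refine Ideal.subset_span ⟨α, hd.trans ?_, Finset.prod_congr rfl fun i _ => h2 i⟩
      exact Finset.sum_le_sum fun i _ => Nat.mul_le_mul_left _ (h1 i)
    · intro i
      have h1 : algebraMap (A i) (Localization.Away (f i)) (a i) ∈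
          (F i (ε i)).map (algebraMap (A i) (Localization.Away (f i))) :=
        Ideal.mem_map_of_mem _ (ha i)
      rw [hspan] at h1
      have h2 := Ideal.mem_map_of_mem (l i) h1
      rw [hl, Ideal.map_span] at h2
      refine (Ideal.span_mono ?_ :
        Ideal.span ((l i) '' _) ≤ Ideal.span _) h2
      rintro _ ⟨_, ⟨α, h3, rfl⟩, rfl⟩
      refine ⟨α, h3, ?_⟩
      rw [map_prod]
      refine Finset.prod_congr rfl fun c _ => ?_
      rw [map_pow, hl]
  · rw [Ideal.span_le]
    rintro _ ⟨α, h1, rfl⟩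
    -- the factors
    change (∏ i, ∏ c, algebraMap B D (j i (x i c)) ^ α i c) ∈ (prodF j F w d).map (algebraMap B D)
    refine prod_span_le
      (fun i => algebraMap B D '' (j i '' (F i (∑ c, α i c * v i c) : Set (A i)))) _ ?_ _ ?_
    · intro z hz
      have h2 : ∀ i, ∃ a ∈ F i (∑ c, α i c * v i c), algebraMap B D (j i a) = z i := by
        intro i
        obtain ⟨_, ⟨a, ha, rfl⟩, h3⟩ := hz i
        exact ⟨a, ha, h3⟩
      choose a ha haz using h2
      have h3 : ∏ i, z i = algebraMap B D (∏ i, j i (a i)) := by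
        rw [map_prod]
        exact Finset.prod_congr rfl fun i _ => (haz i).symm
      rw [h3]
      exact Ideal.mem_map_of_mem _ (mem_prodF j _ a ha h1)
    · intro i
      have h2 : ∏ c, algebraMap (A i) (Localization.Away (f i)) (x i c) ^ α i c ∈
          (F i (∑ c, α i c * v i c)).map (algebraMap (A i) (Localization.Away (f i))) := by
        rw [hspan]
        exact Ideal.subset_span ⟨α i, le_rfl, rfl⟩
      have h3 := Ideal.mem_map_of_mem (l i) h2
      rw [map_prod] at h3
      simp only [map_pow, hl] at h3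
      have h4 : ((F i (∑ c, α i c * v i c)).map
          (algebraMap (A i) (Localization.Away (f i)))).map (l i) =
          Ideal.span (algebraMap B D '' (j i '' (F i (∑ c, α i c * v i c) : Set (A i)))) := by
        unfold Ideal.map
        rw [← Ideal.map, Ideal.map_span]
        congr 1
        rw [Set.image_image, Set.image_image]
        refine Set.image_congr fun a _ => ?_
        exact hl i a
      rw [← h4]
      exact h3

end prod

end Pool.Agent.H208P
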