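import Pool.Agent.H208P.B

/-!
Twisted derivations (derivations and differences `σ - 1`) with nondegenerate leading form, and
their sums on products.
-/

set_option autoImplicit false
set_option linter.unusedSectionVars false

open MvPolynomial Pool.Agent.H920R2

universe u v

namespace Pool.Agent.H208P

/-- A derivation (`ε = 0`) or the difference of an endomorphism and the identity (`ε = 1`). -/
structure TD (k : Type u) {B : Type u} [Field k] [CommRing B] [Algebra k B] (δ : B → B) (ε : B) :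
    Prop where
  add : ∀ x y, δ (x + y) = δ x + δ y
  mul : ∀ x y, δ (x * y) = x * δ y + y * δ x + ε * (δ x * δ y)
  const : ∀ r : k, δ (algebraMap k B r) = 0

/-- The elements of weight `m` which are, up to higher order, combinations of leading forms. -/
def LI {B : Type u} [CommRing B] (F : ℕ → Ideal B) (δ : B → B) (l m : ℕ) : Ideal B :=
  F (m + 1) ⊔ Ideal.span {y | ∃ e, ∃ c ∈ F e, ∃ b ∈ F (m - (e + l)), y = b * δ c}

/-- `δ` raises the weights by `l`, its zeros are in the centre and its leading form has no zeros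
outside the vertex. -/
structure Nondeg {B : Type u} [CommRing B] (F : ℕ → Ideal B) (δ : B → B) (l : ℕ) : Prop where
  div : ∀ d, ∀ a ∈ F d, δ a ∈ F (d + l)
  fix : ∀ P : Ideal B, P.IsPrime → (∀ a, δ a ∈ P) → F 1 ≤ P
  lead : ∀ d, 1 ≤ d → ∀ a ∈ F d, ∃ N : ℕ, a ^ N ∈ LI F δ l (N * d)

section gen

variable {k B : Type u} [Field k] [CommRing B] [Algebra k B] {δ : B → B} {ε : B}
  {F : ℕ → Ideal B} {l : ℕ}

include k in
lemma TD.zero (h : TD k δ ε) : δ 0 = 0 := by
  have := h.const 0
  rwa [map_zero] at this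

include k in
lemma TD.one (h : TD k δ ε) : δ 1 = 0 := by
  have := h.const 1
  rwa [map_one] at this

include k in
lemma TD.prod_mem (h : TD k δ ε) (hF : Filt F) {ι : Type} (s : Finset ι) (m : ι → ℕ) (z : ι → B)
    (hz : ∀ i ∈ s, z i ∈ F (m i)) (hδ : ∀ i ∈ s, δ (z i) ∈ F (m i + l)) :
    δ (∏ i ∈ s, z i) ∈ F (∑ i ∈ s, m i + l) := by
  classical
  induction s using Finset.induction_on with
  | empty => rw [Finset.prod_empty, h.one]; exact Ideal.zero_mem _
  | insert i s hi ih =>
    rw [Finset.prod_insert hi, Finset.sum_insert hi, h.mul]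
    have h1 := hz i (Finset.mem_insert_self i s)
    have h2 := hδ i (Finset.mem_insert_self i s)
    have h3 := ih (fun i' hi' => hz i' (Finset.mem_insert_of_mem hi'))
      (fun i' hi' => hδ i' (Finset.mem_insert_of_mem hi'))
    have h4 := hF.prod_mem s m z (fun i' hi' => hz i' (Finset.mem_insert_of_mem hi'))
    refine Ideal.add_mem _ (Ideal.add_mem _ (hF.mul_mem' h1 h3 (by omega))
      (hF.mul_mem' h4 h2 (by omega))) (Ideal.mul_mem_left _ _ (hF.mul_mem' h2 h3 (by omega)))

lemma LI_mul (hF : Filt F) (hdiv : ∀ d, ∀ a ∈ F d, δ a ∈ F (d + l)) {m n : ℕ} {x y : B}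
    (hx : x ∈ LI F δ l m) (hy : y ∈ F n) : x * y ∈ LI F δ l (m + n) := by
  obtain ⟨x1, h1, x2, h2, rfl⟩ := Submodule.mem_sup.1 hx
  rw [add_mul]
  refine Ideal.add_mem _ ?_ ?_
  · exact Submodule.mem_sup_left (hF.mul_mem' h1 hy (by omega))
  · clear h1 hx
    induction h2 using Submodule.span_induction with
    | mem z hz =>
      obtain ⟨e, c, hc, b, hb, rfl⟩ := hz
      by_cases hm : e + l ≤ m
      · refine Submodule.mem_sup_right (Ideal.subset_span ⟨e, c, hc, y * b,
          hF.mul_mem' hy hb (by omega), by ring⟩)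
      · have h3 : b * δ c * y = y * δ c * b := by ring
        rw [h3]
        exact Submodule.mem_sup_left (Ideal.mul_mem_right _ _
          (hF.mul_mem' hy (hdiv e c hc) (by omega)))
    | zero => rw [zero_mul]; exact Ideal.zero_mem _
    | add a b _ _ ha hb => rw [add_mul]; exact Ideal.add_mem _ ha hb
    | smul r a _ ha => rw [smul_eq_mul, mul_assoc]; exact Ideal.mul_mem_left _ _ ha

lemma lead_add (hF : Filt F) (hdiv : ∀ d, ∀ a ∈ F d, δ a ∈ F (d + l)) {d : ℕ} {a b : B}
    (ha : a ∈ F d) (hb : b ∈ F d) (h1 : ∃ N : ℕ, a ^ N ∈ LI F δ l (N * d))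
    (h2 : ∃ N : ℕ, b ^ N ∈ LI F δ l (N * d)) : ∃ N : ℕ, (a + b) ^ N ∈ LI F δ l (N * d) := by
  obtain ⟨N, hN⟩ := h1
  obtain ⟨M, hM⟩ := h2
  refine ⟨N + M, ?_⟩
  rw [add_pow]
  refine Ideal.sum_mem _ fun i hi => Ideal.mul_mem_right _ _ ?_
  have hi' : i ≤ N + M := Nat.lt_succ_iff.1 (Finset.mem_range.1 hi)
  by_cases h : N ≤ i
  · have h3 : a ^ i * b ^ (N + M - i) = a ^ N * (a ^ (i - N) * b ^ (N + M - i)) := by
      rw [← mul_assoc, ← pow_add, Nat.add_sub_cancel' h]
    have h4 : a ^ (i - N) * b ^ (N + M - i) ∈ F (M * d) := by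
      refine hF.mul_mem' (hF.pow_mem ha _) (hF.pow_mem hb _) (le_of_eq ?_)
      rw [← Nat.add_mul]
      congr 1
      omega
    rw [h3, Nat.add_mul]
    exact LI_mul hF hdiv hN h4
  · have h3 : a ^ i * b ^ (N + M - i) = b ^ M * (a ^ i * b ^ (N - i)) := by
      have e : N + M - i = M + (N - i) := by omega
      rw [e, pow_add]; ring
    have h4 : a ^ i * b ^ (N - i) ∈ F (N * d) := by
      refine hF.mul_mem' (hF.pow_mem ha _) (hF.pow_mem hb _) (le_of_eq ?_)
      rw [← Nat.add_mul]
      congr 1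
      omega
    rw [h3, Nat.add_mul, Nat.add_comm (N * d)]
    exact LI_mul hF hdiv hM h4

/-- It suffices to check the leading forms of generators. -/
lemma lead_span (hF : Filt F) (hdiv : ∀ d, ∀ a ∈ F d, δ a ∈ F (d + l)) {d : ℕ} {X : Set B}
    (hX : F d = Ideal.span X) (hgen : ∀ a ∈ X, ∃ N : ℕ, a ^ N ∈ LI F δ l (N * d)) {a : B}
    (ha : a ∈ F d) : ∃ N : ℕ, a ^ N ∈ LI F δ l (N * d) := by
  have ha' := ha
  rw [hX] at ha'
  have key : a ∈ F d ∧ ∃ N : ℕ, a ^ N ∈ LI F δ l (N * d) := by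
    clear ha
    induction ha' using Submodule.span_induction with
    | mem z hz => exact ⟨by rw [hX]; exact Ideal.subset_span hz, hgen z hz⟩
    | zero => exact ⟨Ideal.zero_mem _, 1, by rw [pow_one]; exact Ideal.zero_mem _⟩
    | add a b _ _ ha hb => exact ⟨Ideal.add_mem _ ha.1 hb.1, lead_add hF hdiv ha.1 hb.1 ha.2 hb.2⟩
    | smul r a _ ha =>
      obtain ⟨h1, N, hN⟩ := ha
      refine ⟨Ideal.mul_mem_left _ _ h1, N, ?_⟩
      rw [smul_eq_mul, mul_pow]
      exact Ideal.mul_mem_left _ _ hN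
  exact key.2

end gen

section prod

variable {k : Type u} [Field k] {ι : Type} [Fintype ι] {A : ι → Type u} [∀ i, CommRing (A i)]
    [∀ i, Algebra k (A i)] {B : Type u} [CommRing B] [Algebra k B]
    {j : ∀ i, A i →ₐ[k] B} {F : ∀ i, ℕ → Ideal (A i)} {w : ι → ℕ}

/-- **The sum of operators with nondegenerate leading forms on a product has a nondegenerate
leading form.** -/
theorem nondeg_prodF (hj : IsCoprod k j) (hF : ∀ i, Filt (F i)) (hw : ∀ i, 1 ≤ w i)
    {δi : ∀ i, A i → A i} {l : ι → ℕ} (hnd : ∀ i, Nondeg (F i) (δi i) (l i)) {L : ℕ}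
    (hL : ∀ i, w i * l i = L) {δ : B → B} {ε : B} (hδ : TD k δ ε)
    (hδj : ∀ i a, δ (j i a) = j i (δi i a)) : Nondeg (prodF j F w) δ L := by
  classical
  have hPf : Filt (prodF j F w) := filt_prodF j hF
  have hsingle : ∀ i (e : ℕ) (a : A i), a ∈ F i e → δ (j i a) ∈ prodF j F w (w i * e + L) := by
    intro i e a ha
    rw [hδj]
    refine single_mem_prodF j hF i ((hnd i).div e a ha) (le_of_eq ?_)
    rw [Nat.mul_add, hL]
  have hdiv0 : ∀ b, δ b ∈ prodF j F w L := by
    intro b
    have h1 : b ∈ Algebra.adjoin k (⋃ i, Set.range (j i)) := by rw [coprod_adjoin hj]; trivial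
    induction h1 using Algebra.adjoin_induction with
    | mem x hx =>
      obtain ⟨i, a, rfl⟩ := Set.mem_iUnion.1 hx
      have h2 := hsingle i 0 a ((hF i).mem0 a)
      rwa [Nat.mul_zero, Nat.zero_add] at h2
    | algebraMap r => rw [hδ.const]; exact Ideal.zero_mem _
    | add x y _ _ hx hy => rw [hδ.add]; exact Ideal.add_mem _ hx hy
    | mul x y _ _ hx hy =>
      rw [hδ.mul]
      exact Ideal.add_mem _ (Ideal.add_mem _ (Ideal.mul_mem_left _ _ hy)
        (Ideal.mul_mem_left _ _ hx)) (Ideal.mul_mem_left _ _ (Ideal.mul_mem_left _ _ hy))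
  have hdiv : ∀ d, ∀ a ∈ prodF j F w d, δ a ∈ prodF j F w (d + L) := by
    intro d a ha
    have key : a ∈ prodF j F w d ∧ δ a ∈ prodF j F w (d + L) := by
      unfold prodF at ha
      induction ha using Submodule.span_induction with
      | mem z hz =>
        obtain ⟨e, a, ha, hd, rfl⟩ := hz
        refine ⟨mem_prodF j e a ha hd, ?_⟩
        refine hPf.anti _ _ (Nat.add_le_add_right hd L) ?_
        exact hδ.prod_mem hPf Finset.univ (fun i => w i * e i) (fun i => j i (a i))
          (fun i _ => single_mem_prodF j hF i (ha i) le_rfl) (fun i _ => hsingle i _ _ (ha i))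
      | zero => exact ⟨Ideal.zero_mem _, by rw [hδ.zero]; exact Ideal.zero_mem _⟩
      | add a b _ _ ha hb =>
        exact ⟨Ideal.add_mem _ ha.1 hb.1, by rw [hδ.add]; exact Ideal.add_mem _ ha.2 hb.2⟩
      | smul r a _ ha =>
        refine ⟨Ideal.mul_mem_left _ _ ha.1, ?_⟩
        rw [smul_eq_mul, hδ.mul]
        exact Ideal.add_mem _ (Ideal.add_mem _ (Ideal.mul_mem_left _ _ ha.2)
          (hPf.mul_mem ha.1 (hdiv0 r))) (Ideal.mul_mem_left _ _ (Ideal.mul_mem_left _ _ ha.2))
    exact key.2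
  refine ⟨hdiv, ?_, ?_⟩
  · intro P hP hPδ
    refine prodF_one_le j hF fun i a ha => ?_
    have h1 := (hnd i).fix (P.comap (j i)) (hP.comap _) fun a => by
      rw [Ideal.mem_comap, ← hδj]; exact hPδ _
    exact h1 ha
  · intro d hd a ha
    refine lead_span hPf hdiv rfl ?_ ha
    rintro _ ⟨e, a, ha, hde, rfl⟩
    rcases Nat.lt_or_ge d (∑ i, w i * e i) with hlt | hge
    · refine ⟨1, ?_⟩
      rw [pow_one, one_mul]
      exact Submodule.mem_sup_left (mem_prodF j e a ha hlt)
    have hdeq : d = ∑ i, w i * e i := le_antisymm hde hge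
    obtain ⟨i0, hi0⟩ : ∃ i, 1 ≤ e i := by
      by_contra hcon
      push Not at hcon
      have h4 : ∑ i, w i * e i = 0 := Finset.sum_eq_zero fun i _ => by
        rw [Nat.lt_one_iff.1 (hcon i), mul_zero]
      omega
    obtain ⟨N, hN⟩ := (hnd i0).lead (e i0) hi0 (a i0) (ha i0)
    refine ⟨N, ?_⟩
    have h1 : (∏ i, j i (a i)) ^ N = j i0 (a i0 ^ N) *
        (∏ i ∈ Finset.univ.erase i0, j i (a i)) ^ N := by
      rw [← Finset.mul_prod_erase Finset.univ _ (Finset.mem_univ i0), mul_pow, map_pow]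
    have h2 : (∏ i ∈ Finset.univ.erase i0, j i (a i)) ^ N ∈
        prodF j F w (N * ∑ i ∈ Finset.univ.erase i0, w i * e i) :=
      hPf.pow_mem (hPf.prod_mem _ _ _ fun i _ => single_mem_prodF j hF i (ha i) le_rfl) N
    have h3 : N * d = N * (w i0 * e i0) + N * ∑ i ∈ Finset.univ.erase i0, w i * e i := by
      rw [hdeq, ← Finset.add_sum_erase Finset.univ _ (Finset.mem_univ i0), Nat.mul_add]
    rw [h1, h3]
    refine LI_mul hPf hdiv ?_ h2
    -- the factor `i0`
    obtain ⟨x1, hx1, x2, hx2, hx⟩ := Submodule.mem_sup.1 hN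
    rw [← hx, map_add]
    refine Ideal.add_mem _ ?_ ?_
    · refine Submodule.mem_sup_left (single_mem_prodF j hF i0 hx1 ?_)
      have h5 := hw i0
      have h6 : N * (w i0 * e i0) = w i0 * (N * e i0) := by ring
      rw [h6, Nat.mul_add, Nat.mul_one]
      omega
    · clear hx hx1 hN
      induction hx2 using Submodule.span_induction with
      | mem z hz =>
        obtain ⟨e', c, hc, b, hb, rfl⟩ := hz
        refine Submodule.mem_sup_right (Ideal.subset_span
          ⟨w i0 * e', j i0 c, single_mem_prodF j hF i0 hc le_rfl, j i0 b,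
            single_mem_prodF j hF i0 hb ?_, by rw [map_mul, hδj]⟩)
        rw [Nat.mul_sub, Nat.mul_add, hL i0]
        apply le_of_eq
        congr 1
        ring
      | zero => rw [map_zero]; exact Ideal.zero_mem _
      | add a b _ _ ha hb => rw [map_add]; exact Ideal.add_mem _ ha hb
      | smul r a _ ha => rw [smul_eq_mul, map_mul]; exact Ideal.mul_mem_left _ _ ha

end prod

end Pool.Agent.H208P
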