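import Pool.Agent.H208P.C
import Pool.Agent.H920R2.Cu3

/-!
Twisted derivations on curves: zeros, orders and étale uniformizers.
-/

set_option autoImplicit false
set_option linter.unusedSectionVars false

open Polynomial Pool.Agent.H920R2

universe u v

namespace Pool.Agent.H208P

section ded

variable {k A : Type u} [Field k] [CommRing A] [IsDedekindDomain A] [Algebra k A] {δ : A → A}
  {ε : A}

include k in
lemma TD.pow_mem (h : TD k δ ε) (P : Ideal A) (n : ℕ) (hn : ∀ a, δ a ∈ P ^ (n + 1)) (c : ℕ) :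
    ∀ a ∈ P ^ c, δ a ∈ P ^ (c + n) := by
  induction c with
  | zero =>
    intro a _
    rw [zero_add]
    exact Ideal.pow_le_pow_right (Nat.le_succ n) (hn a)
  | succ c ih =>
    intro a ha
    rw [pow_succ'] at ha
    refine Submodule.mul_induction_on ha ?_ ?_
    · intro x hx y hy
      rw [h.mul]
      have e : c + 1 + n = 1 + (c + n) := by ring
      have e' : c + 1 + n = (n + 1) + c := by ring
      refine Ideal.add_mem _ (Ideal.add_mem _ ?_ ?_) (Ideal.mul_mem_left _ _ ?_)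
      · rw [e, pow_add, pow_one]
        exact Ideal.mul_mem_mul hx (ih y hy)
      · rw [e', pow_add, mul_comm y]
        exact Ideal.mul_mem_mul (hn x) hy
      · have h1 : δ x * δ y ∈ P ^ (n + 1) * P ^ (c + n) :=
          Ideal.mul_mem_mul (hn x) (ih y hy)
        rw [← pow_add] at h1
        exact Ideal.pow_le_pow_right (by omega) h1
    · intro x y hx hy
      rw [h.add]
      exact Ideal.add_mem _ hx hy

/-- The increment of a polynomial. -/
lemma TD.aeval (h : TD k δ ε) (a : A) (F : k[X]) : ∃ c, δ (aeval a F) =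
    Polynomial.aeval a (derivative F) * δ a + c * (δ a * δ a) := by
  induction F using Polynomial.induction_on' with
  | add p q hp hq =>
    obtain ⟨c, hc⟩ := hp
    obtain ⟨c', hc'⟩ := hq
    refine ⟨c + c', ?_⟩
    rw [map_add, h.add, hc, hc', derivative_add, map_add]
    ring
  | monomial n r =>
    have h1 : ∀ n : ℕ, ∃ c, δ (a ^ n) = n * a ^ (n - 1) * δ a + c * (δ a * δ a) := by
      intro n
      induction n with
      | zero => exact ⟨0, by rw [pow_zero, h.one]; simp⟩
      | succ n ih =>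
        obtain ⟨c, hc⟩ := ih
        rcases Nat.eq_zero_or_pos n with h' | h'
        · subst h'
          exact ⟨0, by simp⟩
        · refine ⟨c * a + ε * (n * a ^ (n - 1)) + ε * c * δ a, ?_⟩
          rw [pow_succ, h.mul, hc]
          have h2 : a ^ n = a * a ^ (n - 1) := by
            rw [← pow_succ', Nat.sub_add_cancel h']
          rw [Nat.add_sub_cancel, h2]
          push_cast
          ring
    obtain ⟨c, hc⟩ := h1 n
    refine ⟨algebraMap k A r * c, ?_⟩
    rw [aeval_monomial, h.mul, h.const, hc, derivative_monomial, aeval_monomial, map_mul,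
      map_natCast]
    ring

/-- If the values are in the `n`-th power of a prime ideal, and the value at a uniformizer in the
next power, then so are all values. -/
lemma TD.lift (h : TD k δ ε) (P : Ideal A) [hPm : P.IsMaximal]
    (hsep : ∀ a : A, ∃ F : k[X], Polynomial.aeval a F ∈ P ∧
    Polynomial.aeval a (derivative F) ∉ P) {t f : A} (hf : f ∉ P) (hft : ∀ b ∈ P, t ∣ f * b)
    {n : ℕ} (hn : 1 ≤ n) (hdel : ∀ a, δ a ∈ P ^ n) (ht : t ∈ P)
    (hdt : δ t ∈ P ^ (n + 1)) : ∀ a, δ a ∈ P ^ (n + 1) := by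
  have hP : ∀ b ∈ P, δ b ∈ P ^ (n + 1) := by
    intro b hb
    obtain ⟨c, hc⟩ := hft b hb
    have h1 : δ (f * b) = δ (t * c) := by rw [hc]
    rw [h.mul, h.mul] at h1
    have h2 : f * δ b = t * δ c + c * δ t + ε * (δ t * δ c) - b * δ f - ε * (δ f * δ b) := by
      linear_combination h1
    have h3 : f * δ b ∈ P ^ (n + 1) := by
      rw [h2]
      refine Ideal.sub_mem _ (Ideal.sub_mem _ (Ideal.add_mem _ (Ideal.add_mem _
        ?_ (Ideal.mul_mem_left _ _ hdt)) (Ideal.mul_mem_left _ _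
          (Ideal.mul_mem_right _ _ hdt))) ?_) (Ideal.mul_mem_left _ _ ?_)
      · rw [pow_succ']
        exact Ideal.mul_mem_mul ht (hdel c)
      · rw [pow_succ']
        exact Ideal.mul_mem_mul hb (hdel f)
      · have h4 : δ f * δ b ∈ P ^ n * P ^ n := Ideal.mul_mem_mul (hdel f) (hdel b)
        rw [← pow_add] at h4
        exact Ideal.pow_le_pow_right (by omega) h4
    exact (Ideal.IsMaximal.mul_mem_pow P h3).resolve_left hf
  intro a
  obtain ⟨F, hF, hF'⟩ := hsep a
  obtain ⟨c, hc⟩ := h.aeval a F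
  have h1 := hP _ hF
  have h2 : Polynomial.aeval a (derivative F) * δ a ∈ P ^ (n + 1) := by
    have h3 : Polynomial.aeval a (derivative F) * δ a =
        δ (Polynomial.aeval a F) - c * (δ a * δ a) := by
      rw [hc]; ring
    rw [h3]
    refine Ideal.sub_mem _ h1 (Ideal.mul_mem_left _ _ ?_)
    have h4 : δ a * δ a ∈ P ^ n * P ^ n := Ideal.mul_mem_mul (hdel a) (hdel a)
    rw [← pow_add] at h4
    exact Ideal.pow_le_pow_right (by omega) h4
  exact (Ideal.IsMaximal.mul_mem_pow P h2).resolve_left hF'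

/-- The zeros of an operator on a curve and their orders (minus one). -/
structure CD (δ : A → A) (S : Finset (Ideal A)) (m : Ideal A → ℕ) : Prop where
  max : ∀ P ∈ S, P.IsMaximal
  ne : ∀ P ∈ S, P ≠ ⊥
  dl : ∀ P ∈ S, ∀ a, δ a ∈ P ^ (m P + 1)
  ex : ∀ P ∈ S, ∀ t ∈ P, t ∉ P ^ 2 → δ t ∉ P ^ (m P + 2)
  mem : ∀ P : Ideal A, P.IsPrime → (∀ a, δ a ∈ P) → P ∈ S

theorem exists_CD [PerfectField k] [Algebra.FiniteType k A] (h : TD k δ ε)
    (hne : ∃ a, δ a ≠ 0) : ∃ (S : Finset (Ideal A)) (m : Ideal A → ℕ), CD δ S m := by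
  classical
  let I : Ideal A := Ideal.span (Set.range δ)
  have hI0 : I ≠ ⊥ := by
    obtain ⟨a, ha⟩ := hne
    intro h
    apply ha
    have h1 : δ a ∈ I := Ideal.subset_span ⟨a, rfl⟩
    rw [h] at h1
    exact h1
  have hfin := Ideal.finite_factors (R := A) hI0
  let S : Finset (Ideal A) := hfin.toFinset.image fun v => v.asIdeal
  have hS : ∀ P : Ideal A, P ∈ S ↔ P.IsPrime ∧ I ≤ P := by
    intro P
    constructor
    · intro h
      obtain ⟨v, hv, rfl⟩ := Finset.mem_image.1 h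
      refine ⟨v.isPrime, ?_⟩
      have h1 := (Set.Finite.mem_toFinset hfin).1 hv
      exact Ideal.le_of_dvd h1
    · rintro ⟨hP, hle⟩
      have hP0 : P ≠ ⊥ := by
        intro h
        rw [h, le_bot_iff] at hle
        exact hI0 hle
      refine Finset.mem_image.2 ⟨⟨P, hP, hP0⟩, ?_, rfl⟩
      rw [Set.Finite.mem_toFinset]
      exact Ideal.dvd_iff_le.2 hle
  have hP0 : ∀ P ∈ S, P ≠ ⊥ := by
    intro P hP h
    have hle := ((hS P).1 hP).2
    rw [h, le_bot_iff] at hle
    exact hI0 hle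
  have hmax : ∀ P ∈ S, P.IsMaximal := fun P hP => ((hS P).1 hP).1.isMaximal (hP0 P hP)
  have hex : ∀ P ∈ S, ∃ n, ¬ I ≤ P ^ (n + 2) := by
    intro P hP
    by_contra hcon
    push Not at hcon
    have h1 := Ideal.iInf_pow_eq_bot_of_isDomain P (hmax P hP).ne_top
    apply hI0
    rw [← le_bot_iff, ← h1]
    refine le_iInf fun n => ?_
    exact (hcon n).trans (Ideal.pow_le_pow_right (by omega))
  let m : Ideal A → ℕ := fun P => if h : P ∈ S then Nat.find (hex P h) else 0
  have hm : ∀ (P) (h : P ∈ S), m P = Nat.find (hex P h) := fun P h => dif_pos h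
  have hmle : ∀ P ∈ S, I ≤ P ^ (m P + 1) := by
    intro P hP
    rw [hm P hP]
    rcases Nat.eq_zero_or_pos (Nat.find (hex P hP)) with h | h
    · rw [h, zero_add, pow_one]; exact ((hS P).1 hP).2
    · have h1 := Nat.find_min (hex P hP) (m := Nat.find (hex P hP) - 1) (by omega)
      rw [not_not] at h1
      have e : Nat.find (hex P hP) - 1 + 2 = Nat.find (hex P hP) + 1 := by omega
      rwa [e] at h1
  have hmnle : ∀ P ∈ S, ¬ I ≤ P ^ (m P + 2) := by
    intro P hP
    rw [hm P hP]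
    exact Nat.find_spec (hex P hP)
  refine ⟨S, m, ⟨hmax, hP0, ?_, ?_, ?_⟩⟩
  · intro P hP a
    exact hmle P hP (Ideal.subset_span ⟨a, rfl⟩)
  · intro P hP t ht ht' h'
    have _ := hmax P hP
    obtain ⟨f, hf, hft⟩ := exists_den P t ht ht'
    apply hmnle P hP
    have h1 := h.lift P (exists_sep P (hmax P hP)) hf hft (n := m P + 1) (by omega)
      (fun a => hmle P hP (Ideal.subset_span ⟨a, rfl⟩)) ht h'
    rw [Ideal.span_le]
    rintro _ ⟨a, rfl⟩
    exact h1 a
  · intro P hP h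
    rw [hS]
    refine ⟨hP, ?_⟩
    rw [Ideal.span_le]
    rintro _ ⟨a, rfl⟩
    exact h a

/-- The filtration of a curve by the weighted orders at a finite set of points. -/
noncomputable def FC (S : Finset (Ideal A)) (w : Ideal A → ℕ) (d : ℕ) : Ideal A :=
  ⨅ P ∈ S, P ^ (d ⌈/⌉ w P)

lemma mem_FC {S : Finset (Ideal A)} {w : Ideal A → ℕ} (hw : ∀ P ∈ S, 1 ≤ w P) {d : ℕ} {a : A} :
    a ∈ FC S w d ↔ ∀ P ∈ S, ∃ c, d ≤ w P * c ∧ a ∈ P ^ c := by
  unfold FC
  rw [Submodule.mem_iInf]
  constructor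
  · intro h P hP
    have h1 := h P
    rw [Submodule.mem_iInf] at h1
    refine ⟨d ⌈/⌉ w P, ?_, h1 hP⟩
    have := (ceilDiv_le_iff_le_mul (b := d) (c := d ⌈/⌉ w P) (hw P hP)).1 le_rfl
    linarith
  · intro h P
    rw [Submodule.mem_iInf]
    intro hP
    obtain ⟨c, hc, hac⟩ := h P hP
    refine Ideal.pow_le_pow_right ?_ hac
    exact (ceilDiv_le_iff_le_mul (hw P hP)).2 (by linarith)

lemma filt_FC {S : Finset (Ideal A)} {w : Ideal A → ℕ} (hw : ∀ P ∈ S, 1 ≤ w P) :
    Filt (FC S w) where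
  zero := by
    rw [eq_top_iff]
    intro a _
    rw [mem_FC hw]
    exact fun P _ => ⟨0, by simp, by simp⟩
  anti := by
    intro a b hab x hx
    rw [mem_FC hw] at hx ⊢
    intro P hP
    obtain ⟨c, hc, hxc⟩ := hx P hP
    exact ⟨c, hab.trans hc, hxc⟩
  mul := by
    intro a b
    rw [Ideal.mul_le]
    intro x hx y hy
    rw [mem_FC hw] at hx hy ⊢
    intro P hP
    obtain ⟨c, hc, hxc⟩ := hx P hP
    obtain ⟨c', hc', hyc⟩ := hy P hP
    refine ⟨c + c', by rw [Nat.mul_add]; omega, ?_⟩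
    rw [pow_add]
    exact Ideal.mul_mem_mul hxc hyc

/-- The primes which contain the first step of the filtration. -/
lemma mem_of_FC_le {S : Finset (Ideal A)} {w : Ideal A → ℕ} (hw : ∀ P ∈ S, 1 ≤ w P)
    (hmax : ∀ P ∈ S, P.IsMaximal) (d : ℕ) {P : Ideal A} (hP : P.IsPrime) (h : FC S w d ≤ P) :
    P ∈ S := by
  have h1 : ∏ P' ∈ S, P' ^ d ≤ P := by
    refine le_trans ?_ h
    intro x hx
    rw [mem_FC hw]
    intro P' hP'
    refine ⟨d, Nat.le_mul_of_pos_left _ (hw P' hP'), ?_⟩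
    exact Ideal.le_of_dvd (Finset.dvd_prod_of_mem (fun P => P ^ d) hP') hx
  obtain ⟨P', hP', h2⟩ := (Ideal.IsPrime.prod_le hP).1 h1
  have h3 : P' ≤ P := hP.le_of_pow_le h2
  have h4 := (hmax P' hP').eq_of_le hP.ne_top h3
  rw [← h4]
  exact hP'

end ded

end Pool.Agent.H208P
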