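import Pool.Agent.H208P.E

/-!
Curves: regular weighted centres and nondegenerate leading forms.
-/

set_option autoImplicit false
set_option linter.unusedSectionVars false

open Pool.Agent.H920R2

universe u v

namespace Pool.Agent.H208P

section etale

variable {k A : Type u} [Field k] [CommRing A] [Algebra k A]

/-- Étale coordinates on a smaller open subset. -/
lemma etale_mul {κ : Type} (f g : A) (x : κ → A)
    (h : ((MvPolynomial.aeval (fun c => algebraMap A (Localization.Away f) (x c)) :
      MvPolynomial κ k →ₐ[k] Localization.Away f) :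
        MvPolynomial κ k →+* Localization.Away f).Etale) :
    ((MvPolynomial.aeval (fun c => algebraMap A (Localization.Away (f * g)) (x c)) :
      MvPolynomial κ k →ₐ[k] Localization.Away (f * g)) :
        MvPolynomial κ k →+* Localization.Away (f * g)).Etale := by
  let T := Localization.Away (algebraMap A (Localization.Away f) g)
  have _ : IsLocalization.Away (f * g) T := IsLocalization.Away.mul' (Localization.Away f) T f g
  let e : T ≃ₐ[A] Localization.Away (f * g) :=
    IsLocalization.algEquiv (Submonoid.powers (f * g)) T _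
  have h1 : ((MvPolynomial.aeval (fun c => algebraMap A (Localization.Away (f * g)) (x c)) :
      MvPolynomial κ k →ₐ[k] Localization.Away (f * g)) :
        MvPolynomial κ k →+* Localization.Away (f * g)) =
      (e : T →+* Localization.Away (f * g)).comp ((algebraMap (Localization.Away f) T).comp
        ((MvPolynomial.aeval (fun c => algebraMap A (Localization.Away f) (x c)) :
          MvPolynomial κ k →ₐ[k] Localization.Away f) :
            MvPolynomial κ k →+* Localization.Away f)) := by
    have h2 : ∀ a : A, e (algebraMap (Localization.Away f) T (algebraMap A _ a)) =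
        algebraMap A _ a := by
      intro a
      rw [← IsScalarTower.algebraMap_apply A (Localization.Away f) T]
      exact e.commutes a
    apply MvPolynomial.ringHom_ext
    · intro r
      change MvPolynomial.aeval _ (MvPolynomial.C r) =
        e (algebraMap (Localization.Away f) T (MvPolynomial.aeval _ (MvPolynomial.C r)))
      rw [MvPolynomial.aeval_C, MvPolynomial.aeval_C,
        IsScalarTower.algebraMap_apply k A (Localization.Away f), h2,
        ← IsScalarTower.algebraMap_apply]
    · intro c
      change MvPolynomial.aeval _ (MvPolynomial.X c) =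
        e (algebraMap (Localization.Away f) T (MvPolynomial.aeval _ (MvPolynomial.X c)))
      rw [MvPolynomial.aeval_X, MvPolynomial.aeval_X, h2]
  rw [h1]
  refine RingHom.Etale.stableUnderComposition _ _ (RingHom.Etale.stableUnderComposition _ _ h ?_)
    (RingHom.Etale.of_bijective e.bijective)
  have : Algebra.Etale (Localization.Away f) T :=
    Algebra.Etale.of_isLocalizationAway (algebraMap A (Localization.Away f) g)
  exact RingHom.etale_algebraMap.2 this

/-- One étale coordinate. -/
lemma etale_one {D : Type u} [CommRing D] [Algebra k D] (a : D)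
    (h : ((Polynomial.aeval a : Polynomial k →ₐ[k] D).toRingHom).Etale) :
    ((MvPolynomial.aeval (fun _ : Fin 1 => a) : MvPolynomial (Fin 1) k →ₐ[k] D) :
      MvPolynomial (Fin 1) k →+* D).Etale := by
  have h1 : ((MvPolynomial.aeval (fun _ : Fin 1 => a) : MvPolynomial (Fin 1) k →ₐ[k] D) :
      MvPolynomial (Fin 1) k →+* D) = ((Polynomial.aeval a : Polynomial k →ₐ[k] D).toRingHom).comp
      ((MvPolynomial.uniqueAlgEquiv k (Fin 1) :
        MvPolynomial (Fin 1) k ≃ₐ[k] Polynomial k) : MvPolynomial (Fin 1) k →+* Polynomial k) := by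
    apply MvPolynomial.ringHom_ext
    · intro r
      simp
    · intro c
      simp
  rw [h1]
  exact RingHom.Etale.stableUnderComposition _ _ (RingHom.Etale.of_bijective
    (MvPolynomial.uniqueAlgEquiv k (Fin 1)).bijective) h

end etale

section curve

variable {k A : Type u} [Field k] [CommRing A] [IsDedekindDomain A] [Algebra k A] {δ : A → A}
  {ε : A} {S : Finset (Ideal A)} {w : Ideal A → ℕ}

lemma exists_sepa (hmax : ∀ P ∈ S, P.IsMaximal) {P : Ideal A} (hP : P ∈ S) :
    ∃ g, g ∉ P ∧ ∀ P' ∈ S, P' ≠ P → g ∈ P' := by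
  classical
  have h1 : ¬ ∏ P' ∈ S.erase P, P' ≤ P := by
    intro h
    obtain ⟨P', hP', h2⟩ := (Ideal.IsPrime.prod_le (hmax P hP).isPrime).1 h
    rw [Finset.mem_erase] at hP'
    exact hP'.1 ((hmax P' hP'.2).eq_of_le (hmax P hP).ne_top h2)
  obtain ⟨g, hg, hgP⟩ := SetLike.not_le_iff_exists.1 h1
  refine ⟨g, hgP, fun P' hP' hne => ?_⟩
  exact Ideal.le_of_dvd (Finset.dvd_prod_of_mem (fun P => P) (Finset.mem_erase.2 ⟨hne, hP'⟩)) hg

/-- The filtration of a curve is a regular weighted centre. -/
theorem centre_FC [PerfectField k] [Algebra.FiniteType k A] (hw : ∀ P ∈ S, 1 ≤ w P)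
    (hmax : ∀ P ∈ S, P.IsMaximal) (hne : ∀ P ∈ S, P ≠ ⊥) : RegularWeightedCentre k (FC S w) := by
  classical
  have hf := filt_FC hw
  refine ⟨hf.zero, hf.anti, hf.mul, ?_⟩
  intro P hPp hP1
  have hP : P ∈ S := mem_of_FC_le hw hmax 1 hPp hP1
  have hPm := hmax P hP
  obtain ⟨t, ht, ht', -⟩ := exists_unif S (fun P' h => ⟨(hmax P' h).isPrime, hne P' h⟩) P hP 1
  obtain ⟨f, hfP, hft, het⟩ := exists_etale_unif (k := k) P hPm ht ht'
  obtain ⟨g, hgP, hg⟩ := exists_sepa hmax hP
  let D := Localization.Away (f * g)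
  have hE := etale_mul (k := k) f g (fun _ : Fin 1 => t) (etale_one _ het)
  refine ⟨f * g, 1, fun _ => t, fun _ => w P, ?_, hE, ?_⟩
  · intro h
    exact (hPp.mem_or_mem h).elim hfP hgP
  intro d
  have hu : IsUnit (algebraMap A D (f * g)) := IsLocalization.map_units D
      (⟨f * g, Submonoid.mem_powers _⟩ : Submonoid.powers (f * g))
  rw [map_mul] at hu
  have hfu : IsUnit (algebraMap A D f) := isUnit_of_mul_isUnit_left hu
  have hgu : IsUnit (algebraMap A D g) := isUnit_of_mul_isUnit_right hu
  change (FC S w d).map (algebraMap A D) = Ideal.span {y : D | ∃ α : Fin 1 → ℕ,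
    d ≤ ∑ i, α i * w P ∧ y = ∏ i, algebraMap A D t ^ α i}
  apply le_antisymm
  · rw [Ideal.map_le_iff_le_comap]
    intro a ha
    rw [Ideal.mem_comap]
    rw [mem_FC hw] at ha
    obtain ⟨c, hc, hac⟩ := ha P hP
    obtain ⟨b, hb⟩ := exists_den_pow P hft c a hac
    rw [← Ideal.unit_mul_mem_iff_mem _ (hfu.pow c), ← map_pow, ← map_mul, hb, map_mul]
    refine Ideal.mul_mem_right _ _ (Ideal.subset_span ⟨fun _ => c, ?_, ?_⟩)
    · simp; linarith
    · simp
  · rw [Ideal.span_le]
    rintro _ ⟨α, hα, rfl⟩
    change (∏ i, algebraMap A D t ^ α i) ∈ (FC S w d).map (algebraMap A D)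
    rw [Fin.prod_univ_one]
    rw [Fin.sum_univ_one] at hα
    rw [← Ideal.unit_mul_mem_iff_mem _ (hgu.pow d), ← map_pow, ← map_pow, ← map_mul]
    refine Ideal.mem_map_of_mem _ ?_
    rw [mem_FC hw]
    intro P' hP'
    by_cases h : P' = P
    · subst h
      exact ⟨α 0, by linarith, Ideal.mul_mem_left _ _ (Ideal.pow_mem_pow ht _)⟩
    · exact ⟨d, Nat.le_mul_of_pos_left _ (hw P' hP'),
        Ideal.mul_mem_right _ _ (Ideal.pow_mem_pow (hg P' hP' h) _)⟩

/-- The leading form on a curve is nondegenerate. -/
theorem nondeg_FC {m : Ideal A → ℕ} (hδ : TD k δ ε) (hCD : CD δ S m) (hw : ∀ P ∈ S, 1 ≤ w P)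
    {l : ℕ} (hl : ∀ P ∈ S, w P * m P = l) : Nondeg (FC S w) δ l := by
  classical
  have hF := filt_FC hw
  refine ⟨?_, ?_, ?_⟩
  · intro d a ha
    rw [mem_FC hw] at ha ⊢
    intro P hP
    obtain ⟨c, hc, hac⟩ := ha P hP
    exact ⟨c + m P, by rw [Nat.mul_add, hl P hP]; omega, hδ.pow_mem P (m P) (hCD.dl P hP) c a hac⟩
  · intro P hP h
    have hPS := hCD.mem P hP h
    intro a ha
    rw [mem_FC hw] at ha
    obtain ⟨c, hc, hac⟩ := ha P hPS
    refine Ideal.pow_le_self ?_ hac
    rintro rfl
    omega
  · intro d hd a ha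
    -- the exponent
    obtain ⟨N, hN1, hN⟩ : ∃ N, 1 ≤ N ∧ ∀ P ∈ S, m P + 1 ≤ N := by
      refine ⟨∑ P ∈ S, m P + 1, by omega, fun P hP => ?_⟩
      have := Finset.single_le_sum (f := m) (fun _ _ => Nat.zero_le _) hP
      omega
    refine ⟨N, ?_⟩
    set J := LI (FC S w) δ l (N * d) with hJ
    -- the conductor
    let K : Ideal A := Submodule.comap (LinearMap.mulLeft A (a ^ N)) J
    have hK : ∀ x, x ∈ K ↔ a ^ N * x ∈ J := fun x => Iff.rfl
    suffices h : K = ⊤ by
      have h1 : (1 : A) ∈ K := by rw [h]; trivial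
      rw [hK, mul_one] at h1
      exact h1
    by_contra hcon
    obtain ⟨P, hPm, hKP⟩ := Ideal.exists_le_maximal K hcon
    have hPS : P ∈ S := by
      refine mem_of_FC_le hw hCD.max (N * d + 1) hPm.isPrime (le_trans ?_ hKP)
      intro x hx
      rw [hK]
      exact Ideal.mul_mem_left _ _ (Submodule.mem_sup_left hx)
    obtain ⟨g, hgP, hg⟩ := exists_sepa hCD.max hPS
    have haP := (mem_FC hw).1 ha P hPS
    obtain ⟨c, hc, hac⟩ := haP
    have hgN : ∀ n, g ^ n ∉ P := fun n hn => hgP (hPm.isPrime.mem_of_pow_mem n hn)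
    rcases Nat.lt_or_ge d (w P * c) with hlt | hge
    · -- higher order
      apply hgN (N * d + 1)
      apply hKP
      rw [hK]
      refine Submodule.mem_sup_left ?_
      rw [mem_FC hw]
      intro P' hP'
      by_cases h : P' = P
      · subst h
        refine ⟨c * N, ?_, Ideal.mul_mem_right _ _ ?_⟩
        · nlinarith
        · rw [pow_mul]
          exact Ideal.pow_mem_pow hac N
      · exact ⟨N * d + 1, Nat.le_mul_of_pos_left _ (hw P' hP'),
          Ideal.mul_mem_left _ _ (Ideal.pow_mem_pow (hg P' hP' h) _)⟩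
    · have hdeq : w P * c = d := le_antisymm hge hc
      have hc1 : 1 ≤ c := by
        rcases Nat.eq_zero_or_pos c with h | h
        · rw [h, Nat.mul_zero] at hdeq; omega
        · exact h
      -- a uniformizer of large weight at the other points
      obtain ⟨t, ht, ht', htS⟩ := exists_unif S
        (fun P' h => ⟨(hCD.max P' h).isPrime, hCD.ne P' h⟩) P hPS (w P)
      obtain ⟨f, hfP, hft⟩ := exists_den P t ht ht'
      have hfn : ∀ n, f ^ n ∉ P := fun n hn => hfP (hPm.isPrime.mem_of_pow_mem n hn)
      obtain ⟨a', ha'⟩ := exists_den_pow P hft c a hac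
      obtain ⟨v, hv⟩ := exists_den_pow P hft (m P + 1) (δ t) (hCD.dl P hPS t)
      have hvP : v ∉ P := by
        intro h
        apply hCD.ex P hPS t ht ht'
        have h1 : f ^ (m P + 1) * δ t ∈ P ^ (m P + 2) := by
          rw [hv, pow_succ P (m P + 1)]
          exact Ideal.mul_mem_mul (Ideal.pow_mem_pow ht _) h
        exact (Ideal.IsMaximal.mul_mem_pow P h1).resolve_left (hfn _)
      have hcN : m P + 1 ≤ c * N := le_trans (hN P hPS) (Nat.le_mul_of_pos_left _ hc1)
      -- the multiple of the power
      have key : a ^ N * (v * f ^ (c * N) * g ^ (N * d)) =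
          (g ^ (N * d) * a' ^ N * f ^ (m P + 1) * t ^ (c * N - (m P + 1))) * δ t := by
        have h1 : f ^ (c * N) * a ^ N = t ^ (c * N) * a' ^ N := by
          rw [pow_mul, ← mul_pow, ha', mul_pow, pow_mul]
        have h2 : t ^ (c * N) = t ^ (c * N - (m P + 1)) * t ^ (m P + 1) := by
          rw [← pow_add, Nat.sub_add_cancel hcN]
        calc a ^ N * (v * f ^ (c * N) * g ^ (N * d))
            = (f ^ (c * N) * a ^ N) * v * g ^ (N * d) := by ring
          _ = t ^ (c * N - (m P + 1)) * (t ^ (m P + 1) * v) * a' ^ N * g ^ (N * d) := by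
              rw [h1, h2]; ring
          _ = t ^ (c * N - (m P + 1)) * (f ^ (m P + 1) * δ t) * a' ^ N * g ^ (N * d) := by
              rw [hv]
          _ = _ := by ring
      have hmem : v * f ^ (c * N) * g ^ (N * d) ∈ K := by
        rw [hK, key]
        refine Submodule.mem_sup_right (Ideal.subset_span ⟨w P, t, ?_, _, ?_, rfl⟩)
        · rw [mem_FC hw]
          intro P' hP'
          by_cases h : P' = P
          · subst h
            exact ⟨1, by omega, by rw [pow_one]; exact ht⟩
          · exact ⟨w P, Nat.le_mul_of_pos_left _ (hw P' hP'), htS P' hP' h⟩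
        · rw [mem_FC hw]
          intro P' hP'
          by_cases h : P' = P
          · subst h
            refine ⟨c * N - (m P' + 1), ?_, Ideal.mul_mem_left _ _ (Ideal.pow_mem_pow ht _)⟩
            rw [Nat.mul_sub, ← Nat.mul_assoc, hdeq, Nat.mul_add, hl P' hP', Nat.mul_one,
              Nat.mul_comm N d, Nat.add_comm l]
          · refine ⟨N * d, le_trans (Nat.sub_le _ _) (Nat.le_mul_of_pos_left _ (hw P' hP')), ?_⟩
            refine Ideal.mul_mem_right _ _ (Ideal.mul_mem_right _ _ (Ideal.mul_mem_right _ _ ?_))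
            exact Ideal.pow_mem_pow (hg P' hP' h) _
      rcases hPm.isPrime.mem_or_mem (hKP hmem) with h | h
      · rcases hPm.isPrime.mem_or_mem h with h | h
        · exact hvP h
        · exact hfn _ h
      · exact hgN _ h

end curve

end Pool.Agent.H208P
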