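import Pool.Agent.H208P.G

/-!
Étale coordinates on smooth algebras of characteristic `p`; the trivial centre; wildness.
-/

set_option autoImplicit false
set_option linter.unusedSectionVars false

open Pool.Agent.H920R2

universe u v

namespace Pool.Agent.H208P

section etale

open MvPolynomial

variable {k D : Type u} [Field k] [CommRing D] [Algebra k D] {κ : Type}

/-- Multiplication of étale coordinates by the `p`-th power of a unit. -/
lemma etale_scale [Finite κ] {p : ℕ} (hp : p.Prime) (hpk : (p : k) = 0) (t : κ → D)
    (ht : ((aeval t : MvPolynomial κ k →ₐ[k] D) : MvPolynomial κ k →+* D).Etale)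
    (hft : Algebra.FiniteType k D) (v : D) (hv : IsUnit v) :
    ((aeval (fun i => v ^ p * t i) : MvPolynomial κ k →ₐ[k] D) :
      MvPolynomial κ k →+* D).Etale := by
  let C := MvPolynomial κ k
  let _ : Algebra C D := (aeval (fun i => v ^ p * t i) : MvPolynomial κ k →ₐ[k] D).toRingHom.toAlgebra
  have hCD : ∀ c : C, algebraMap C D c = aeval (fun i => v ^ p * t i) c := fun c => rfl
  have _ : IsScalarTower k C D := IsScalarTower.of_algebraMap_eq fun r => by
    rw [hCD, MvPolynomial.algebraMap_eq, aeval_C]
  have hfp : Algebra.FinitePresentation C D := by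
    have _ : Algebra.FiniteType C D := Algebra.FiniteType.of_restrictScalars_finiteType k C D
    exact Algebra.FinitePresentation.of_finiteType.1 inferInstance
  have hfe : Algebra.FormallyEtale C D := by
    rw [Algebra.FormallyEtale.iff_comp_bijective]
    intro S _ _ I hI
    let _ : Algebra k S := ((algebraMap C S).comp (algebraMap k C)).toAlgebra
    have _ : IsScalarTower k C S := IsScalarTower.of_algebraMap_eq fun r => rfl
    have hpS : (p : S) = 0 := by
      rw [← map_natCast (algebraMap k S), hpk, map_zero]
    -- `p`-th powers of lifts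
    have hpow : ∀ x y : S, Ideal.Quotient.mk I x = Ideal.Quotient.mk I y → x ^ p = y ^ p := by
      intro x y h
      rw [Ideal.Quotient.mk_eq_mk_iff_sub_mem] at h
      obtain ⟨z, hz⟩ : ∃ z, z = x - y := ⟨_, rfl⟩
      rw [← hz] at h
      have h1 : x = y + z := by rw [hz]; ring
      have h2 : z ^ 2 = 0 := by
        have : z ^ 2 ∈ I ^ 2 := Ideal.pow_mem_pow h 2
        rw [hI] at this
        exact this
      obtain ⟨r, hr⟩ := Polynomial.powAddExpansion y z p
      rw [h1, hr, h2, hpS]
      ring
    let c : κ → S := fun i => algebraMap C S (X i)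
    have hdet : ∀ (h h' : D →ₐ[k] S), (∀ x, Ideal.Quotient.mk I (h x) =
        Ideal.Quotient.mk I (h' x)) → h (v ^ p) = h' (v ^ p) := by
      intro h h' hh
      rw [map_pow, map_pow]
      exact hpow _ _ (hh v)
    constructor
    · intro h h' hh
      have hmk : ∀ x, Ideal.Quotient.mk I (h x) = Ideal.Quotient.mk I (h' x) := fun x =>
        congrArg (fun φ : D →ₐ[C] S ⧸ I => φ x) hh
      have hX : ∀ (h : D →ₐ[C] S) (i : κ), h (v ^ p * t i) = c i := by
        intro h i
        have h1 := h.commutes (X i)
        rw [hCD, aeval_X] at h1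
        exact h1
      let hk : D →ₐ[k] S := h.restrictScalars k
      let hk' : D →ₐ[k] S := h'.restrictScalars k
      have hv1 : hk (v ^ p) = hk' (v ^ p) := hdet hk hk' hmk
      have h3 : hk = hk' := by
        refine (exists_unique_lift ht I hI (fun i => hk (t i))).2 hk hk' (fun i => rfl) ?_ hmk
        intro i
        have h4 : hk (v ^ p) * hk (t i) = hk' (v ^ p) * hk' (t i) := by
          rw [← map_mul, ← map_mul]
          exact (hX h i).trans (hX h' i).symm
        rw [← hv1] at h4
        have h5 : IsUnit (hk (v ^ p)) := (hv.pow p).map hk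
        exact (h5.mul_left_cancel h4).symm
      apply AlgHom.ext
      intro x
      exact congrArg (fun φ : D →ₐ[k] S => φ x) h3
    · intro g
      have hgX : ∀ i : κ, g (v ^ p * t i) = Ideal.Quotient.mk I (c i) := by
        intro i
        have h1 := g.commutes (X i)
        rw [hCD, aeval_X] at h1
        exact h1
      have _ : IsScalarTower k C (S ⧸ I) := IsScalarTower.of_algebraMap_eq fun r => rfl
      let gk : D →ₐ[k] S ⧸ I := g.restrictScalars k
      obtain ⟨u, hu⟩ := Ideal.Quotient.mk_surjective (I := I) (gk v)
      have hInil : IsNilpotent I := ⟨2, hI⟩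
      have huu : IsUnit u := by
        have h1 : IsUnit (Ideal.Quotient.mk I u) := by rw [hu]; exact hv.map gk
        exact (IsNilpotent.isUnit_quotient_mk_iff hInil).1 h1
      obtain ⟨u', hu'⟩ := (huu.pow p).exists_right_inv
      obtain ⟨h, hh, hh'⟩ := (exists_unique_lift ht I hI (fun i => u' * c i)).1 gk (by
        intro i
        have h1 : IsUnit (gk (v ^ p)) := (hv.pow p).map gk
        apply h1.mul_left_cancel
        rw [← map_mul]
        change g (v ^ p * t i) = _
        rw [hgX, map_pow gk v p, ← hu, ← map_pow, ← map_mul, ← mul_assoc, hu', one_mul])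
      have hvh : h (v ^ p) = u ^ p := by
        rw [map_pow]
        apply hpow
        rw [hh', hu]
      have hG : ∀ q : C, h (algebraMap C D q) = algebraMap C S q := by
        intro q
        rw [hCD]
        induction q using MvPolynomial.induction_on with
        | C r => rw [aeval_C, AlgHom.commutes]; rfl
        | add p q hp hq => rw [map_add, map_add, hp, hq, map_add]
        | mul_X q i hp =>
          rw [map_mul, map_mul, hp, aeval_X, map_mul h, hvh, hh, ← mul_assoc (u ^ p), hu', one_mul,
            map_mul]
      refine ⟨{ toRingHom := (h : D →+* S), commutes' := hG }, ?_⟩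
      apply AlgHom.ext
      intro x
      exact hh' x
  have hE : Algebra.Etale C D := { formallyEtale := hfe, finitePresentation := hfp }
  exact hE

/-- Étale coordinates near a point of a smooth algebra of characteristic `p`. -/
theorem exists_etale_coord {p : ℕ} (hp : p.Prime) (hpk : (p : k) = 0) {B : Type u} [CommRing B]
    [Algebra k B] (hsm : Algebra.Smooth k B) (P : Ideal B) (hP : P.IsPrime) :
    ∃ (f : B) (n : ℕ) (x : Fin n → B), f ∉ P ∧
      ((aeval (fun i => algebraMap B (Localization.Away f) (x i)) :
        MvPolynomial (Fin n) k →ₐ[k] Localization.Away f) :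
        MvPolynomial (Fin n) k →+* Localization.Away f).Etale := by
  obtain ⟨s, hs, hstd⟩ := Algebra.Smooth.exists_span_eq_top_isStandardSmooth (R := k) (S := B)
  obtain ⟨f, hfs, hfP⟩ : ∃ f ∈ s, f ∉ P := by
    by_contra hcon
    push Not at hcon
    apply hP.ne_top
    rw [eq_top_iff, ← hs, Ideal.span_le]
    exact hcon
  have h1 := hstd f hfs
  obtain ⟨m, φ, hφC, hφ⟩ := RingHom.IsStandardSmooth.exists_etale_mvPolynomial
    (f := algebraMap k (Localization.Away f)) (by simpa [RingHom.isStandardSmooth_algebraMap])
  have hφ' : φ = ((aeval (fun i => φ (X i)) : MvPolynomial (Fin m) k →ₐ[k] Localization.Away f) :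
      MvPolynomial (Fin m) k →+* Localization.Away f) := by
    apply MvPolynomial.ringHom_ext
    · intro r
      change φ (C r) = aeval _ (C r)
      rw [aeval_C]
      exact congrArg (fun g : k →+* Localization.Away f => g r) hφC
    · intro i
      change _ = aeval _ (X i)
      rw [aeval_X]
  rw [hφ'] at hφ
  -- the denominators
  have hden : ∃ N : ℕ, ∀ i, ∃ b : B, algebraMap B (Localization.Away f) b =
      algebraMap B (Localization.Away f) f ^ N * φ (X i) := by
    have h2 : ∀ i, ∃ N : ℕ, ∃ b : B, algebraMap B (Localization.Away f) b =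
        algebraMap B (Localization.Away f) f ^ N * φ (X i) := by
      intro i
      obtain ⟨N, b, hb⟩ := IsLocalization.Away.surj f (φ (X i))
      exact ⟨N, b, by rw [← hb, mul_comm]⟩
    choose N b hb using h2
    refine ⟨∑ i, N i, fun i => ?_⟩
    have h3 : N i ≤ ∑ i, N i := Finset.single_le_sum (fun _ _ => Nat.zero_le _) (Finset.mem_univ i)
    refine ⟨f ^ (∑ i, N i - N i) * b i, ?_⟩
    rw [map_mul, hb, map_pow, ← mul_assoc, ← pow_add, Nat.sub_add_cancel h3]
  obtain ⟨N, hN⟩ := hden
  have hN' : ∀ i, ∃ b : B, algebraMap B (Localization.Away f) b =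
      (algebraMap B (Localization.Away f) f ^ N) ^ p * φ (X i) := by
    intro i
    obtain ⟨b, hb⟩ := hN i
    refine ⟨f ^ (N * (p - 1)) * b, ?_⟩
    rw [map_mul, hb, map_pow, ← mul_assoc, ← pow_add, ← pow_mul]
    congr 2
    have := hp.one_lt
    obtain ⟨q, rfl⟩ : ∃ q, p = q + 1 := ⟨p - 1, by omega⟩
    rw [Nat.add_sub_cancel]
    ring
  choose x hx using hN'
  have hft : Algebra.FiniteType k (Localization.Away f) := by
    have _ : Algebra.FiniteType B (Localization.Away f) :=
      IsLocalization.finiteType_of_monoid_fg (Submonoid.powers f) _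
    have _ : Algebra.FiniteType k B := inferInstance
    exact Algebra.FiniteType.trans (S := B) inferInstance inferInstance
  have hu : IsUnit (algebraMap B (Localization.Away f) f ^ N) :=
    (IsLocalization.Away.algebraMap_isUnit f).pow N
  refine ⟨f, m, x, hfP, ?_⟩
  have h3 := etale_scale (k := k) hp hpk _ hφ hft _ hu
  have h4 : (fun i => algebraMap B (Localization.Away f) (x i)) =
      fun i => (algebraMap B (Localization.Away f) f ^ N) ^ p * φ (X i) := funext hx
  rw [h4]
  exact h3

/-- The trivial centre of a smooth algebra. -/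
theorem centre_trivial {p : ℕ} (hp : p.Prime) (hpk : (p : k) = 0) {B : Type u} [CommRing B]
    [Algebra k B] (hsm : Algebra.Smooth k B) :
    RegularWeightedCentre k (fun d => if d = 0 then (⊤ : Ideal B) else ⊥) := by
  refine ⟨by simp, ?_, ?_, ?_⟩
  · intro a b hab
    try dsimp only
    split_ifs with h1 h2
    · exact le_rfl
    · omega
    · exact le_top
    · exact le_rfl
  · intro a b
    try dsimp only
    by_cases ha : a = 0
    · by_cases hb : b = 0
      · rw [if_pos (by omega : a + b = 0)]; exact le_top
      · rw [if_neg hb, Ideal.mul_bot]; exact bot_le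
    · rw [if_neg ha, Ideal.bot_mul]; exact bot_le
  · intro P hP _
    obtain ⟨f, n, x, h1, h2⟩ := exists_etale_coord (k := k) hp hpk hsm P hP
    refine ⟨f, n, x, fun _ => 0, h1, h2, ?_⟩
    intro d
    try dsimp only
    split_ifs with h
    · subst h
      rw [Ideal.map_top, eq_comm, Ideal.eq_top_iff_one]
      exact Ideal.subset_span ⟨0, by simp, by simp⟩
    · rw [Ideal.map_bot, eq_comm, Ideal.span_eq_bot]
      rintro _ ⟨α, hα, -⟩
      simp at hα
      omega

end etale

end Pool.Agent.H208P
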