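import Pool.Agent.H208P.H
import Pool.Agent.H920R2.Fol7
import Pool.Agent.H920R2.Sig10

/-!
Linear operators on affine space: regular weighted centres and nondegenerate leading forms.
-/

set_option autoImplicit false
set_option linter.unusedSectionVars false

open MvPolynomial Pool.Agent.H920R2

universe u v

namespace Pool.Agent.H208P

/-- The operator has a regular weighted centre and a nondegenerate leading form of weight `l`. -/
def HasCentre (k : Type u) {B : Type u} [Field k] [CommRing B] [Algebra k B] (δ : B → B) (l : ℕ) :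
    Prop :=
  ∃ F : ℕ → Ideal B, RegularWeightedCentre k F ∧ (F 1 = ⊥ → ∀ b, δ b = 0) ∧ Nondeg F δ l

section mon

variable {k B : Type u} [Field k] [CommRing B] [Algebra k B] {m : ℕ} (x : Fin m → B)
  (w : Fin m → ℕ)

/-- The filtration by the monomials in global coordinates. -/
def FL (d : ℕ) : Ideal B :=
  Ideal.span {y | ∃ e : Fin m → ℕ, d ≤ ∑ i, e i * w i ∧ y = ∏ i, x i ^ e i}

variable {x w}

lemma filt_FL : Filt (FL x w) where
  zero := by
    rw [Ideal.eq_top_iff_one]
    exact Ideal.subset_span ⟨0, by simp, by simp⟩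
  anti := by
    intro a b hab
    apply Ideal.span_mono
    rintro y ⟨e, h1, h2⟩
    exact ⟨e, hab.trans h1, h2⟩
  mul := by
    intro a b
    unfold FL
    rw [Ideal.span_mul_span']
    apply Ideal.span_mono
    rintro _ ⟨_, ⟨e, h1, rfl⟩, _, ⟨e', h1', rfl⟩, rfl⟩
    refine ⟨fun i => e i + e' i, ?_, ?_⟩
    · simp only [add_mul, Finset.sum_add_distrib]
      omega
    · simp only [pow_add, Finset.prod_mul_distrib]

lemma mem_FL (i : Fin m) : x i ∈ FL x w (w i) := by
  refine Ideal.subset_span ⟨Pi.single i 1, ?_, ?_⟩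
  · rw [Finset.sum_eq_single i]
    · rw [Pi.single_eq_same, one_mul]
    · intro j _ hj
      rw [Pi.single_eq_of_ne hj, zero_mul]
    · intro h; exact absurd (Finset.mem_univ i) h
  · rw [Finset.prod_eq_single i]
    · rw [Pi.single_eq_same, pow_one]
    · intro j _ hj
      rw [Pi.single_eq_of_ne hj, pow_zero]
    · intro h; exact absurd (Finset.mem_univ i) h

theorem centre_FL (hx : ((aeval x : MvPolynomial (Fin m) k →ₐ[k] B) :
    MvPolynomial (Fin m) k →+* B).Etale) : RegularWeightedCentre k (FL x w) := by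
  have hf : Filt (FL x w) := filt_FL
  refine ⟨hf.zero, hf.anti, hf.mul, ?_⟩
  intro P hP _
  refine ⟨1, m, x, w, fun h => hP.ne_top ((Ideal.eq_top_iff_one P).2 h), ?_, ?_⟩
  · have h1 : ((aeval (fun i => algebraMap B (Localization.Away (1 : B)) (x i)) :
        MvPolynomial (Fin m) k →ₐ[k] Localization.Away (1 : B)) :
        MvPolynomial (Fin m) k →+* Localization.Away (1 : B)) =
        (algebraMap B (Localization.Away (1 : B))).comp
          ((aeval x : MvPolynomial (Fin m) k →ₐ[k] B) : MvPolynomial (Fin m) k →+* B) := by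
      apply MvPolynomial.ringHom_ext
      · intro r
        change aeval _ (C r) = algebraMap _ _ (aeval x (C r))
        rw [aeval_C, aeval_C, ← IsScalarTower.algebraMap_apply]
      · intro i
        change aeval _ (X i) = algebraMap _ _ (aeval x (X i))
        rw [aeval_X, aeval_X]
    rw [h1]
    refine RingHom.Etale.stableUnderComposition _ _ hx ?_
    have : Algebra.Etale B (Localization.Away (1 : B)) := Algebra.Etale.of_isLocalizationAway 1
    exact RingHom.etale_algebraMap.2 this
  · intro d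
    unfold FL
    rw [Ideal.map_span]
    congr 1
    ext y
    constructor
    · rintro ⟨_, ⟨e, h1, rfl⟩, rfl⟩
      exact ⟨e, h1, by rw [map_prod]; simp only [map_pow]⟩
    · rintro ⟨e, h1, rfl⟩
      exact ⟨_, ⟨e, h1, rfl⟩, by rw [map_prod]; simp only [map_pow]⟩

include k in
lemma TD.pow_mem'' {δ : B → B} {ε : B} (h : TD k δ ε) {F : ℕ → Ideal B} (hF : Filt F) {l a : ℕ}
    {z : B} (hz : z ∈ F a) (hδz : δ z ∈ F (a + l)) (e : ℕ) : δ (z ^ e) ∈ F (e * a + l) := by
  induction e with
  | zero => rw [pow_zero, h.one]; exact Ideal.zero_mem _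
  | succ e ih =>
    rw [pow_succ, h.mul]
    have h1 := hF.pow_mem hz e
    have e1 : (e + 1) * a = e * a + a := by ring
    exact Ideal.add_mem _ (Ideal.add_mem _ (hF.mul_mem' h1 hδz (by omega))
      (hF.mul_mem' hz ih (by omega))) (Ideal.mul_mem_left _ _ (hF.mul_mem' ih hδz (by omega)))

theorem nondeg_FL {δ : B → B} {ε : B} (hδ : TD k δ ε)
    (hgen : Algebra.adjoin k (Set.range x) = ⊤) {l : ℕ} (h1 : ∀ i, δ (x i) ∈ FL x w (w i + l))
    (h2 : ∀ i, 1 ≤ w i → l ≤ w i ∧ ∃ u ∈ FL x w (w i - l), δ u = x i) :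
    Nondeg (FL x w) δ l := by
  classical
  have hf : Filt (FL x w) := filt_FL
  have hdiv0 : ∀ b, δ b ∈ FL x w l := by
    intro b
    have h1' : b ∈ Algebra.adjoin k (Set.range x) := by rw [hgen]; trivial
    induction h1' using Algebra.adjoin_induction with
    | mem b hb =>
      obtain ⟨i, rfl⟩ := hb
      exact hf.anti _ _ (Nat.le_add_left _ _) (h1 i)
    | algebraMap r => rw [hδ.const]; exact Ideal.zero_mem _
    | add x y _ _ hx hy => rw [hδ.add]; exact Ideal.add_mem _ hx hy
    | mul x y _ _ hx hy =>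
      rw [hδ.mul]
      exact Ideal.add_mem _ (Ideal.add_mem _ (Ideal.mul_mem_left _ _ hy)
        (Ideal.mul_mem_left _ _ hx)) (Ideal.mul_mem_left _ _ (Ideal.mul_mem_left _ _ hy))
  have hdiv : ∀ d, ∀ a ∈ FL x w d, δ a ∈ FL x w (d + l) := by
    intro d a ha
    have key : a ∈ FL x w d ∧ δ a ∈ FL x w (d + l) := by
      unfold FL at ha
      induction ha using Submodule.span_induction with
      | mem z hz =>
        obtain ⟨e, hd, rfl⟩ := hz
        refine ⟨Ideal.subset_span ⟨e, hd, rfl⟩, ?_⟩
        refine hf.anti _ _ (Nat.add_le_add_right hd l) ?_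
        exact hδ.prod_mem hf Finset.univ (fun i => e i * w i) (fun i => x i ^ e i)
          (fun i _ => hf.pow_mem (mem_FL i) _) (fun i _ => hδ.pow_mem'' hf (mem_FL i) (h1 i) _)
      | zero => exact ⟨Ideal.zero_mem _, by rw [hδ.zero]; exact Ideal.zero_mem _⟩
      | add a b _ _ ha hb =>
        exact ⟨Ideal.add_mem _ ha.1 hb.1, by rw [hδ.add]; exact Ideal.add_mem _ ha.2 hb.2⟩
      | smul r a _ ha =>
        refine ⟨Ideal.mul_mem_left _ _ ha.1, ?_⟩
        rw [smul_eq_mul, hδ.mul]
        exact Ideal.add_mem _ (Ideal.add_mem _ (Ideal.mul_mem_left _ _ ha.2)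
          (hf.mul_mem ha.1 (hdiv0 r))) (Ideal.mul_mem_left _ _ (Ideal.mul_mem_left _ _ ha.2))
    exact key.2
  have hpos : ∀ e : Fin m → ℕ, 1 ≤ ∑ i, e i * w i → ∃ i, 1 ≤ e i ∧ 1 ≤ w i := by
    intro e he
    by_contra hcon
    push Not at hcon
    have h4 : ∑ i, e i * w i = 0 := Finset.sum_eq_zero fun i _ => by
      rcases Nat.eq_zero_or_pos (e i) with h | h
      · rw [h, zero_mul]
      · rw [Nat.lt_one_iff.1 (hcon i h), mul_zero]
    omega
  refine ⟨hdiv, ?_, ?_⟩
  · intro P hP hPδ
    unfold FL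
    rw [Ideal.span_le]
    rintro _ ⟨e, he, rfl⟩
    obtain ⟨i, hi1, hi2⟩ := hpos e he
    obtain ⟨-, u, -, hu⟩ := h2 i hi2
    have h3 : x i ∈ P := by rw [← hu]; exact hPδ u
    have h4 : x i ^ e i ∈ P := Ideal.pow_mem_of_mem P h3 _ hi1
    exact Ideal.mem_of_dvd P (Finset.dvd_prod_of_mem (fun i => x i ^ e i) (Finset.mem_univ i)) h4
  · intro d hd a ha
    refine lead_span hf hdiv rfl ?_ ha
    rintro _ ⟨e, hde, rfl⟩
    refine ⟨1, ?_⟩
    rw [pow_one, one_mul]
    rcases Nat.lt_or_ge d (∑ i, e i * w i) with hlt | hge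
    · exact Submodule.mem_sup_left (Ideal.subset_span ⟨e, hlt, rfl⟩)
    have hdeq : d = ∑ i, e i * w i := le_antisymm hde hge
    obtain ⟨i, hi1, hi2⟩ := hpos e (hd.trans hde)
    obtain ⟨hl, u, hu, hux⟩ := h2 i hi2
    refine Submodule.mem_sup_right (Ideal.subset_span ⟨w i - l, u, hu,
      x i ^ (e i - 1) * ∏ i' ∈ Finset.univ.erase i, x i' ^ e i', ?_, ?_⟩)
    · have h3 : ∏ i' ∈ Finset.univ.erase i, x i' ^ e i' ∈
          FL x w (∑ i' ∈ Finset.univ.erase i, e i' * w i') :=
        hf.prod_mem _ _ _ fun i' _ => hf.pow_mem (mem_FL i') _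
      have h4 : x i ^ (e i - 1) ∈ FL x w ((e i - 1) * w i) := hf.pow_mem (mem_FL i) _
      refine hf.mul_mem' h4 h3 ?_
      rw [hdeq, ← Finset.add_sum_erase Finset.univ _ (Finset.mem_univ i)]
      have h5 : e i * w i = (e i - 1) * w i + w i := by
        have h6 : e i = (e i - 1) + 1 := by omega
        conv_lhs => rw [h6]
        ring
      omega
    · rw [hux, ← Finset.mul_prod_erase Finset.univ _ (Finset.mem_univ i)]
      have h6 : x i ^ e i = x i * x i ^ (e i - 1) := by
        rw [← pow_succ', Nat.sub_add_cancel hi1]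
      rw [h6]
      ring

end mon

section lin

variable {k : Type u} [Field k] {n : ℕ}

/-- Linear operators. -/
theorem hasCentre_lin {δ : MvPolynomial (Fin n) k → MvPolynomial (Fin n) k}
    {ε : MvPolynomial (Fin n) k} (hδ : TD k δ ε) (N : Module.End k (Fin n → k))
    (hN : ∀ v, δ (lf v) = lf (N v)) (Fil : ℕ → Submodule k (Fin n → k))
    (hanti : ∀ a, Fil (a + 1) ≤ Fil a) (q : ℕ) (h0 : Fil 0 = ⊤) (hq : Fil q = ⊥) {l : ℕ}
    (hA : ∀ a, ∀ v ∈ Fil a, N v ∈ Fil (a + l)) (hB : ∀ a, 1 ≤ a → ∀ v ∈ Fil a, v ≠ 0 → l ≤ a ∧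
      ∃ u ∈ Fil (a - l), N u = v) (hC : ∀ v, N v ∈ Fil 1) :
    HasCentre k δ l := by
  classical
  have hanti' : ∀ a b, a ≤ b → Fil b ≤ Fil a := by
    intro a b hab
    induction hab with
    | refl => exact le_rfl
    | step _ ih => exact (hanti _).trans ih
  obtain ⟨α, hα, β, w', hβ, hsp⟩ := adapted_basis Fil hanti q h0 hq
  have : Fintype α := Fintype.ofFinite α
  let e : Fin (Fintype.card α) ≃ α := (Fintype.equivFin α).symm
  let x : Fin (Fintype.card α) → MvPolynomial (Fin n) k := fun i => lf (β (e i))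
  let w : Fin (Fintype.card α) → ℕ := fun i => w' (e i)
  have hlin : ∀ a, ∀ v ∈ Fil a, (lf v : MvPolynomial (Fin n) k) ∈ FL x w a := by
    intro a v hv
    rcases Nat.lt_or_ge q a with h | h
    · have h1 := hanti' q a h.le hv
      rw [hq, Submodule.mem_bot] at h1
      rw [h1, map_zero]
      exact Ideal.zero_mem _
    have h1 := hsp a h hv
    clear hv
    induction h1 using Submodule.span_induction with
    | mem z hz =>
      obtain ⟨i, hi, rfl⟩ := hz
      have h2 : x (e.symm i) ∈ FL x w (w (e.symm i)) := mem_FL _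
      have h3 : x (e.symm i) = lf (β i) := by
        change lf (β (e (e.symm i))) = _
        rw [e.apply_symm_apply]
      have h4 : w (e.symm i) = w' i := by
        change w' (e (e.symm i)) = _
        rw [e.apply_symm_apply]
      rw [h3, h4] at h2
      exact filt_FL.anti _ _ hi h2
    | zero => rw [map_zero]; exact Ideal.zero_mem _
    | add a b _ _ ha hb => rw [map_add]; exact Ideal.add_mem _ ha hb
    | smul r a _ ha =>
      rw [map_smul, Algebra.smul_def]
      exact Ideal.mul_mem_left _ _ ha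
  have hE : ∀ v, β.equivFun.symm (Pi.single v 1) = β v := by
    intro v
    rw [Module.Basis.equivFun_symm_apply, Finset.sum_eq_single v]
    · rw [Pi.single_eq_same, one_smul]
    · intro w _ hw
      rw [Pi.single_eq_of_ne hw, zero_smul]
    · intro h
      exact absurd (Finset.mem_univ v) h
  have hxe : ((aeval x : MvPolynomial (Fin (Fintype.card α)) k →ₐ[k] MvPolynomial (Fin n) k) :
      MvPolynomial (Fin (Fintype.card α)) k →+* MvPolynomial (Fin n) k).Etale := by
    refine etale_rename (k := k) e (fun i => (lf (β i) : MvPolynomial (Fin n) k)) ?_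
    have h1 : (aeval (fun i => (lf (β i) : MvPolynomial (Fin n) k)) :
        MvPolynomial α k →ₐ[k] MvPolynomial (Fin n) k) =
        (pme β.equivFun.symm : MvPolynomial α k →ₐ[k] MvPolynomial (Fin n) k) := by
      apply algHom_ext
      intro i
      rw [aeval_X]
      change lf (β i) = pme β.equivFun.symm (X i)
      rw [pme_apply, pm_X]
      congr 1
      exact (hE i).symm
    rw [h1]
    exact RingHom.Etale.of_bijective (pme β.equivFun.symm).bijective
  have hspan : ∀ v : Fin n → k, (lf v : MvPolynomial (Fin n) k) ∈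
      Algebra.adjoin k (Set.range x) := by
    intro v
    have h1 : v ∈ Submodule.span k (Set.range β) := by rw [β.span_eq]; trivial
    induction h1 using Submodule.span_induction with
    | mem z hz =>
      obtain ⟨i, rfl⟩ := hz
      refine Algebra.subset_adjoin ⟨e.symm i, ?_⟩
      change lf (β (e (e.symm i))) = _
      rw [e.apply_symm_apply]
    | zero => rw [map_zero]; exact Subalgebra.zero_mem _
    | add a b _ _ ha hb => rw [map_add]; exact Subalgebra.add_mem _ ha hb
    | smul r a _ ha => rw [map_smul]; exact Subalgebra.smul_mem _ ha r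
  have hgen : Algebra.adjoin k (Set.range x) = ⊤ := by
    rw [eq_top_iff, ← adjoin_lf (k := k) (n := n), Algebra.adjoin_le_iff]
    rintro _ ⟨v, rfl⟩
    exact hspan v
  have hx0 : ∀ i, x i ≠ 0 := by
    intro i h
    have h1 : β (e i) = 0 := lf_injective (by rw [map_zero]; exact h)
    exact β.ne_zero (e i) h1
  refine ⟨FL x w, centre_FL hxe, ?_, nondeg_FL hδ hgen ?_ ?_⟩
  · intro hbot b
    have hw0 : ∀ i, w i = 0 := by
      intro i
      by_contra h
      apply hx0 i
      have h1 : x i ∈ FL x w 1 := filt_FL.anti _ _ (Nat.one_le_iff_ne_zero.2 h) (mem_FL i)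
      rw [hbot] at h1
      exact h1
    have hN0 : ∀ v, N v = 0 := by
      intro v
      by_cases hq0 : 1 ≤ q
      · have h1 := hsp 1 hq0 (hC v)
        have h2 : {x : Fin n → k | ∃ i, 1 ≤ w' i ∧ x = β i} = ∅ := by
          ext z
          simp only [Set.mem_ofPred_eq, Set.mem_empty_iff_false, iff_false]
          rintro ⟨i, hi, -⟩
          have h3 := hw0 (e.symm i)
          change w' (e (e.symm i)) = 0 at h3
          rw [e.apply_symm_apply] at h3
          omega
        rw [h2, Submodule.span_empty] at h1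
        exact h1
      · have hq1 : q = 0 := by omega
        subst hq1
        have h1 := hanti' 0 1 (by omega) (hC v)
        rw [hq] at h1
        exact h1
    have h1 : b ∈ Algebra.adjoin k (Set.range x) := by rw [hgen]; trivial
    induction h1 using Algebra.adjoin_induction with
    | mem b hb =>
      obtain ⟨i, rfl⟩ := hb
      change δ (lf (β (e i))) = 0
      rw [hN, hN0, map_zero]
    | algebraMap r => exact hδ.const r
    | add x y _ _ hx hy => rw [hδ.add, hx, hy, add_zero]
    | mul x y _ _ hx hy => rw [hδ.mul, hx, hy]; ring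
  · intro i
    change δ (lf (β (e i))) ∈ _
    rw [hN]
    exact hlin _ _ (hA _ _ (hβ (e i)).2)
  · intro i hi
    obtain ⟨h1, u, hu, hNu⟩ := hB (w i) hi (β (e i)) (hβ (e i)).2 (β.ne_zero _)
    refine ⟨h1, lf u, hlin _ _ hu, ?_⟩
    rw [hN, hNu]

end lin

end Pool.Agent.H208P
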