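import Pool.Agent.H208P.J

/-!
The factors: curves, linear actions, trivial actions.
-/

set_option autoImplicit false
set_option linter.unusedSectionVars false

open MvPolynomial Pool.Agent.H920R2

universe u v

namespace Pool.Agent.H208P

section ops

variable {k B : Type u} [Field k] [CommRing B] [Algebra k B]

lemma td_aut (σ : B →ₐ[k] B) : TD k (fun b => σ b - b) 1 where
  add x y := by simp only [map_add]; ring
  mul x y := by simp only [map_mul]; ring
  const r := by simp

lemma td_der (D : Derivation k B B) : TD k (fun b => D b) 0 where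
  add x y := map_add D x y
  mul x y := by simp only [Derivation.leibniz, smul_eq_mul]; ring
  const r := by simp

/-- The trivial operator. -/
theorem hasCentre_zero {p : ℕ} (hp : p.Prime) (hpk : (p : k) = 0) (hsm : Algebra.Smooth k B)
    {δ : B → B} (hδ : ∀ b, δ b = 0) (l : ℕ) : HasCentre k δ l := by
  refine ⟨_, centre_trivial (k := k) hp hpk hsm, fun _ => hδ, ?_, ?_, ?_⟩
  · intro d a _
    rw [hδ]
    exact Ideal.zero_mem _
  · intro P _ _
    simp
  · intro d hd a ha
    rw [if_neg (by omega)] at ha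
    have ha0 : a = 0 := ha
    refine ⟨1, ?_⟩
    rw [ha0, pow_one]
    exact Ideal.zero_mem _

end ops

section lin

variable {k : Type u} [Field k] {n : ℕ}

theorem hasCentre_linSub {p : ℕ} (hp : p.Prime) (hpk : (p : k) = 0)
    (M : Matrix (Fin n) (Fin n) k) (hM : M ^ p = 1) :
    HasCentre k (fun b => linSub M b - b) 1 := by
  classical
  let N : Module.End k (Fin n → k) := (M - 1).vecMulLinear
  have hδN : ∀ v, (fun b => linSub M b - b) (lf v : MvPolynomial (Fin n) k) = lf (N v) := by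
    intro v
    change linSub M (lf v) - lf v = _
    rw [linSub_lf', map_add, add_sub_cancel_left]
  have hN : N ^ p = 0 := by
    have hσ : ∀ b, (linE M p hp.pos hM)^[p] b = b := linE_p M p hp.pos hM
    have hδ := del_iter_p (linE M p hp.pos hM) p hp hpk hσ
    refine LinearMap.ext fun w => ?_
    apply lf_injective
    rw [← del_iter_lf M p hp.pos hM, hδ, LinearMap.zero_apply, map_zero]
  refine hasCentre_lin (td_aut (linSub M)) N hδN (fun a => LinearMap.range (N ^ a)) ?_ p ?_ ?_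
    ?_ ?_ ?_
  · intro a
    rintro _ ⟨x, rfl⟩
    exact ⟨N x, by rw [pow_succ, Module.End.mul_apply]⟩
  · change LinearMap.range (N ^ 0) = ⊤
    rw [pow_zero]
    exact LinearMap.range_id
  · rw [hN]
    exact LinearMap.range_zero
  · rintro a _ ⟨x, rfl⟩
    exact ⟨x, by rw [pow_succ', Module.End.mul_apply]⟩
  · rintro a ha _ ⟨x, rfl⟩ _
    refine ⟨ha, (N ^ (a - 1)) x, ⟨x, rfl⟩, ?_⟩
    rw [← Module.End.mul_apply, ← pow_succ', Nat.sub_add_cancel ha]
  · intro v
    exact ⟨v, by rw [pow_one]⟩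

theorem hasCentre_linDer_zero {p : ℕ} (M : Matrix (Fin n) (Fin n) k) (hM : M ^ p = 0) :
    HasCentre k (fun b => linDer M b) 1 := by
  classical
  have hN : NM M ^ p = 0 := by
    refine LinearMap.ext fun w => ?_
    rw [NM_pow, hM, Matrix.vecMulLinear_apply, Matrix.vecMul_zero]
    rfl
  refine hasCentre_lin (td_der (linDer M)) (NM M) (fun v => linDer_lf M v)
    (fun a => LinearMap.range (NM M ^ a)) ?_ p ?_ ?_ ?_ ?_ ?_
  · intro a
    rintro _ ⟨x, rfl⟩
    exact ⟨NM M x, by rw [pow_succ, Module.End.mul_apply]⟩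
  · change LinearMap.range (NM M ^ 0) = ⊤
    rw [pow_zero]
    exact LinearMap.range_id
  · rw [hN]
    exact LinearMap.range_zero
  · rintro a _ ⟨x, rfl⟩
    exact ⟨x, by rw [pow_succ', Module.End.mul_apply]⟩
  · rintro a ha _ ⟨x, rfl⟩ _
    refine ⟨ha, (NM M ^ (a - 1)) x, ⟨x, rfl⟩, ?_⟩
    rw [← Module.End.mul_apply, ← pow_succ', Nat.sub_add_cancel ha]
  · intro v
    exact ⟨v, by rw [pow_one]⟩

theorem hasCentre_linDer_ne {p : ℕ} (hp : p.Prime) (M : Matrix (Fin n) (Fin n) k) {c : k}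
    (hc : c ≠ 0) (hM : M ^ p = c • M) : HasCentre k (fun b => linDer M b) 0 := by
  classical
  have hN : ∀ v, (NM M ^ p) v = c • NM M v := by
    intro v
    rw [NM_pow, hM]
    change _ = c • M.vecMulLinear v
    rw [Matrix.vecMulLinear_apply, Matrix.vecMulLinear_apply, Matrix.vecMul_smul]
  refine hasCentre_lin (td_der (linDer M)) (NM M) (fun v => linDer_lf M v)
    (fun a => if a = 0 then ⊤ else if a = 1 then LinearMap.range (NM M) else ⊥) ?_ 2 ?_ ?_ ?_ ?_ ?_
  · intro a
    rcases a with _ | _ | a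
    · simp
    · simp
    · simp
  · simp
  · simp
  · intro a v hv
    rcases a with _ | _ | a
    · simp
    · simp
    · simp only [Nat.add_zero]
      simp at hv
      subst hv
      simp
  · intro a ha v hv hv0
    rcases a with _ | _ | a
    · omega
    · refine ⟨Nat.zero_le _, ?_⟩
      simp only [zero_add, one_ne_zero, if_false, if_true, Nat.sub_zero] at hv ⊢
      obtain ⟨u, rfl⟩ := hv
      refine ⟨c⁻¹ • (NM M ^ (p - 1)) u, ⟨c⁻¹ • (NM M ^ (p - 2)) u, ?_⟩, ?_⟩
      · rw [map_smul, ← Module.End.mul_apply, ← pow_succ']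
        have := hp.two_le
        congr 3
        omega
      · rw [map_smul, ← Module.End.mul_apply, ← pow_succ', Nat.sub_add_cancel hp.one_lt.le, hN,
          smul_smul, inv_mul_cancel₀ hc, one_smul]
    · simp at hv
      exact absurd hv hv0
  · intro v
    simp

end lin

section curve

variable {k A : Type u} [Field k] [CommRing A] [IsDedekindDomain A] [Algebra k A]

/-- A curve with an operator of wild type. -/
lemma hasCentre_curve_pos [PerfectField k] [Algebra.FiniteType k A] {δ : A → A} {ε : A}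
    (hδ : TD k δ ε) {S : Finset (Ideal A)} {m : Ideal A → ℕ} (hCD : CD δ S m)
    (hpos : ∀ P ∈ S, 1 ≤ m P) : ∃ l, 0 < l ∧ HasCentre k δ l := by
  classical
  let l : ℕ := ∏ P ∈ S, m P
  have hl : 0 < l := Finset.prod_pos hpos
  have hdvd : ∀ P ∈ S, m P ∣ l := fun P hP => Finset.dvd_prod_of_mem m hP
  let w : Ideal A → ℕ := fun P => l / m P
  have hw : ∀ P ∈ S, w P * m P = l := fun P hP => Nat.div_mul_cancel (hdvd P hP)
  have hw1 : ∀ P ∈ S, 1 ≤ w P := fun P hP =>
    Nat.div_pos (Nat.le_of_dvd hl (hdvd P hP)) (hpos P hP)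
  refine ⟨l, hl, FC S w, centre_FC hw1 hCD.max hCD.ne, ?_, nondeg_FC hδ hCD hw1 hw⟩
  intro h
  have h0 : ∏ P ∈ S, P ≠ ⊥ := Finset.prod_ne_zero_iff.2 fun P hP => hCD.ne P hP
  obtain ⟨a, ha, ha0⟩ := Submodule.exists_mem_ne_zero_of_ne_bot h0
  exfalso
  apply ha0
  have h1 : a ∈ FC S w 1 := by
    rw [mem_FC hw1]
    intro P hP
    refine ⟨1, by rw [mul_one]; exact hw1 P hP, ?_⟩
    rw [pow_one]
    exact Ideal.le_of_dvd (Finset.dvd_prod_of_mem (fun P => P) hP) ha
  rw [h] at h1
  exact h1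

/-- A curve with an operator of multiplicative type. -/
lemma hasCentre_curve_zero [PerfectField k] [Algebra.FiniteType k A] {δ : A → A} {ε : A}
    (hδ : TD k δ ε) {S : Finset (Ideal A)} {m : Ideal A → ℕ} (hCD : CD δ S m)
    (hzero : ∀ P ∈ S, m P = 0) : HasCentre k δ 0 := by
  classical
  let w : Ideal A → ℕ := fun _ => 1
  have hw : ∀ P ∈ S, w P * m P = 0 := fun P hP => by rw [hzero P hP, mul_zero]
  have hw1 : ∀ P ∈ S, 1 ≤ w P := fun P hP => le_rfl
  refine ⟨FC S w, centre_FC hw1 hCD.max hCD.ne, ?_, nondeg_FC hδ hCD hw1 hw⟩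
  intro h
  have h0 : ∏ P ∈ S, P ≠ ⊥ := Finset.prod_ne_zero_iff.2 fun P hP => hCD.ne P hP
  obtain ⟨a, ha, ha0⟩ := Submodule.exists_mem_ne_zero_of_ne_bot h0
  exfalso
  apply ha0
  have h1 : a ∈ FC S w 1 := by
    rw [mem_FC hw1]
    intro P hP
    refine ⟨1, Nat.le_mul_of_pos_left _ (hw1 P hP), ?_⟩
    rw [pow_one]
    exact Ideal.le_of_dvd (Finset.dvd_prod_of_mem (fun P => P) hP) ha
  rw [h] at h1
  exact h1

lemma exists_unif' {P : Ideal A} (hP : P.IsMaximal) (hne : P ≠ ⊥) : ∃ t, t ∈ P ∧ t ∉ P ^ 2 := by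
  obtain ⟨t, h1, h2, -⟩ := exists_unif {P} (fun P' h => by
    rw [Finset.mem_singleton] at h; rw [h]; exact ⟨hP.isPrime, hne⟩) P
    (Finset.mem_singleton_self P) 1
  exact ⟨t, h1, h2⟩

/-- **Curves with an automorphism of order `p`.** -/
theorem hasCentre_curve_aut [PerfectField k] (hsm : Algebra.Smooth k A) {p : ℕ} (hp : p.Prime)
    (hpk : (p : k) = 0) (σ : A ≃ₐ[k] A) (hσ : ∀ a, σ^[p] a = a) :
    ∃ l, 0 < l ∧ HasCentre k (fun b => σ b - b) l := by
  have _ : Algebra.FiniteType k A := inferInstance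
  by_cases h0 : ∀ a, σ a - a = 0
  · exact ⟨1, one_pos, hasCentre_zero hp hpk hsm h0 1⟩
  push Not at h0
  have hδ := td_aut (k := k) (σ : A →ₐ[k] A)
  obtain ⟨S, m, hCD⟩ := exists_CD (k := k) hδ h0
  refine hasCentre_curve_pos hδ hCD fun P hP => ?_
  have hPm := hCD.max P hP
  obtain ⟨t, ht, ht'⟩ := exists_unif' (hCD.max P hP) (hCD.ne P hP)
  obtain ⟨f, hf, hft⟩ := exists_den P t ht ht'
  have hdel : ∀ a, del σ a ∈ P := by
    intro a
    have h1 := hCD.dl P hP a
    exact Ideal.pow_le_self (Nat.succ_ne_zero _) h1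
  have h1 := del_wild σ hp hpk hσ P (exists_sep P hPm) hf hft ht ht' hdel
  by_contra hcon
  have h2 : m P = 0 := by omega
  have h3 := hCD.ex P hP t ht ht'
  rw [h2] at h3
  exact h3 (h1 t)

/-- The zeros of a derivation with `D ^ p = 0` have order at least two. -/
lemma der_wild {p : ℕ} (D : Derivation k A A)
    (hD : ∀ a, D^[p] a = 0) (P : Ideal A) [hPm : P.IsMaximal] {t f : A} (hf : f ∉ P)
    (hft : ∀ b ∈ P, t ∣ f * b) (ht : t ∈ P) (ht' : t ∉ P ^ 2) (hdel : ∀ a, D a ∈ P) :
    D t ∈ P ^ 2 := by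
  have hDP2 : ∀ b ∈ P ^ 2, D b ∈ P ^ 2 := by
    intro b hb
    rw [pow_two] at hb ⊢
    refine Submodule.mul_induction_on hb ?_ ?_
    · intro x hx y hy
      rw [Derivation.leibniz, smul_eq_mul, smul_eq_mul]
      exact Ideal.add_mem _ (Ideal.mul_mem_mul hx (hdel y)) (Ideal.mul_mem_mul hy (hdel x))
    · intro x y hx hy
      rw [map_add]
      exact Ideal.add_mem _ hx hy
  obtain ⟨c, hc⟩ := hft _ (hdel t)
  have key : ∀ j : ℕ, f ^ j * D^[j] t - c ^ j * t ∈ P ^ 2 := by
    intro j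
    induction j with
    | zero => simp
    | succ j ih =>
      have hjP : D^[j] t ∈ P := by
        rcases j with _ | j
        · exact ht
        · rw [Function.iterate_succ_apply']; exact hdel _
      have h1 := hDP2 _ ih
      rw [map_sub, Derivation.leibniz, Derivation.leibniz, ← Function.iterate_succ_apply' (f := D),
        smul_eq_mul, smul_eq_mul, smul_eq_mul, smul_eq_mul] at h1
      have h2 : f ^ (j + 1) * D^[j + 1] t - c ^ (j + 1) * t =
          f * (f ^ j * D^[j + 1] t + D^[j] t * D (f ^ j) - (c ^ j * D t + t * D (c ^ j))) -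
            f * (D^[j] t * D (f ^ j)) + f * (t * D (c ^ j)) + c ^ j * (f * D t - t * c) := by ring
      rw [h2, hc, sub_self, mul_zero, add_zero]
      refine Ideal.add_mem _ (Ideal.sub_mem _ (Ideal.mul_mem_left _ _ h1)
        (Ideal.mul_mem_left _ _ ?_)) (Ideal.mul_mem_left _ _ ?_)
      · rw [pow_two]; exact Ideal.mul_mem_mul hjP (hdel _)
      · rw [pow_two]; exact Ideal.mul_mem_mul ht (hdel _)
  have h1 := key p
  rw [hD, mul_zero, zero_sub, neg_mem_iff] at h1
  have h2 : c ∈ P := by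
    by_contra hcon
    have h3 : c ^ p ∉ P := fun h => hcon (hPm.isPrime.mem_of_pow_mem _ h)
    exact ht' ((Ideal.IsMaximal.mul_mem_pow P h1).resolve_left h3)
  have h3 : f * D t ∈ P ^ 2 := by
    rw [hc, pow_two]
    exact Ideal.mul_mem_mul ht h2
  exact (Ideal.IsMaximal.mul_mem_pow P h3).resolve_left hf

/-- **Curves with a vector field with `D ^ p = 0`.** -/
theorem hasCentre_curve_der [PerfectField k] (hsm : Algebra.Smooth k A) {p : ℕ} (hp : p.Prime)
    (hpk : (p : k) = 0) (D : Derivation k A A) (hD : ∀ a, D^[p] a = 0) :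
    ∃ l, 0 < l ∧ HasCentre k (fun b => D b) l := by
  have _ : Algebra.FiniteType k A := inferInstance
  by_cases h0 : ∀ a, D a = 0
  · exact ⟨1, one_pos, hasCentre_zero hp hpk hsm h0 1⟩
  push Not at h0
  have hδ := td_der (k := k) D
  obtain ⟨S, m, hCD⟩ := exists_CD (k := k) hδ h0
  refine hasCentre_curve_pos hδ hCD fun P hP => ?_
  have hPm := hCD.max P hP
  obtain ⟨t, ht, ht'⟩ := exists_unif' (hCD.max P hP) (hCD.ne P hP)
  obtain ⟨f, hf, hft⟩ := exists_den P t ht ht'
  have hdel : ∀ a, D a ∈ P := by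
    intro a
    have h1 := hCD.dl P hP a
    exact Ideal.pow_le_self (Nat.succ_ne_zero _) h1
  have h1 := der_wild D hD P hf hft ht ht' hdel
  by_contra hcon
  have h2 : m P = 0 := by omega
  have h3 := hCD.ex P hP t ht ht'
  rw [h2] at h3
  exact h3 h1

/-- **Curves with a vector field with `D ^ p = c D`, `c ≠ 0`.** -/
theorem hasCentre_curve_der_ne [PerfectField k] (hsm : Algebra.Smooth k A) {p : ℕ} (hp : p.Prime)
    (hpk : (p : k) = 0) (D : Derivation k A A) {c : k} (hc : c ≠ 0)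
    (hD : ∀ a, D^[p] a = c • D a) : HasCentre k (fun b => D b) 0 := by
  have _ : Algebra.FiniteType k A := inferInstance
  by_cases h0 : ∀ a, D a = 0
  · exact hasCentre_zero hp hpk hsm h0 0
  push Not at h0
  have hδ := td_der (k := k) D
  obtain ⟨S, m, hCD⟩ := exists_CD (k := k) hδ h0
  refine hasCentre_curve_zero hδ hCD fun P hP => ?_
  have hPm := hCD.max P hP
  obtain ⟨t, ht, ht'⟩ := exists_unif' (hCD.max P hP) (hCD.ne P hP)
  by_contra hcon
  have hm1 : 1 ≤ m P := Nat.one_le_iff_ne_zero.2 hcon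
  have hiter : ∀ j : ℕ, D^[j + 1] t ∈ P ^ (m P + 1 + j * m P) := by
    intro j
    induction j with
    | zero =>
      rw [zero_mul, add_zero]
      exact hCD.dl P hP t
    | succ j ih =>
      rw [Function.iterate_succ_apply']
      have h1 := hδ.pow_mem P (m P) (hCD.dl P hP) _ _ ih
      have e : m P + 1 + j * m P + m P = m P + 1 + (j + 1) * m P := by ring
      rw [e] at h1
      exact h1
  have h1 := hiter (p - 1)
  rw [Nat.sub_add_cancel hp.one_lt.le, hD] at h1
  have h2 : D t ∈ P ^ (m P + 2) := by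
    have h3 : D t = c⁻¹ • (c • D t) := by rw [smul_smul, inv_mul_cancel₀ hc, one_smul]
    rw [h3, Algebra.smul_def]
    refine Ideal.mul_mem_left _ _ (Ideal.pow_le_pow_right ?_ h1)
    have := hp.two_le
    have h4 : 1 * 1 ≤ (p - 1) * m P := Nat.mul_le_mul (by omega) hm1
    omega
  exact hCD.ex P hP t ht ht' h2

end curve

end Pool.Agent.H208P
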