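import Pool.Agent.H208P.K
import Pool.Agent.H920R2.We3
import Pool.Agent.H920R2.We4
import Pool.Agent.H920R2.Cu10

/-!
Products of operators with nondegenerate leading forms, and the resolution of the quotients.
-/

set_option autoImplicit false
set_option linter.unusedSectionVars false

open MvPolynomial Pool.Agent.H920R2 AlgebraicGeometry CategoryTheory

universe u v

namespace Pool.Agent.H208P

section prod

variable {k : Type u} [Field k] {ι : Type} [Fintype ι] {A : ι → Type u} [∀ i, CommRing (A i)]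
    [∀ i, Algebra k (A i)] {B : Type u} [CommRing B] [Algebra k B]
    {j : ∀ i, A i →ₐ[k] B}

/-- **Products.** -/
theorem hasCentre_prod (hj : IsCoprod k j) (hfB : Algebra.FiniteType k B)
    (hinj : ∀ i, Function.Injective (j i)) {δi : ∀ i, A i → A i} {l : ι → ℕ}
    (hc : ∀ i, HasCentre k (δi i) (l i)) {w : ι → ℕ} (hw : ∀ i, 1 ≤ w i) {L : ℕ}
    (hL : ∀ i, w i * l i = L) {δ : B → B} {ε : B} (hδ : TD k δ ε)
    (hδj : ∀ i a, δ (j i a) = j i (δi i a)) : HasCentre k δ L := by
  classical
  choose F hF hbot hnd using hc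
  have hFf : ∀ i, Filt (F i) := fun i => Filt.of_centre (hF i)
  refine ⟨prodF j F w, centre_prodF hj hfB hF hw, ?_, nondeg_prodF hj hFf hw hnd hL hδ hδj⟩
  intro h b
  have h0 : ∀ i a, δi i a = 0 := by
    intro i
    apply hbot i
    rw [eq_bot_iff]
    intro a ha
    have h1 : j i a ∈ prodF j F w 1 := single_mem_prodF j hFf i ha (by rw [mul_one]; exact hw i)
    rw [h] at h1
    exact hinj i (by rw [map_zero]; exact h1)
  have h1 : b ∈ Algebra.adjoin k (⋃ i, Set.range (j i)) := by rw [coprod_adjoin hj]; trivial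
  induction h1 using Algebra.adjoin_induction with
  | mem x hx =>
    obtain ⟨i, a, rfl⟩ := Set.mem_iUnion.1 hx
    rw [hδj, h0, map_zero]
  | algebraMap r => exact hδ.const r
  | add x y _ _ hx hy => rw [hδ.add, hx, hy, add_zero]
  | mul x y _ _ hx hy => rw [hδ.mul, hx, hy]; ring

lemma exists_weights (l : ι → ℕ) (h : ∀ i, 0 < l i) :
    ∃ (w : ι → ℕ) (L : ℕ), 0 < L ∧ (∀ i, 1 ≤ w i) ∧ ∀ i, w i * l i = L := by
  classical
  refine ⟨fun i => ∏ i' ∈ Finset.univ.erase i, l i', ∏ i, l i, Finset.prod_pos fun i _ => h i,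
    fun i => Finset.prod_pos fun i' _ => h i', fun i => ?_⟩
  exact Finset.prod_erase_mul _ _ (Finset.mem_univ i)

/-- Products, positive weights. -/
theorem hasCentre_prod_pos (hj : IsCoprod k j) (hfB : Algebra.FiniteType k B)
    (hinj : ∀ i, Function.Injective (j i)) {δi : ∀ i, A i → A i}
    (hc : ∀ i, ∃ l, 0 < l ∧ HasCentre k (δi i) l) {δ : B → B} {ε : B} (hδ : TD k δ ε)
    (hδj : ∀ i a, δ (j i a) = j i (δi i a)) : ∃ l, 0 < l ∧ HasCentre k δ l := by
  choose l hl hc using hc
  obtain ⟨w, L, hL0, hw, hL⟩ := exists_weights l hl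
  exact ⟨L, hL0, hasCentre_prod hj hfB hinj hc hw hL hδ hδj⟩

/-- Products, weight zero. -/
theorem hasCentre_prod_zero (hj : IsCoprod k j) (hfB : Algebra.FiniteType k B)
    (hinj : ∀ i, Function.Injective (j i)) {δi : ∀ i, A i → A i}
    (hc : ∀ i, HasCentre k (δi i) 0) {δ : B → B} {ε : B} (hδ : TD k δ ε)
    (hδj : ∀ i a, δ (j i a) = j i (δi i a)) : HasCentre k δ 0 :=
  hasCentre_prod hj hfB hinj hc (w := fun _ => 1) (fun _ => le_rfl) (fun _ => rfl) hδ hδj

end prod

section res

variable {k : Type u} [Field k] {B : Type u} [CommRing B] [IsDomain B] [Algebra k B]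

/-- The quotient by an automorphism. -/
theorem hasResolution_aut {p : ℕ} (hp : p.Prime) (hpk : (p : k) = 0)
    (hsm : Algebra.Smooth k B) (σ : B ≃ₐ[k] B) (hσ : ∀ b, σ^[p] b = b)
    (hc : ∃ l, 0 < l ∧ HasCentre k (fun b => σ b - b) l) :
    HasResolution (X := Spec (CommRingCat.of (fixedAlg σ)))
      (Spec.map (CommRingCat.ofHom (algebraMap k (fixedAlg σ)))) := by
  obtain ⟨l, hl, F, hF, hbot, hnd⟩ := hc
  by_cases hne : F 1 = ⊥
  · have h1 : fixedAlg σ = ⊤ := by
      rw [eq_top_iff]
      intro b _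
      rw [mem_fixedAlg]
      exact sub_eq_zero.1 (hbot hne b)
    rw [h1]
    exact hasResolution_congr (Subalgebra.topEquiv (R := k) (A := B)).symm hasResolution_of_smooth
  · exact hasResolution_centre hp hpk hsm σ hσ hF hne hl hnd.div hnd.fix hnd.lead

/-- The quotient by a vector field. -/
theorem hasResolution_der {p : ℕ} (hp : p.Prime) (hpk : (p : k) = 0)
    (hsm : Algebra.Smooth k B) (D : Derivation k B B) {c : k} (hD : ∀ b, D^[p] b = c • D b)
    {l : ℕ} (hc : HasCentre k (fun b => D b) l) :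
    HasResolution (X := Spec (CommRingCat.of (kerAlg D)))
      (Spec.map (CommRingCat.ofHom (algebraMap k (kerAlg D)))) := by
  obtain ⟨F, hF, hbot, hnd⟩ := hc
  by_cases hne : F 1 = ⊥
  · have h1 : kerAlg D = ⊤ := by
      rw [eq_top_iff]
      intro b _
      exact hbot hne b
    rw [h1]
    exact hasResolution_congr (Subalgebra.topEquiv (R := k) (A := B)).symm hasResolution_of_smooth
  · refine hasResolution_centre_fol hp hpk hsm D (algebraMap B (FractionRing B) (algebraMap k B c))
      ?_ hF hne hnd.div hnd.fix hnd.lead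
    intro b
    rw [hD, Algebra.smul_def, map_mul]

end res

section der

variable {k : Type u} [Field k] {ι : Type} [Fintype ι] {A : ι → Type u} [∀ i, CommRing (A i)]
    [∀ i, Algebra k (A i)] {B : Type u} [CommRing B] [Algebra k B]
    {j : ∀ i, A i →ₐ[k] B}

/-- The iterates of the sum of derivations of the factors. -/
lemma der_iter (hj : IsCoprod k j) {p : ℕ} (hp : p.Prime) (hpk : (p : k) = 0)
    {Di : ∀ i, Derivation k (A i) (A i)} {D : Derivation k B B}
    (hD : ∀ i a, D (j i a) = j i (Di i a)) {c : k} (hDi : ∀ i a, (Di i)^[p] a = c • Di i a)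
    (b : B) : D^[p] b = c • D b := by
  have hn : ∀ (n : ℕ) i a, D^[n] (j i a) = j i ((Di i)^[n] a) := by
    intro n i
    induction n with
    | zero => intro a; rfl
    | succ n ih => intro a; rw [Function.iterate_succ_apply, hD, ih, Function.iterate_succ_apply]
  have hadd : ∀ (n : ℕ) (x y : B), D^[n] (x + y) = D^[n] x + D^[n] y := by
    intro n
    induction n with
    | zero => intro x y; rfl
    | succ n ih =>
      intro x y
      rw [Function.iterate_succ_apply, map_add, ih, Function.iterate_succ_apply,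
        Function.iterate_succ_apply]
  have hconst : ∀ r : k, D^[p] (algebraMap k B r) = 0 := by
    intro r
    obtain ⟨q, rfl⟩ : ∃ q, p = q + 1 := ⟨p - 1, (Nat.sub_add_cancel hp.pos).symm⟩
    rw [Function.iterate_succ_apply, Derivation.map_algebraMap]
    clear hpk hDi hp
    induction q with
    | zero => rfl
    | succ q ih => rw [Function.iterate_succ_apply, map_zero, ih]
  have h1 : b ∈ Algebra.adjoin k (⋃ i, Set.range (j i)) := by rw [coprod_adjoin hj]; trivial
  induction h1 using Algebra.adjoin_induction with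
  | mem x hx =>
    obtain ⟨i, a, rfl⟩ := Set.mem_iUnion.1 hx
    rw [hn, hDi, hD, map_smul]
  | algebraMap r => rw [hconst, Derivation.map_algebraMap, smul_zero]
  | add x y _ _ hx hy => rw [hadd, hx, hy, map_add, smul_add]
  | mul x y _ _ hx hy =>
    rw [iterate_p_mul hp hpk, hx, hy, Derivation.leibniz, smul_eq_mul, smul_eq_mul, smul_add,
      mul_smul_comm, mul_smul_comm]

end der

end Pool.Agent.H208P
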