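import Pool.Agent.H208P.L

/-!
The kinds of factors, and the tensor product.
-/

set_option autoImplicit false
set_option linter.unusedSectionVars false

open MvPolynomial Pool.Agent.H920R2 AlgebraicGeometry CategoryTheory TensorProduct

universe u v

namespace Pool.Agent.H208P

/-- `F` is a regular weighted centre, not the whole variety, and the operator `δ` raises the weights
by `l`, its common zeros lie on the centre, and its leading form of weight `l` has no zeros outside
the vertex of the normal cone. -/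
structure Centred (k : Type u) {A : Type u} [Field k] [CommRing A] [Algebra k A] (δ : A → A)
    (l : ℕ) (F : ℕ → Ideal A) : Prop where
  regular : RegularWeightedCentre k F
  nonzero : F 1 ≠ ⊥
  raises : ∀ d, ∀ a ∈ F d, δ a ∈ F (d + l)
  zeros : ∀ P : Ideal A, P.IsPrime → (∀ a, δ a ∈ P) → F 1 ≤ P
  leading : ∀ d, 1 ≤ d → ∀ a ∈ F d, ∃ N : ℕ, a ^ N ∈ F (N * d + 1) ⊔
    Ideal.span {y | ∃ e, ∃ c ∈ F e, ∃ b ∈ F (N * d - (e + l)), y = b * δ c}

section conv

variable {k A : Type u} [Field k] [CommRing A] [Algebra k A] {δ : A → A}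

lemma Centred.hasCentre {l : ℕ} {F : ℕ → Ideal A} (h : Centred k δ l F) : HasCentre k δ l :=
  ⟨F, h.regular, fun h0 => absurd h0 h.nonzero, h.raises, h.zeros, h.leading⟩

lemma HasCentre.centred {l : ℕ} (h : HasCentre k δ l) (hne : ∃ a, δ a ≠ 0) :
    ∃ F, Centred k δ l F := by
  obtain ⟨F, hF, hbot, hnd⟩ := h
  refine ⟨F, hF, ?_, hnd.div, hnd.fix, hnd.lead⟩
  intro h0
  obtain ⟨a, ha⟩ := hne
  exact ha (hbot h0 a)

/-- Transport along an isomorphism. -/
lemma hasCentre_congr {A' : Type u} [CommRing A'] [Algebra k A'] (e : A ≃ₐ[k] A')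
    (hfA : Algebra.FiniteType k A) {δ' : A' → A'} (hδ' : ∀ a, e (δ a) = δ' (e a)) {ε : A}
    (hδ : TD k δ ε) {l : ℕ} (h : HasCentre k δ' l) : HasCentre k δ l := by
  have hj : IsCoprod k (fun _ : Unit => (e.symm : A' →ₐ[k] A)) := by
    constructor
    · intro S _ _ f
      refine ⟨(f ()).comp (e : A →ₐ[k] A'), fun i a => ?_⟩
      change f () (e (e.symm a)) = f i a
      rw [AlgEquiv.apply_symm_apply]
    · intro S _ _ g g' hg
      apply AlgHom.ext
      intro a
      have h1 := hg () (e a)
      change g (e.symm (e a)) = g' (e.symm (e a)) at h1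
      rwa [AlgEquiv.symm_apply_apply] at h1
  refine hasCentre_prod hj hfA (fun _ => e.symm.injective) (l := fun _ => l) (fun _ => h)
    (w := fun _ => 1) (fun _ => le_rfl) (fun _ => one_mul l) hδ ?_
  intro i a
  apply e.injective
  rw [hδ']
  change δ' (e (e.symm a)) = e (e.symm (δ' a))
  rw [AlgEquiv.apply_symm_apply, AlgEquiv.apply_symm_apply]

end conv

/-- The kinds of automorphisms of the factors: a curve; affine space with a linear automorphism;
the identity; an automorphism with a centre of positive weight. -/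
inductive AutFactor (p : ℕ) {k A : Type u} [Field k] [CommRing A] [Algebra k A]
    (σ : A ≃ₐ[k] A) : Prop
  | curve (h : IsDedekindDomain A)
  | linear (n : ℕ) (M : Matrix (Fin n) (Fin n) k) (hM : M ^ p = 1)
      (e : A ≃ₐ[k] MvPolynomial (Fin n) k) (he : ∀ a, e (σ a) = linSub M (e a))
  | trivial (h : ∀ a, σ a = a)
  | centred (l : ℕ) (hl : 0 < l) (F : ℕ → Ideal A) (h : Centred k (fun a => σ a - a) l F)

/-- The kinds of vector fields on the factors: a curve; affine space with a linear vector field;
the zero vector field; a vector field with a centre of positive weight if `c = 0` and of weight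
zero otherwise. -/
inductive DerFactor (p : ℕ) {k A : Type u} [Field k] [CommRing A] [Algebra k A] (c : k)
    (D : Derivation k A A) : Prop
  | curve (h : IsDedekindDomain A)
  | linear (n : ℕ) (M : Matrix (Fin n) (Fin n) k) (hM : M ^ p = c • M)
      (e : A ≃ₐ[k] MvPolynomial (Fin n) k) (he : ∀ a, e (D a) = linDer M (e a))
  | trivial (h : ∀ a, D a = 0)
  | centred (l : ℕ) (hl : l = 0 ↔ c ≠ 0) (F : ℕ → Ideal A) (h : Centred k (fun a => D a) l F)

section factor

variable {k A : Type u} [Field k] [PerfectField k] [CommRing A] [Algebra k A]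

theorem AutFactor.hasCentre {p : ℕ} (hp : p.Prime) (hpk : (p : k) = 0)
    (hsm : Algebra.Smooth k A) {σ : A ≃ₐ[k] A} (hσ : ∀ a, σ^[p] a = a) (h : AutFactor p σ) :
    ∃ l, 0 < l ∧ HasCentre k (fun a => σ a - a) l := by
  have _ : Algebra.FiniteType k A := inferInstance
  rcases h with h | ⟨n, M, hM, e, he⟩ | h | ⟨l, hl, F, h⟩
  · exact hasCentre_curve_aut hsm hp hpk σ hσ
  · refine ⟨1, one_pos, hasCentre_congr e inferInstance ?_ (td_aut (σ : A →ₐ[k] A))
      (hasCentre_linSub hp hpk M hM)⟩
    intro a
    rw [map_sub]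
    exact congrArg (· - e a) (he a)
  · exact ⟨1, one_pos, hasCentre_zero hp hpk hsm (fun a => sub_eq_zero.2 (h a)) 1⟩
  · exact ⟨l, hl, h.hasCentre⟩

theorem DerFactor.hasCentre_pos {p : ℕ} (hp : p.Prime) (hpk : (p : k) = 0)
    (hsm : Algebra.Smooth k A) {D : Derivation k A A} (hD : ∀ a, D^[p] a = (0 : k) • D a)
    (h : DerFactor p (0 : k) D) : ∃ l, 0 < l ∧ HasCentre k (fun a => D a) l := by
  have _ : Algebra.FiniteType k A := inferInstance
  rcases h with h | ⟨n, M, hM, e, he⟩ | h | ⟨l, hl, F, h⟩
  · exact hasCentre_curve_der hsm hp hpk D fun a => by rw [hD, zero_smul]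
  · exact ⟨1, one_pos, hasCentre_congr e inferInstance he (td_der D)
      (hasCentre_linDer_zero M (by rw [hM, zero_smul]))⟩
  · exact ⟨1, one_pos, hasCentre_zero hp hpk hsm h 1⟩
  · exact ⟨l, Nat.pos_of_ne_zero fun h0 => hl.1 h0 rfl, h.hasCentre⟩

theorem DerFactor.hasCentre_zero {p : ℕ} (hp : p.Prime) (hpk : (p : k) = 0)
    (hsm : Algebra.Smooth k A) {c : k} (hc : c ≠ 0) {D : Derivation k A A}
    (hD : ∀ a, D^[p] a = c • D a) (h : DerFactor p c D) : HasCentre k (fun a => D a) 0 := by
  have _ : Algebra.FiniteType k A := inferInstance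
  rcases h with h | ⟨n, M, hM, e, he⟩ | h | ⟨l, hl, F, h⟩
  · exact hasCentre_curve_der_ne hsm hp hpk D hc hD
  · exact hasCentre_congr e inferInstance he (td_der D) (hasCentre_linDer_ne hp M hc hM)
  · exact Pool.Agent.H208P.hasCentre_zero hp hpk hsm h 0
  · have h0 : l = 0 := hl.2 hc
    subst h0
    exact h.hasCentre

end factor

section tensor

variable {k : Type u} [Field k] {ι : Type} [Fintype ι] {A : ι → Type u} [∀ i, CommRing (A i)]
    [∀ i, Algebra k (A i)] {B : Type u} [CommRing B] [Algebra k B]
    {j : ∀ i, A i →ₐ[k] B}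

/-- The factors of a product embed. -/
lemma coprod_injective (hj : IsCoprod k j) [∀ i, Nontrivial (A i)] (i : ι) :
    Function.Injective (j i) := by
  classical
  obtain ⟨g, hg⟩ := hj.lift _ fun i => PiTensorProduct.singleAlgHom (R := k) (A := A) i
  intro a b hab
  apply single_injective (k := k) (A := A) i
  rw [← hg, ← hg, hab]

/-- The iterates of the product of automorphisms of the factors. -/
lemma aut_iter (hj : IsCoprod k j) {σi : ∀ i, A i ≃ₐ[k] A i} {σ : B ≃ₐ[k] B}
    (hσ : ∀ i a, σ (j i a) = j i (σi i a)) {p : ℕ} (hσi : ∀ i a, (σi i)^[p] a = a) (b : B) :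
    σ^[p] b = b := by
  have h0 : ∀ (n : ℕ) i a, σ^[n] (j i a) = j i ((σi i)^[n] a) := by
    intro n i
    induction n with
    | zero => intro a; rfl
    | succ n ih => intro a; rw [Function.iterate_succ_apply, hσ, ih, Function.iterate_succ_apply]
  have hpow : ∀ (n : ℕ) (x : B), (σ ^ n) x = σ^[n] x := by
    intro n
    induction n with
    | zero => intro x; rfl
    | succ n ih => intro x; rw [pow_succ, Function.iterate_succ_apply, ← ih]; rfl
  have h1 : ((σ ^ p : B ≃ₐ[k] B) : B →ₐ[k] B) = AlgHom.id k B := by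
    apply hj.ext
    intro i a
    change (σ ^ p) (j i a) = j i a
    rw [hpow, h0, hσi]
  rw [← hpow]
  exact congrArg (fun φ : B →ₐ[k] B => φ b) h1

/-- The sum of derivations of the factors. -/
theorem exists_der_coprod (hj : IsCoprod k j) (Di : ∀ i, Derivation k (A i) (A i)) :
    ∃ D : Derivation k B B, ∀ i a, D (j i a) = j i (Di i a) := by
  let f : ∀ i, A i →ₐ[k] TrivSqZeroExt B B := fun i =>
    { toFun := fun a => TrivSqZeroExt.inl (j i a) + TrivSqZeroExt.inr (j i (Di i a))
      map_one' := by
        ext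
        · simp
        · simp
      map_zero' := by
        ext
        · simp
        · simp
      map_add' := by
        intro x y
        ext
        · simp
        · simp
      map_mul' := by
        intro x y
        ext
        · simp
        · simp [mul_comm]
      commutes' := by
        intro r
        ext
        · simp [TrivSqZeroExt.algebraMap_eq_inl']
        · simp [TrivSqZeroExt.algebraMap_eq_inl'] }
  obtain ⟨g, hg⟩ := hj.lift _ f
  have hfst : ∀ b, (g b).fst = b := by
    intro b
    have h1 : (TrivSqZeroExt.fstHom k B B).comp g = AlgHom.id k B := by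
      apply hj.ext
      intro i a
      rw [AlgHom.comp_apply, hg]
      change TrivSqZeroExt.fst (TrivSqZeroExt.inl (j i a) + TrivSqZeroExt.inr (j i (Di i a))) = _
      simp
    exact congrArg (fun φ : B →ₐ[k] B => φ b) h1
  refine ⟨Derivation.mk' { toFun := fun b => (g b).snd, map_add' := ?_, map_smul' := ?_ } ?_, ?_⟩
  · intro x y
    rw [map_add]
    rfl
  · intro r x
    rw [map_smul]
    rfl
  · intro x y
    change (g (x * y)).snd = x • (g y).snd + y • (g x).snd
    rw [map_mul, TrivSqZeroExt.snd_mul, hfst, hfst]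
    simp [mul_comm]
  · intro i a
    change (g (j i a)).snd = _
    rw [hg]
    change TrivSqZeroExt.snd (TrivSqZeroExt.inl (j i a) + TrivSqZeroExt.inr (j i (Di i a))) = _
    simp

end tensor

/-- The product is integral. -/
lemma coprod_domain {k : Type u} [Field k] {n : ℕ} {A : Fin n → Type u} [∀ i, CommRing (A i)]
    [∀ i, IsDomain (A i)] [∀ i, Algebra k (A i)] [∀ i, Algebra.FiniteType k (A i)] {B : Type u}
    [CommRing B] [Algebra k B] {j : ∀ i, A i →ₐ[k] B} (hj : IsCoprod k j)
    (hdom : IsAlgClosed k ∨ IsDomain B) : IsDomain B := by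
  rcases hdom with h | h
  · obtain ⟨B', _, _, j', _, hj'⟩ := exists_coprod_domain (k := k) n A
    exact isDomain_of_coprod hj hj'
  · exact h

end Pool.Agent.H208P
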