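import Pool.Agent.H208P.Z
import Pool.Agent.W559.Et.Stm6

/-!
Open affine subsets of a variety given by subalgebras of its function field.
-/

set_option autoImplicit false
set_option linter.unusedSectionVars false

open MvPolynomial Pool.Agent.H920R2 Pool.Agent.W559.Et

universe u v

namespace Pool.Agent.H208P

section awy

variable {k L : Type u} [Field k] [Field L] [Algebra k L]

/-- The coordinate ring of the complement of the zeros of `r`. -/
def awy (A : Subalgebra k L) (r : L) (hr : r ∈ A) : Subalgebra k L where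
  carrier := {x | ∃ n : ℕ, r ^ n * x ∈ A}
  mul_mem' := by
    rintro x y ⟨n, hn⟩ ⟨m, hm⟩
    refine ⟨n + m, ?_⟩
    have e : r ^ (n + m) * (x * y) = (r ^ n * x) * (r ^ m * y) := by ring
    rw [e]
    exact A.mul_mem hn hm
  add_mem' := by
    rintro x y ⟨n, hn⟩ ⟨m, hm⟩
    refine ⟨n + m, ?_⟩
    have e : r ^ (n + m) * (x + y) = r ^ m * (r ^ n * x) + r ^ n * (r ^ m * y) := by ring
    rw [e]
    exact A.add_mem (A.mul_mem (A.pow_mem hr m) hn) (A.mul_mem (A.pow_mem hr n) hm)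
  algebraMap_mem' c := ⟨0, by rw [pow_zero, one_mul]; exact A.algebraMap_mem c⟩

variable {A B : Subalgebra k L} {r s : L} {hr : r ∈ A}

lemma mem_awy {x : L} : x ∈ awy A r hr ↔ ∃ n : ℕ, r ^ n * x ∈ A := Iff.rfl

lemma le_awy : A ≤ awy A r hr := fun x hx => ⟨0, by rwa [pow_zero, one_mul]⟩

lemma inv_mem_awy (h0 : r ≠ 0) : r⁻¹ ∈ awy A r hr :=
  ⟨1, by rw [pow_one, mul_inv_cancel₀ h0]; exact A.one_mem⟩

/-- A subalgebra which contains `A` and the inverse of `r`. -/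
lemma awy_le (h0 : r ≠ 0) (hAB : A ≤ B) (hrB : r⁻¹ ∈ B) : awy A r hr ≤ B := by
  rintro x ⟨n, hn⟩
  have e : x = r⁻¹ ^ n * (r ^ n * x) := by
    rw [← mul_assoc, ← mul_pow, inv_mul_cancel₀ h0, one_pow, one_mul]
  rw [e]
  exact B.mul_mem (B.pow_mem hrB n) (hAB hn)

/-- The inverse of a divisor of an invertible element. -/
lemma inv_mem_of_mul {x y : L} (_ : x ≠ 0) (hy : y ∈ B) (h : (x * y)⁻¹ ∈ B) (hy0 : y ≠ 0) :
    x⁻¹ ∈ B := by
  have e : x⁻¹ = (x * y)⁻¹ * y := by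
    rw [mul_inv, mul_assoc, inv_mul_cancel₀ hy0, mul_one]
  rw [e]
  exact B.mul_mem h hy

/-- The algebra structure of a larger subalgebra. -/
def incl (h : A ≤ B) : A →ₐ[k] B := Subalgebra.inclusion h

lemma coe_incl (h : A ≤ B) (a : A) : ((incl h a : B) : L) = a := rfl

/-- The complement of the zeros of `r` is a localization. -/
lemma isLocalization_awy (h0 : r ≠ 0) :
    @IsLocalization.Away A _ ⟨r, hr⟩ (awy A r hr) _ (incl le_awy).toRingHom.toAlgebra := by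
  let _ : Algebra A (awy A r hr) := (incl (le_awy (A := A) (hr := hr))).toRingHom.toAlgebra
  have hmap : ∀ a : A, ((algebraMap A (awy A r hr) a : awy A r hr) : L) = a := fun a => rfl
  refine ⟨?_, ?_, ?_⟩
  · rintro ⟨_, n, rfl⟩
    rw [isUnit_iff_exists_inv]
    refine ⟨⟨r⁻¹, inv_mem_awy h0⟩ ^ n, ?_⟩
    apply Subtype.ext
    change r ^ n * r⁻¹ ^ n = 1
    rw [← mul_pow, mul_inv_cancel₀ h0, one_pow]
  · rintro ⟨x, n, hn⟩
    refine ⟨(⟨r ^ n * x, hn⟩, ⟨⟨r, hr⟩ ^ n, n, rfl⟩), ?_⟩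
    apply Subtype.ext
    change x * r ^ n = r ^ n * x
    ring
  · intro x y h
    refine ⟨1, ?_⟩
    have h1 : (x : L) = y := congrArg (fun t : awy A r hr => (t : L)) h
    rw [Subtype.ext h1]

lemma etale_awy (h0 : r ≠ 0) : (incl (le_awy (A := A) (hr := hr))).toRingHom.Etale := by
  let _ : Algebra A (awy A r hr) := (incl (le_awy (A := A) (hr := hr))).toRingHom.toAlgebra
  have _ : IsLocalization.Away (⟨r, hr⟩ : A) (awy A r hr) := isLocalization_awy h0
  have h1 : Algebra.Etale A (awy A r hr) := Algebra.Etale.of_isLocalizationAway (⟨r, hr⟩ : A)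
  exact h1

lemma smooth_awy (h0 : r ≠ 0) (hA : Algebra.Smooth k A) : Algebra.Smooth k (awy A r hr) := by
  let _ : Algebra A (awy A r hr) := (incl (le_awy (A := A) (hr := hr))).toRingHom.toAlgebra
  have _ : IsScalarTower k A (awy A r hr) := IsScalarTower.of_algebraMap_eq' rfl
  have _ : Algebra.Etale A (awy A r hr) := etale_awy h0
  exact Algebra.Smooth.comp k A (awy A r hr)

/-- A subalgebra of finite type inside a local ring is defined near the point. -/
lemma exists_le_awy (hA : Algebra.FiniteType k A) {B : Subalgebra k L} {q : Ideal B}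
    (hq : q.IsPrime) (h : A ≤ locR B q hq) : ∃ f : B, f ∉ q ∧ A ≤ awy B f f.2 := by
  classical
  obtain ⟨S, hS⟩ := (Subalgebra.fg_iff_finiteType _).2 hA
  have h1 : ∀ x : S, ∃ f : B, f ∉ q ∧ (f : L) * x ∈ B := by
    rintro ⟨x, hx⟩
    have h2 : x ∈ A := by rw [← hS]; exact Algebra.subset_adjoin hx
    obtain ⟨a, b, hb, hab⟩ := h h2
    refine ⟨b, hb, ?_⟩
    rw [mul_comm, hab]
    exact a.2
  choose f hf hfx using h1
  refine ⟨∏ x, f x, ?_, ?_⟩
  · intro h2
    obtain ⟨x, -, hx⟩ := (Ideal.IsPrime.prod_mem_iff).1 h2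
    exact hf x hx
  · rw [← hS, Algebra.adjoin_le_iff]
    intro x hx
    refine ⟨1, ?_⟩
    rw [pow_one]
    have h3 : ((∏ x, f x : B) : L) = (∏ y ∈ Finset.univ.erase ⟨x, hx⟩, (f y : L)) *
        f ⟨x, hx⟩ := by
      rw [Finset.prod_erase_mul _ _ (Finset.mem_univ _)]
      push_cast
      rfl
    rw [h3, mul_assoc]
    exact B.mul_mem (B.prod_mem fun y _ => (f y).2) (hfx ⟨x, hx⟩)

/-- A unit of the local ring is not in the prime. -/
lemma not_mem_of_unit {B : Subalgebra k L} {q : Ideal B} {hq : q.IsPrime} {b : B} (hb0 : b ≠ 0)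
    (h : (b : L)⁻¹ ∈ locR B q hq) : b ∉ q := by
  intro hb
  obtain ⟨c, d, hd, hcd⟩ := h
  apply hd
  have h1 : d = b * c := by
    apply Subtype.ext
    push_cast
    rw [← hcd, ← mul_assoc, mul_inv_cancel₀ (fun h => hb0 (Subtype.ext h)), one_mul]
  rw [h1]
  exact q.mul_mem_right _ hb

lemma inv_mem_locR {B : Subalgebra k L} {q : Ideal B} {hq : q.IsPrime} {b : B} (hb : b ∉ q) :
    (b : L)⁻¹ ∈ locR B q hq := by
  have hb0 : (b : L) ≠ 0 := by
    intro h
    apply hb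
    have : b = 0 := Subtype.ext h
    rw [this]
    exact q.zero_mem
  exact ⟨1, b, hb, by rw [inv_mul_cancel₀ hb0]; rfl⟩

lemma le_locR {B : Subalgebra k L} {q : Ideal B} {hq : q.IsPrime} : B ≤ locR B q hq :=
  fun x hx => ⟨⟨x, hx⟩, 1, fun h => hq.ne_top ((Ideal.eq_top_iff_one q).2 h), by simp⟩

end awy

section spread

variable {k L : Type u} [Field k] [Field L] [Algebra k L]

lemma coe_iter {B : Subalgebra k L} {σ : L ≃ₐ[k] L} (ρ : B ≃ₐ[k] B)
    (hρ : ∀ b, ((ρ b : B) : L) = σ b) (i : ℕ) (b : B) : ((ρ^[i] b : B) : L) = σ^[i] b := by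
  induction i with
  | zero => rfl
  | succ i ih => rw [Function.iterate_succ_apply', hρ, ih, Function.iterate_succ_apply']

/-- **Two affine neighbourhoods of a fixed point** have a common invariant affine neighbourhood. -/
theorem spread {A B : Subalgebra k L} (hA : Algebra.FiniteType k A) (hB : Algebra.FiniteType k B)
    {q : Ideal B} {hq : q.IsPrime} {q' : Ideal A} {hq' : q'.IsPrime}
    (h : locR B q hq = locR A q' hq') {p : ℕ} (hp : 0 < p) (ρ : B ≃ₐ[k] B)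
    (hρp : ∀ b, ρ^[p] b = b) (hρ : ∀ b, ρ b - b ∈ q) :
    ∃ (f : B) (g : A), f ∉ q ∧ ρ f = f ∧ (f : L) ≠ 0 ∧ (g : L) ≠ 0 ∧
      awy B f f.2 = awy A g g.2 := by
  classical
  have hne : ∀ {b : B}, b ∉ q → (b : L) ≠ 0 := by
    intro b hb h
    apply hb
    have : b = 0 := Subtype.ext h
    rw [this]
    exact q.zero_mem
  have hiter : ∀ (i : ℕ) (b : B), ρ^[i] b - b ∈ q := by
    intro i b
    induction i with
    | zero => rw [Function.iterate_zero, id, sub_self]; exact Ideal.zero_mem _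
    | succ i ih =>
      rw [Function.iterate_succ_apply']
      have e : ρ (ρ^[i] b) - b = (ρ (ρ^[i] b) - ρ^[i] b) + (ρ^[i] b - b) := by ring
      rw [e]
      exact Ideal.add_mem _ (hρ _) ih
  have hnq : ∀ b : B, b ∉ q → H920R2.nrm ρ p b ∉ q := by
    intro b hb hf
    change ∏ i ∈ Finset.range p, ρ^[i] b ∈ q at hf
    obtain ⟨i, -, hi⟩ := (Ideal.IsPrime.prod_mem_iff).1 hf
    apply hb
    have h1 := Ideal.sub_mem _ hi (hiter i b)
    rwa [sub_sub_cancel] at h1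
  have hnd : ∀ b : B, ∃ c : B, H920R2.nrm ρ p b = c * b := by
    intro b
    obtain ⟨m, hm⟩ : ∃ m, p = m + 1 := ⟨p - 1, by omega⟩
    exact ⟨∏ i ∈ Finset.range m, ρ^[i + 1] b, by rw [hm, nrm_succ']⟩
  obtain ⟨f0, hf0, hAf0⟩ := exists_le_awy hA hq (h ▸ le_locR)
  obtain ⟨g0, hg0, hBg0⟩ := exists_le_awy hB hq' (h ▸ le_locR)
  have hg00 : (g0 : L) ≠ 0 := by
    intro h
    apply hg0
    have : g0 = 0 := Subtype.ext h
    rw [this]
    exact q'.zero_mem
  let f1 : B := H920R2.nrm ρ p f0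
  have hf1 : f1 ∉ q := hnq f0 hf0
  obtain ⟨c1, hc1⟩ := hnd f0
  have hf10 : (f1 : L) ≠ 0 := hne hf1
  -- `A` is contained in the complement of the zeros of `f1`
  have hAf1 : A ≤ awy B f1 f1.2 := by
    refine hAf0.trans (awy_le (hne hf0) le_awy ?_)
    have h2 : ((f0 : L) * c1)⁻¹ ∈ awy B f1 f1.2 := by
      have e : (f0 : L) * c1 = f1 := by
        rw [mul_comm]
        exact (congrArg Subtype.val hc1).symm
      rw [e]
      exact inv_mem_awy hf10
    refine inv_mem_of_mul (hne hf0) (le_awy c1.2) h2 ?_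
    intro h3
    apply hf10
    have e : (f1 : L) = c1 * f0 := congrArg Subtype.val hc1
    rw [e, h3, zero_mul]
  obtain ⟨m, hm⟩ := hAf1 g0.2
  let c0 : B := ⟨(f1 : L) ^ m * g0, hm⟩
  have hc0 : c0 ∉ q := by
    have h2 : (c0 : L) ≠ 0 := mul_ne_zero (pow_ne_zero _ hf10) hg00
    refine not_mem_of_unit (hq := hq) (fun h => h2 (congrArg Subtype.val h)) ?_
    have e : (c0 : L)⁻¹ = (f1 : L)⁻¹ ^ m * (g0 : L)⁻¹ := by
      change ((f1 : L) ^ m * g0)⁻¹ = _
      rw [mul_inv, inv_pow]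
    rw [e]
    refine Subalgebra.mul_mem _ (Subalgebra.pow_mem _ (inv_mem_locR hf1) m) ?_
    rw [h]
    exact inv_mem_locR hg0
  let c : B := H920R2.nrm ρ p c0
  have hc : c ∉ q := hnq c0 hc0
  obtain ⟨c2, hc2⟩ := hnd c0
  let f : B := f1 * c
  have hfq : f ∉ q := hq.mul_notMem hf1 hc
  have hf00 : (f : L) ≠ 0 := hne hfq
  have hfρ : ρ f = f := by
    change ρ (f1 * c) = f1 * c
    rw [map_mul]
    congr 1
    · exact map_nrm ρ p hρp f0
    · exact map_nrm ρ p hρp c0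
  -- units of the intersection
  have hif : (f : L)⁻¹ ∈ awy B f f.2 := inv_mem_awy hf00
  have hf : ((f1 : L) * c)⁻¹ ∈ awy B f f.2 := hif
  have hif1 : (f1 : L)⁻¹ ∈ awy B f f.2 := inv_mem_of_mul hf10 (le_awy c.2) hf (hne hc)
  have hic : (c : L)⁻¹ ∈ awy B f f.2 := by
    rw [mul_comm] at hf
    exact inv_mem_of_mul (hne hc) (le_awy f1.2) hf hf10
  have hic0 : (c0 : L)⁻¹ ∈ awy B f f.2 := by
    have e : (c : L) = (c0 : L) * c2 := by
      rw [mul_comm]
      exact congrArg Subtype.val hc2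
    rw [e] at hic
    refine inv_mem_of_mul (hne hc0) (le_awy c2.2) hic ?_
    intro h3
    apply hne hc
    rw [e, h3, mul_zero]
  have hig0 : (g0 : L)⁻¹ ∈ awy B f f.2 := by
    have e : (c0 : L) = g0 * (f1 : L) ^ m := mul_comm _ _
    rw [e] at hic0
    exact inv_mem_of_mul hg00 (Subalgebra.pow_mem _ (le_awy f1.2) m) hic0 (pow_ne_zero _ hf10)
  have hAf : A ≤ awy B f f.2 := hAf1.trans (awy_le hf10 le_awy hif1)
  obtain ⟨n, hn⟩ := hBg0 f.2
  let a : A := ⟨(g0 : L) ^ n * f, hn⟩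
  have ha0 : (a : L) ≠ 0 := mul_ne_zero (pow_ne_zero _ hg00) hf00
  refine ⟨f, g0 * a, hfq, hfρ, hf00, mul_ne_zero hg00 ha0, ?_⟩
  apply le_antisymm
  · have h1 : ((g0 * a : A) : L)⁻¹ ∈ awy A ((g0 * a : A) : L) (g0 * a).2 :=
      inv_mem_awy (mul_ne_zero hg00 ha0)
    have h2 : ((g0 : L) * a)⁻¹ ∈ awy A ((g0 * a : A) : L) (g0 * a).2 := h1
    have h3 : (g0 : L)⁻¹ ∈ awy A ((g0 * a : A) : L) (g0 * a).2 :=
      inv_mem_of_mul hg00 (le_awy a.2) h2 ha0
    have h4 : (a : L)⁻¹ ∈ awy A ((g0 * a : A) : L) (g0 * a).2 := by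
      have h2' : ((a : L) * g0)⁻¹ ∈ awy A ((g0 * a : A) : L) (g0 * a).2 := by
        have e : (a : L) * g0 = g0 * a := mul_comm _ _
        rw [e]
        exact h2
      exact inv_mem_of_mul ha0 (le_awy g0.2) h2' hg00
    refine awy_le hf00 (hBg0.trans (awy_le hg00 le_awy h3)) ?_
    have e : (a : L) = f * (g0 : L) ^ n := mul_comm _ _
    rw [e] at h4
    exact inv_mem_of_mul hf00 (Subalgebra.pow_mem _ (le_awy g0.2) n) h4 (pow_ne_zero _ hg00)
  · refine awy_le (mul_ne_zero hg00 ha0) hAf ?_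
    have e : ((g0 * a : A) : L)⁻¹ = (g0 : L)⁻¹ * ((g0 : L)⁻¹ ^ n * (f : L)⁻¹) := by
      change ((g0 : L) * ((g0 : L) ^ n * f))⁻¹ = _
      rw [mul_inv, mul_inv, inv_pow]
    rw [e]
    exact Subalgebra.mul_mem _ hig0 (Subalgebra.mul_mem _ (Subalgebra.pow_mem _ hig0 n) hif)

end spread

end Pool.Agent.H208P
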