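import Pool.Agent.H208P.N1

/-!
Weighted centres on the charts of a variety: from the neighbourhoods of the fixed points to the
charts; the centres of two charts agree.
-/

set_option autoImplicit false
set_option linter.unusedSectionVars false

open MvPolynomial Pool.Agent.H920R2 Pool.Agent.W559.Et

universe u v

namespace Pool.Agent.H208P

section chart

variable {k L : Type u} [Field k] [Field L] [Algebra k L]

/-- **From the neighbourhoods of the fixed points to a chart.** -/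
theorem hasCentre_chart {p : ℕ} (hp : p.Prime) (hpk : (p : k) = 0) {B : Subalgebra k L}
    (hB : Algebra.Smooth k B) (σ : L ≃ₐ[k] L) (ρ : B ≃ₐ[k] B)
    (hρσ : ∀ b, ((ρ b : B) : L) = σ b) (hρp : ∀ b, ρ^[p] b = b)
    (hloc : ∀ (q : Ideal B) (hq : q.IsPrime), (∀ b, ρ b - b ∈ q) →
      ∃ (A : Subalgebra k L) (q' : Ideal A) (hq' : q'.IsPrime) (τ : A ≃ₐ[k] A),
        Algebra.FiniteType k A ∧ locR B q hq = locR A q' hq' ∧
        (∀ a, ((τ a : A) : L) = σ a) ∧ ∃ l, 0 < l ∧ HasCentre k (fun a => τ a - a) l) :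
    ∃ l, 0 < l ∧ HasCentre k (fun b => ρ b - b) l := by
  classical
  have hfB : Algebra.FiniteType k B := inferInstance
  refine hasCentre_glue hp hpk ρ fun q hq hρq => ?_
  obtain ⟨A, q', hq', τ, hA, hqq, hτ, l, hl, hc⟩ := hloc q hq hρq
  obtain ⟨f, g, hfq, hρf, hf0, hg0, hfg⟩ := spread hA hfB hqq hp.pos ρ hρp hρq
  obtain ⟨τ', hτ'⟩ := exists_aut_away (k := k) hρf
  refine ⟨f, hfq, hρf, τ', hτ', ?_⟩
  have hf0' : f ≠ 0 := fun h => hf0 (congrArg Subtype.val h)
  have _ : IsDomain (Localization.Away f) := IsLocalization.isDomain_localization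
    (powers_le_nonZeroDivisors_of_noZeroDivisors hf0')
  have _ : Algebra.Smooth k (Localization.Away f) := smooth_away f
  have hle : B ≤ awy B f f.2 := le_awy
  let _ : Algebra B (awy B f f.2) := (incl hle).toRingHom.toAlgebra
  have _ : IsScalarTower k B (awy B f f.2) := IsScalarTower.of_algebraMap_eq' rfl
  have _ : IsLocalization.Away f (awy B f f.2) := isLocalization_awy hf0
  let e : awy B f f.2 ≃ₐ[B] Localization.Away f :=
    IsLocalization.algEquiv (Submonoid.powers f) _ _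
  let e' : awy B f f.2 ≃ₐ[k] Localization.Away f := e.restrictScalars k
  have he' : ∀ b : B, e' (incl hle b) = algebraMap B _ b := fun b => e.commutes b
  have hu : IsUnit (algebraMap B (Localization.Away f) f) :=
    IsLocalization.Away.algebraMap_isUnit f
  let φ : A →ₐ[k] Localization.Away f :=
    (e' : awy B f f.2 →ₐ[k] Localization.Away f).comp
      ((incl (le_of_eq hfg.symm)).comp (incl (le_awy (A := A) (r := g) (hr := g.2))))
  have hφ : (φ : A →+* Localization.Away f).Etale := by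
    have h1 : (φ : A →+* Localization.Away f) =
        ((e' : awy B f f.2 ≃+* Localization.Away f) : awy B f f.2 →+* Localization.Away f).comp
        (((incl (le_of_eq hfg.symm)).toRingHom).comp
          (incl (le_awy (A := A) (r := g) (hr := g.2))).toRingHom) := rfl
    rw [h1]
    refine RingHom.Etale.stableUnderComposition _ _
      (RingHom.Etale.stableUnderComposition _ _ (etale_awy hg0)
        (RingHom.Etale.of_bijective ⟨?_, ?_⟩)) (RingHom.Etale.of_bijective e'.bijective)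
    · exact Subalgebra.inclusion_injective _
    · rintro ⟨x, hx⟩
      exact ⟨⟨x, hfg ▸ hx⟩, rfl⟩
  -- the values of `e'`
  have hval : ∀ (x : awy B f f.2) (n : ℕ) (b : B), (f : L) ^ n * x = b →
      algebraMap B (Localization.Away f) f ^ n * e' x = algebraMap B _ b := by
    intro x n b h
    rw [← he', ← he', ← map_pow, ← map_mul]
    congr 1
    exact Subtype.ext h
  refine hasCentre_of_etale hp hpk φ hφ τ' ?_ τ ?_ hl hc
  · have h1 : (τ' ^ p : Localization.Away f ≃ₐ[k] Localization.Away f) = 1 := by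
      have h2 : ∀ (n : ℕ) (b : B), (τ' ^ n) (algebraMap B _ b) = algebraMap B _ (ρ^[n] b) := by
        intro n
        induction n with
        | zero => intro b; rfl
        | succ n ih =>
          intro b
          rw [pow_succ, Function.iterate_succ_apply]
          change (τ' ^ n) (τ' (algebraMap B _ b)) = _
          rw [hτ', ih]
      apply AlgEquiv.ext
      intro y
      obtain ⟨n, b, hb⟩ := IsLocalization.Away.surj f y
      have h3 : (τ' ^ p) (y * algebraMap B _ f ^ n) = y * algebraMap B _ f ^ n := by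
        rw [hb, h2, hρp]
      have h4 : (τ' ^ p) (algebraMap B _ f) = algebraMap B (Localization.Away f) f := by
        rw [h2, hρp]
      rw [map_mul, map_pow, h4] at h3
      exact (hu.pow n).mul_right_cancel h3
    intro y
    have h2 : ∀ (n : ℕ) (y : Localization.Away f), τ'^[n] y = (τ' ^ n) y := by
      intro n
      induction n with
      | zero => intro y; rfl
      | succ n ih => intro y; rw [Function.iterate_succ_apply, ih, pow_succ]; rfl
    rw [h2, h1]
    rfl
  · intro a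
    let x : awy B f f.2 := ⟨a, hfg ▸ le_awy a.2⟩
    let y : awy B f f.2 := ⟨((τ a : A) : L), hfg ▸ le_awy (τ a).2⟩
    change τ' (e' x) = e' y
    obtain ⟨n, hn⟩ := x.2
    have h1 := hval x n ⟨_, hn⟩ rfl
    have h2 := hval y n (ρ ⟨_, hn⟩) (by
      rw [hρσ]
      change (f : L) ^ n * ((τ a : A) : L) = σ ((f : L) ^ n * a)
      rw [map_mul, map_pow, ← hρσ f, hρf, hτ])
    have h3 := congrArg τ' h1
    rw [map_mul, map_pow, hτ', hτ', hρf, ← h2] at h3
    exact (hu.pow n).mul_left_cancel h3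

end chart

section td

variable {k L : Type u} [Field k] [Field L] [Algebra k L] {δ : L → L} {ε : L}

/-- The restriction of an operator to a subalgebra. -/
lemma TD.res (h : TD k δ ε) (D : Subalgebra k L) (hε : ε ∈ D) (hD : ∀ x : D, δ x ∈ D) :
    TD k (fun x : D => (⟨δ x, hD x⟩ : D)) ⟨ε, hε⟩ where
  add x y := Subtype.ext (h.add x y)
  mul x y := Subtype.ext (h.mul x y)
  const r := Subtype.ext (h.const r)

lemma TD.inv (h : TD k δ ε) {r : L} (hr : δ r = 0) : δ r⁻¹ = 0 := by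
  by_cases h0 : r = 0
  · rw [h0, inv_zero]; exact h.zero
  have h1 : δ (r * r⁻¹) = r * δ r⁻¹ := by rw [h.mul, hr]; ring
  rw [mul_inv_cancel₀ h0, h.one] at h1
  exact (mul_eq_zero.1 h1.symm).resolve_left h0

/-- **The centres of two charts agree.** -/
theorem chart_le (hδ : TD k δ ε) {A B : Subalgebra k L} (hA : Algebra.Smooth k A)
    {r : L} (h0 : r ≠ 0) (hrA : r ∈ A) (hrB : r⁻¹ ∈ B)
    (hBA : ∀ x ∈ B, ∃ n : ℕ, r ^ n * x ∈ A) (hAB : ∀ x ∈ A, ∃ n : ℕ, r⁻¹ ^ n * x ∈ B)
    (hδr : δ r = 0) (hεA : ε ∈ A) (hδA : ∀ x : A, δ x ∈ A) (hδB : ∀ x : B, δ x ∈ B)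
    {l : ℕ} (hl : 0 < l) {F : ℕ → Ideal A} (hF : RegularWeightedCentre k F)
    (hnd : Nondeg F (fun x : A => (⟨δ x, hδA x⟩ : A)) l) {F' : ℕ → Ideal B}
    (hF' : RegularWeightedCentre k F') (hnd' : Nondeg F' (fun x : B => (⟨δ x, hδB x⟩ : B)) l)
    (d : ℕ) (f : B) (hf : f ∈ F' d) : ∃ (n : ℕ), ∃ g ∈ F d, (g : L) = r ^ n * f := by
  classical
  let D : Subalgebra k L := awy A r hrA
  have hAD : A ≤ D := le_awy
  have hDB : D = awy B r⁻¹ hrB := by
    apply le_antisymm
    · refine awy_le h0 (fun x hx => ?_) (le_awy hrB)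
      exact hAB x hx
    · refine awy_le (inv_ne_zero h0) (fun x hx => hBA x hx) ?_
      rw [inv_inv]
      exact hAD hrA
  have hDδ : ∀ x : D, δ x ∈ D := by
    rintro ⟨x, n, hn⟩
    refine ⟨n, ?_⟩
    rw [← delta_pow_mul hδ hδr]
    exact hδA ⟨_, hn⟩
  let δD : D → D := fun x => ⟨δ x, hDδ x⟩
  have hδD : TD k δD ⟨ε, hAD hεA⟩ := hδ.res D (hAD hεA) hDδ
  have hsmD : Algebra.Smooth k D := smooth_awy h0 hA
  let φA : A →ₐ[k] D := incl hAD
  have hφA : (φA : A →+* D).Etale := etale_awy h0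
  let φB : B →ₐ[k] D := (incl (le_of_eq hDB.symm)).comp (incl le_awy)
  have hφB : (φB : B →+* D).Etale := by
    have h1 : (φB : B →+* D) = ((incl (le_of_eq hDB.symm)).toRingHom).comp
      (incl (le_awy (A := B) (r := r⁻¹) (hr := hrB))).toRingHom := rfl
    rw [h1]
    refine RingHom.Etale.stableUnderComposition _ _ (etale_awy (inv_ne_zero h0))
      (RingHom.Etale.of_bijective ⟨Subalgebra.inclusion_injective _, ?_⟩)
    rintro ⟨x, hx⟩
    exact ⟨⟨x, hDB ▸ hx⟩, rfl⟩
  have hcA : ∀ a, δD (φA a) = φA ⟨δ a, hδA a⟩ := fun a => rfl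
  have hcB : ∀ a, δD (φB a) = φB ⟨δ a, hδB a⟩ := fun a => rfl
  have hδri : δ r⁻¹ = 0 := hδ.inv hδr
  have hFA := centre_etale φA hφA hF
  have hFB := centre_etale φB hφB hF'
  have hfA : Filt F := Filt.of_centre hF
  have hfB : Filt F' := Filt.of_centre hF'
  have hrD : r⁻¹ ∈ D := inv_mem_awy h0
  have hndA : Nondeg (fun d => (F d).map (φA : A →+* D)) δD l := by
    refine nondeg_etale φA hfA hnd hδD hcA ?_
    rintro ⟨y, n, hn⟩
    have h1 := hnd.div 0 ⟨_, hn⟩ (hfA.mem0 _)
    rw [Nat.zero_add] at h1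
    have h2 := Ideal.mem_map_of_mem (φA : A →+* D) h1
    have h3 : δD ⟨y, n, hn⟩ = (⟨r⁻¹, hrD⟩ : D) ^ n * φA ⟨δ (r ^ n * y), hδA ⟨_, hn⟩⟩ := by
      apply Subtype.ext
      change δ y = r⁻¹ ^ n * δ (r ^ n * y)
      rw [delta_pow_mul hδ hδr, ← mul_assoc, ← mul_pow, inv_mul_cancel₀ h0, one_pow, one_mul]
    rw [h3]
    exact Ideal.mul_mem_left _ _ h2
  have hndB : Nondeg (fun d => (F' d).map (φB : B →+* D)) δD l := by
    refine nondeg_etale φB hfB hnd' hδD hcB ?_
    intro y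
    have hy : (y : L) ∈ awy B r⁻¹ hrB := hDB ▸ y.2
    obtain ⟨n, hn⟩ := hy
    have h1 := hnd'.div 0 ⟨_, hn⟩ (hfB.mem0 _)
    rw [Nat.zero_add] at h1
    have h2 := Ideal.mem_map_of_mem (φB : B →+* D) h1
    have h3 : δD y = (⟨r, hAD hrA⟩ : D) ^ n * φB ⟨δ (r⁻¹ ^ n * y), hδB ⟨_, hn⟩⟩ := by
      apply Subtype.ext
      change δ y = r ^ n * δ (r⁻¹ ^ n * y)
      rw [delta_pow_mul hδ hδri, ← mul_assoc, ← mul_pow, mul_inv_cancel₀ h0, one_pow, one_mul]
    rw [h3]
    exact Ideal.mul_mem_left _ _ h2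
  have hle := le_of_nondeg hδD hl hFB hndB (Filt.of_centre hFA) hndA.div
    (fun N m a hN ha => pow_reg hFA hN ha) d
  have h1 : φB f ∈ (F d).map (φA : A →+* D) :=
    hle (Ideal.mem_map_of_mem (φB : B →+* D) hf)
  obtain ⟨m, hm⟩ := hBA f f.2
  let _ : Algebra A D := (φA : A →+* D).toAlgebra
  have _ : IsLocalization.Away (⟨r, hrA⟩ : A) D := isLocalization_awy h0
  have h2 : algebraMap A D ⟨_, hm⟩ ∈ (F d).map (algebraMap A D) := by
    have h3 : algebraMap A D ⟨_, hm⟩ = (⟨r, hAD hrA⟩ : D) ^ m * φB f := by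
      apply Subtype.ext
      rfl
    rw [h3]
    exact Ideal.mul_mem_left _ _ h1
  obtain ⟨n, hn⟩ := mem_map_away' (f := (⟨r, hrA⟩ : A)) (T := D) h2
  refine ⟨n + m, _, hn, ?_⟩
  change r ^ n * (r ^ m * f) = r ^ (n + m) * f
  ring

end td

end Pool.Agent.H208P
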