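import Pool.Agent.H208P.N2
import Pool.Agent.H519R3.RS.Glob
import Pool.Agent.W605.Et.GenAtlas
import Pool.Agent.W131.ET.Pt

/-!
Smooth projective models of the quotients of projective varieties by automorphisms of order `p`
which have weighted centres near their fixed points.
-/

set_option autoImplicit false
set_option linter.unusedSectionVars false

open AlgebraicGeometry CategoryTheory MvPolynomial Pool.Agent.H920R2 Pool.Agent.W559.Et
  Pool.Agent.H519R3.RS

universe u v

namespace Pool.Agent.H208P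

section res

variable {k L : Type u} [Field k] [Field L] [Algebra k L]

/-- The restriction of an automorphism to a stable subalgebra. -/
def resEquiv (σ : L ≃ₐ[k] L) (B : Subalgebra k L) (h : ∀ x ∈ B, σ x ∈ B)
    (h' : ∀ x ∈ B, σ.symm x ∈ B) : B ≃ₐ[k] B :=
  AlgEquiv.ofAlgHom (((σ : L →ₐ[k] L).comp B.val).codRestrict B fun x => h x x.2)
    (((σ.symm : L →ₐ[k] L).comp B.val).codRestrict B fun x => h' x x.2)
    (by
      apply AlgHom.ext
      intro x
      apply Subtype.ext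
      change σ (σ.symm x) = x
      exact σ.apply_symm_apply _)
    (by
      apply AlgHom.ext
      intro x
      apply Subtype.ext
      change σ.symm (σ x) = x
      exact σ.symm_apply_apply _)

lemma coe_resEquiv (σ : L ≃ₐ[k] L) (B : Subalgebra k L) (h : ∀ x ∈ B, σ x ∈ B)
    (h' : ∀ x ∈ B, σ.symm x ∈ B) (b : B) : ((resEquiv σ B h h' b : B) : L) = σ b := rfl

lemma symm_mem {σ : L ≃ₐ[k] L} {p : ℕ} (hp : 0 < p) (hσ : ∀ x, σ^[p] x = x) {B : Subalgebra k L}
    (h : ∀ x ∈ B, σ x ∈ B) : ∀ x ∈ B, σ.symm x ∈ B := by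
  intro x hx
  obtain ⟨m, rfl⟩ : ∃ m, p = m + 1 := ⟨p - 1, by omega⟩
  have h1 : σ.symm x = σ^[m] x := by
    rw [AlgEquiv.symm_apply_eq, ← Function.iterate_succ_apply' (f := σ), hσ]
  rw [h1]
  clear h1
  induction m with
  | zero => exact hx
  | succ m ih =>
    rw [Function.iterate_succ_apply']
    refine h _ ?_
    clear ih
    have key : ∀ (n : ℕ), σ^[n] x ∈ B := by
      intro n
      induction n with
      | zero => exact hx
      | succ n ih => rw [Function.iterate_succ_apply']; exact h _ ih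
    exact key m

/-- The step of a tower given by an automorphism with a nondegenerate centre. -/
theorem sstep_top {B : Type u} [CommRing B] [Algebra k B] {p : ℕ} {F : ℕ → Ideal B}
    (ρ : B ≃ₐ[k] B) (hρ : ∀ b, ρ^[p] b = b) {l : ℕ} (hl : 0 < l)
    (hnd : Nondeg F (fun b => ρ b - b) l) {C' : Subalgebra k B} (hC' : ∀ b, b ∈ C' ↔ ρ b = b) :
    SStep p F (⊤ : Subalgebra k B) C' := by
  let e : (⊤ : Subalgebra k B) ≃ₐ[k] B := Subalgebra.topEquiv
  let s : (⊤ : Subalgebra k B) ≃ₐ[k] (⊤ : Subalgebra k B) := (e.trans ρ).trans e.symm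
  have hs : ∀ b : (⊤ : Subalgebra k B), ((s b : (⊤ : Subalgebra k B)) : B) = ρ b := fun b => rfl
  have hit : ∀ (n : ℕ) (b : (⊤ : Subalgebra k B)),
      ((s^[n] b : (⊤ : Subalgebra k B)) : B) = ρ^[n] b := by
    intro n
    induction n with
    | zero => intro b; rfl
    | succ n ih => intro b; rw [Function.iterate_succ_apply', hs, ih, Function.iterate_succ_apply']
  refine ⟨s, l, fun b => Subtype.ext ((hit p b).trans (hρ _)), hl, ?_, ?_, ?_, ?_⟩
  · intro d a ha
    exact hnd.div d a ha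
  · intro P hP h a ha
    have h1 := hnd.fix (P.comap e.symm) (hP.comap _) (fun b => h (e.symm b))
    exact h1 ha
  · intro d hd a ha
    obtain ⟨N, hN⟩ := hnd.lead d hd a ha
    refine ⟨N, ?_⟩
    obtain ⟨y, hy, y', hy', hyy⟩ := Submodule.mem_sup.1 hN
    have h1 : a ^ N = e.symm y + e.symm y' := by
      apply Subtype.ext
      exact hyy.symm
    rw [h1]
    refine Ideal.add_mem _ (Submodule.mem_sup_left hy) (Submodule.mem_sup_right ?_)
    clear h1 hyy
    induction hy' using Submodule.span_induction with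
    | mem z hz =>
      obtain ⟨e0, c, hc, b, hb, rfl⟩ := hz
      exact Ideal.subset_span ⟨e0, e.symm c, hc, e.symm b, hb, rfl⟩
    | zero => exact Ideal.zero_mem _
    | add a b _ _ ha hb => exact Ideal.add_mem _ ha hb
    | smul r a _ ha =>
      rw [smul_eq_mul, map_mul]
      exact Ideal.mul_mem_left _ _ ha
  · intro b
    rw [hC']
    constructor
    · intro h
      exact ⟨trivial, Subtype.ext h⟩
    · rintro ⟨h, h'⟩
      exact congrArg Subtype.val h'

/-- The trivial centre. -/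
lemma centre_empty {B : Type u} [CommRing B] [Algebra k B] :
    RegularWeightedCentre k (fun _ : ℕ => (⊤ : Ideal B)) where
  zero := rfl
  anti _ _ _ := le_rfl
  mul _ _ := le_top
  coord P hP h := absurd (top_le_iff.1 h) hP.ne_top

end res

section glob

/-- **Models of quotients.** -/
theorem model_of_local {p : ℕ} (hp : p.Prime) {k L T : Type} [Field k] [Field L] [Algebra k L]
    [Finite T] (hpk : (p : k) = 0) {B : T → Subalgebra k L} {H : T → L}
    (hsm : ∀ t, Algebra.Smooth k (B t)) (σ : L ≃ₐ[k] L) (hσ : ∀ x, σ^[p] x = x)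
    (hst : ∀ t, ∀ x ∈ B t, σ x ∈ B t) (hH : ∀ t, σ (H t) = H t) (H0 : ∀ t, H t ≠ 0)
    (rt : ∀ t t', H t' / H t ∈ B t)
    (gl : ∀ t t', ∀ x ∈ B t', ∃ n : ℕ, (H t' / H t) ^ n * x ∈ B t)
    (cv : ∀ V : ValuationSubring L, (∀ c : k, algebraMap k L c ∈ V) → ∃ t, ∀ x ∈ B t, x ∈ V)
    (fr : ∀ t x, ∃ a ∈ B t, ∃ b ∈ B t, b ≠ 0 ∧ x = a / b)
    (hloc : ∀ t (q : Ideal (B t)) (hq : q.IsPrime),
      (∀ b : B t, (⟨σ b, hst t b b.2⟩ - b : B t) ∈ q) →
      ∃ (A : Subalgebra k L) (q' : Ideal A) (hq' : q'.IsPrime) (τ : A ≃ₐ[k] A),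
        Algebra.FiniteType k A ∧ locR (B t) q hq = locR A q' hq' ∧
        (∀ a, ((τ a : A) : L) = σ a) ∧ ∃ l, 0 < l ∧ HasCentre k (fun a => τ a - a) l)
    (M : IntermediateField k L) (hM : ∀ x, x ∈ M ↔ σ x = x) :
    ∃ (W : T → Set L), (∀ a, ∀ x ∈ M, ∃ y ∈ W a, ∃ y' ∈ W a, y' ≠ 0 ∧ x = y / y') ∧
      ∃ (I : Type) (_ : Finite I) (z : I → L) (J : Set I), ModelG k W M.toSubfield z J := by
  classical
  have _ : Fintype T := Fintype.ofFinite T
  by_cases hid : ∀ x, σ x = x
  · -- the trivial automorphism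
    refine model_of_charts hp hpk (F := fun t (_ : ℕ) => (⊤ : Ideal (B t))) (B := B) (h := H) ?_
      (fun t => ⟨rfl, fun _ _ _ => le_rfl, fun _ _ => le_top⟩) (fun t => ?_) (fun t => ?_) M
      (fun t => (hM _).2 (hH t)) 0 (fun t _ => ⊤) (fun t => rfl) (fun t i hi => by omega)
      (fun t x => ⟨fun _ => (hM _).2 (hid _), fun _ => trivial⟩)
    · refine ⟨H0, rt, ?_, cv, ?_⟩
      · intro a b d f _
        obtain ⟨n, hn⟩ := gl a b f f.2
        exact ⟨n, ⟨_, hn⟩, trivial, rfl⟩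
      · intro a x
        obtain ⟨y, hy, z, hz, hz0, h⟩ := fr a x
        exact ⟨y, hy, z, hz, hz0, h⟩
    · exact top_ne_bot
    · have _ := hsm t
      exact good_of_centre _ centre_empty
  -- the restrictions
  let ρ : ∀ t, B t ≃ₐ[k] B t := fun t => resEquiv σ (B t) (hst t) (symm_mem hp.pos hσ (hst t))
  have hρσ : ∀ t (b : B t), ((ρ t b : B t) : L) = σ b := fun t b => rfl
  have hρp : ∀ t (b : B t), (ρ t)^[p] b = b := by
    intro t b
    apply Subtype.ext
    rw [coe_iter (ρ t) (hρσ t), hσ]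
  have hc0 : ∀ t, ∃ l, 0 < l ∧ HasCentre k (fun b => ρ t b - b) l := fun t =>
    hasCentre_chart hp hpk (hsm t) σ (ρ t) (hρσ t) (hρp t) fun q hq h =>
      hloc t q hq h
  choose l hl hc using hc0
  let N : ℕ := ∏ t, l t
  have hN : 0 < N := Finset.prod_pos fun t _ => hl t
  have hcN : ∀ t, HasCentre k (fun b => ρ t b - b) N := by
    intro t
    have _ := hsm t
    have h1 : (∏ s ∈ Finset.univ.erase t, l s) * l t = N :=
      Finset.prod_erase_mul _ _ (Finset.mem_univ t)
    rw [← h1]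
    refine hasCentre_scale (td_aut ((ρ t : B t ≃ₐ[k] B t) : B t →ₐ[k] B t)) inferInstance (hc t) ?_
    exact Finset.prod_pos fun s _ => hl s
  choose F hR hbot hnd using hcN
  have hF : ∀ t, IsFilt (F t) := fun t => ⟨(hR t).zero, (hR t).anti, (hR t).mul⟩
  have hne : ∀ t, F t 1 ≠ ⊥ := by
    intro t h
    apply hid
    intro x
    obtain ⟨a, ha, b, hb, hb0, rfl⟩ := fr t x
    have h1 : σ a = a := sub_eq_zero.1 (congrArg Subtype.val (hbot t h ⟨a, ha⟩))
    have h2 : σ b = b := sub_eq_zero.1 (congrArg Subtype.val (hbot t h ⟨b, hb⟩))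
    rw [map_div₀, h1, h2]
  have hδ : TD k (fun x : L => σ x - x) 1 := td_aut (σ : L →ₐ[k] L)
  have hδB : ∀ t (x : B t), σ x - x ∈ B t := fun t x => (B t).sub_mem (hst t x x.2) x.2
  have hnd' : ∀ t, Nondeg (F t) (fun x : B t => (⟨σ x - x, hδB t x⟩ : B t)) N := hnd
  have hX : Charts B H F := by
    refine ⟨H0, rt, ?_, cv, ?_⟩
    · intro a b d f hf
      have h0 : H b / H a ≠ 0 := div_ne_zero (H0 b) (H0 a)
      have hinv : (H b / H a)⁻¹ = H a / H b := inv_div _ _
      refine chart_le hδ (hsm a) h0 (rt a b) (by rw [hinv]; exact rt b a) (gl a b)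
        (by rw [hinv]; exact gl b a) ?_ (B a).one_mem (hδB a) (hδB b) hN (hR a) (hnd' a) (hR b)
        (hnd' b) d f hf
      rw [map_div₀, hH, hH, sub_self]
    · intro a x
      obtain ⟨y, hy, z, hz, hz0, h⟩ := fr a x
      exact ⟨y, hy, z, hz, hz0, h⟩
  let C : ∀ t, ℕ → Subalgebra k (B t) := fun t n =>
    if n = 0 then ⊤ else AlgHom.equalizer (ρ t : B t →ₐ[k] B t) (AlgHom.id k (B t))
  have hC1 : ∀ t (b : B t), b ∈ C t 1 ↔ ρ t b = b := by
    intro t b
    change b ∈ (if 1 = 0 then ⊤ else AlgHom.equalizer (ρ t : B t →ₐ[k] B t) (AlgHom.id k (B t)) :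
      Subalgebra k (B t)) ↔ _
    rw [if_neg one_ne_zero]
    rfl
  refine model_of_charts hp hpk hX hF hne (fun t => ?_) M (fun t => (hM _).2 (hH t)) 1 C
    (fun t => if_pos rfl) (fun t i hi => Or.inr ?_) ?_
  · have _ := hsm t
    exact good_of_centre (hF t) (hR t)
  · have hi0 : i = 0 := by omega
    subst hi0
    have h0 : C t 0 = ⊤ := if_pos rfl
    rw [h0]
    exact sstep_top (ρ t) (hρp t) hN (hnd t) (hC1 t)
  · intro t x
    rw [hC1, hM]
    exact ⟨fun h => congrArg Subtype.val h, fun h => Subtype.ext h⟩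

end glob

end Pool.Agent.H208P
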