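import Pool.Agent.H208P.N3

/-!
Quotients of smooth projective varieties.
-/

set_option autoImplicit false
set_option linter.unusedSectionVars false

open AlgebraicGeometry CategoryTheory MvPolynomial Pool.Agent.H920R2 Pool.Agent.W559.Et
  Pool.Agent.H519R3.RS

universe u v

namespace Pool.Agent.H208P

section proj

/-- The local rings of an affine chart at the points fixed by `σ` are fixed by `σ`. -/
lemma fixed_locR {k L : Type u} [Field k] [Field L] [Algebra k L] {B : Subalgebra k L}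
    (σ : L ≃ₐ[k] L) (hst : ∀ x ∈ B, σ x ∈ B) {q : Ideal B} (hq : q.IsPrime)
    (h : ∀ b : B, (⟨σ b, hst b b.2⟩ - b : B) ∈ q) :
    ∀ x ∈ locR B q hq, σ x ∈ locR B q hq ∧ ∀ x' ∈ locR B q hq, (σ x - x) * x' ≠ 1 := by
  have hσq : ∀ b : B, b ∉ q → (⟨σ b, hst b b.2⟩ : B) ∉ q := by
    intro b hb h1
    apply hb
    have h2 := Ideal.sub_mem _ h1 (h b)
    rwa [sub_sub_cancel] at h2
  rintro x ⟨a, b, hb, hab⟩
  have hσ : σ x * σ b = σ a := by rw [← map_mul, hab]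
  refine ⟨⟨⟨σ a, hst a a.2⟩, ⟨σ b, hst b b.2⟩, hσq b hb, hσ⟩, ?_⟩
  rintro x' ⟨c, e, he, hce⟩ h1
  -- `(σ x - x) * (b * σ b)` is in `q`
  have h2 : (⟨σ a, hst a a.2⟩ * b - a * ⟨σ b, hst b b.2⟩ : B) ∈ q := by
    have e1 : (⟨σ a, hst a a.2⟩ * b - a * ⟨σ b, hst b b.2⟩ : B) =
        (⟨σ a, hst a a.2⟩ - a) * b - a * (⟨σ b, hst b b.2⟩ - b) := by ring
    rw [e1]
    exact Ideal.sub_mem _ (Ideal.mul_mem_right _ _ (h a)) (Ideal.mul_mem_left _ _ (h b))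
  have h3 : (⟨σ a, hst a a.2⟩ * b - a * ⟨σ b, hst b b.2⟩ : B) * c =
      b * ⟨σ b, hst b b.2⟩ * e := by
    apply Subtype.ext
    push_cast
    change (σ a * b - a * σ b) * c = b * σ b * e
    rw [← hσ, ← hab, ← hce]
    have e2 : (σ x * σ b * b - x * b * σ b) * (x' * e) =
      ((σ x - x) * x') * (b * σ b * e) := by ring
    rw [e2, h1, one_mul]
  have h4 : (b * ⟨σ b, hst b b.2⟩ * e : B) ∈ q := by
    rw [← h3]
    exact Ideal.mul_mem_right _ _ h2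
  exact hq.mul_notMem (hq.mul_notMem hb (hσq b hb)) he h4

/-- **Smooth projective models of quotients.** -/
theorem model_of_proj {p : ℕ} (hp : p.Prime) {k L : Type} [Field k] [Field L] [Algebra k L]
    (hpk : (p : k) = 0) {l : ℕ} {z : Fin (l + 1) → L} (hz : ∀ i, z i ≠ 0)
    (hsm : ∀ i, Algebra.Smooth k (AZ k z i))
    (hgen : IntermediateField.adjoin k (Set.range fun j => z j / z 0) = ⊤)
    (σ : L ≃ₐ[k] L) (hσ : ∀ x, σ^[p] x = x)
    (hlin : ∀ i, σ (z i) ∈ Submodule.span k (Set.range z))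
    (hloc : ∀ i (q : Ideal (AZ k z i)) (hq : q.IsPrime),
      (∀ x ∈ locR _ q hq, σ x ∈ locR _ q hq ∧ ∀ x' ∈ locR _ q hq, (σ x - x) * x' ≠ 1) →
      ∃ (A : Subalgebra k L) (q' : Ideal A) (hq' : q'.IsPrime) (τ : A ≃ₐ[k] A),
        Algebra.FiniteType k A ∧ locR _ q hq = locR A q' hq' ∧
        (∀ a, ((τ a : A) : L) = σ a) ∧ ∃ l, 0 < l ∧ HasCentre k (fun a => τ a - a) l)
    (M : IntermediateField k L) (hM : ∀ x, x ∈ M ↔ σ x = x) :
    ∃ (T : Type) (W : T → Set L),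
      (∀ a, ∀ x ∈ M, ∃ y ∈ W a, ∃ y' ∈ W a, y' ≠ 0 ∧ x = y / y') ∧
      ∃ (I : Type) (_ : Finite I) (z : I → L) (J : Set I), ModelG k W M.toSubfield z J := by
  have hfix : ∀ x : L, ((((σ : L →ₐ[k] L) ^ 1 : L →ₐ[k] L) x = x) ∧
      (((σ : L →ₐ[k] L) ^ 0 : L →ₐ[k] L) x = x)) ↔ (σ : L →ₐ[k] L) x = x := by
    intro x
    rw [pow_one, pow_zero]
    exact ⟨fun h => h.1, fun h => ⟨h, rfl⟩⟩
  obtain ⟨N', W, -, d, hd, G, hG, hAA, hsmG⟩ := Pool.Agent.W605.Et.genAtlas k L l z hz hsm hgen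
    (σ : L →ₐ[k] L) p hp.pos hσ hlin _ _ 1 0 rfl rfl hfix M.toSubfield hM
  have hst : ∀ t, ∀ x ∈ AF k z d (G t), σ x ∈ AF k z d (G t) := by
    intro t x hx
    have h1 := hAA.g t x hx
    rwa [pow_one] at h1
  obtain ⟨W', h1, h2⟩ := model_of_local hp hpk (B := fun t => AF k z d (G t)) (H := G) hsmG σ hσ hst
    (fun t => (hG t).2.2) hAA.H0 hAA.rt hAA.gl (fun V hV => hAA.cv V hV) hAA.fr (by
      intro t q hq h
      obtain ⟨i, q', hq', e⟩ := Pool.Agent.W131.ET.pt k L l z hz d hd (G t) (hG t).1 (hG t).2.1 q hq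
      have h3 := fixed_locR σ (hst t) hq h
      rw [e] at h3 ⊢
      exact hloc i q' hq' h3) M hM
  exact ⟨_, W', h1, h2⟩

end proj

end Pool.Agent.H208P
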