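import Pool.Agent.H208P.Z
import Pool.Agent.H519R3.RS.Tower
import Pool.Agent.Y177.Dg.Grp

/-!
Vector fields with weighted centres: gluing, étale pullback, a class of vector fields.
-/

set_option autoImplicit false
set_option linter.unusedSectionVars false

open MvPolynomial Pool.Agent.H920R2 Pool.Agent.H519R3.RS TensorProduct

universe u v

namespace Pool.Agent.H208P

section glue

variable {k B : Type u} [Field k] [CommRing B] [Algebra k B]

/-- **Weighted centres of vector fields from local ones.** -/
theorem hasCentre_glue_der [IsDomain B] {p : ℕ} (hp : p.Prime) (hpk : (p : k) = 0)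
    [Algebra.Smooth k B] (D : Derivation k B B)
    (h : ∀ P : Ideal B, P.IsPrime → (∀ b, D b ∈ P) → ∃ f, f ∉ P ∧ D f = 0 ∧
      ∃ E : Derivation k (Localization.Away f) (Localization.Away f),
        (∀ b, E (algebraMap B _ b) = algebraMap B _ (D b)) ∧
        ∃ l, 0 < l ∧ HasCentre k (fun y => E y) l) :
    ∃ l, 0 < l ∧ HasCentre k (fun b => D b) l := by
  classical
  let good : Set B := {f | f ≠ 0 ∧ D f = 0 ∧
      ∃ E : Derivation k (Localization.Away f) (Localization.Away f),
        (∀ b, E (algebraMap B _ b) = algebraMap B _ (D b)) ∧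
        ∃ l, 0 < l ∧ HasCentre k (fun y => E y) l}
  let I : Ideal B := Ideal.span {x | ∃ b, x = D b}
  have htop : I ⊔ Ideal.span good = ⊤ := by
    by_contra hcon
    obtain ⟨M, hM, hle⟩ := Ideal.exists_le_maximal _ hcon
    obtain ⟨f, hf, hf1, hf2⟩ := h M hM.isPrime fun b =>
      hle (Submodule.mem_sup_left (Ideal.subset_span ⟨b, rfl⟩))
    refine hf (hle (Submodule.mem_sup_right (Ideal.subset_span ⟨?_, hf1, hf2⟩)))
    rintro rfl
    exact hf (Ideal.zero_mem _)
  have h1 : (1 : B) ∈ I ⊔ Ideal.span good := by rw [htop]; trivial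
  obtain ⟨a, ha, b, hb, hab⟩ := Submodule.mem_sup.1 h1
  obtain ⟨s, hs, hbs⟩ := Submodule.mem_span_finite_of_mem_span hb
  let e : Fin s.card ≃ s := s.equivFin.symm
  let f : Fin s.card → B := fun i => (e i : B)
  have hfgood : ∀ i, f i ∈ good := fun i => hs (e i).2
  have hcov : ∀ P : Ideal B, P.IsPrime → (∀ c, D c ∈ P) → ∃ i, f i ∉ P := by
    intro P hP hδP
    by_contra hcon
    push Not at hcon
    apply hP.ne_top
    rw [Ideal.eq_top_iff_one, ← hab]
    refine Ideal.add_mem _ ?_ ?_
    · refine (Ideal.span_le.2 ?_ : I ≤ P) ha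
      rintro _ ⟨c, rfl⟩
      exact hδP c
    · refine (Ideal.span_le.2 ?_ : Ideal.span (s : Set B) ≤ P) hbs
      intro x hx
      have h2 := hcon (e.symm ⟨x, hx⟩)
      change ((e (e.symm ⟨x, hx⟩) : s) : B) ∈ P at h2
      rwa [e.apply_symm_apply] at h2
  choose hf0 hfσ τ hτ l hl hc using hfgood
  obtain ⟨w, L, hL0, hw, hL⟩ := exists_weights l hl
  have hsm : ∀ i, Algebra.Smooth k (Localization.Away (f i)) := fun i => smooth_away (f i)
  have hcL : ∀ i, HasCentre k (fun y => τ i y) L := by
    intro i
    have _ := hsm i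
    rw [← hL i]
    exact hasCentre_scale (δ := fun y => τ i y) (td_der (τ i)) inferInstance (hc i) (hw i)
  choose F hR hbot hnd using hcL
  have hloc : ∀ i, Loc k (fun b => D b) L (f i)
      (fun d => (F i d).comap (algebraMap B (Localization.Away (f i)))) := by
    intro i
    exact loc_of_centre (δ := fun b => D b) hp hpk (hf0 i) (hfσ i) (hsm i)
      (td_der (τ i)) (hτ i) (hR i) (hnd i)
  obtain ⟨hR', hnd'⟩ := glue (td_der D) hL0 f hfσ _ hloc hcov
  refine ⟨L, hL0, _, hR', ?_, hnd'⟩
  intro hbot' b
  have h2 := hnd'.div 0 b (by rw [hR'.zero]; trivial)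
  have h3 := hR'.anti 1 (0 + L) (by omega) h2
  rw [hbot'] at h3
  exact h3

/-- **Étale pullback for vector fields.** -/
theorem hasCentre_of_etale_der {A : Type u} [CommRing A] [Algebra k A] (φ : A →ₐ[k] B)
    (hφ : (φ : A →+* B).Etale) (D : Derivation k B B) (E : Derivation k A A)
    (hc : ∀ a, D (φ a) = φ (E a)) {l : ℕ} (hl : 0 < l)
    (h : HasCentre k (fun a => E a) l) : HasCentre k (fun b => D b) l := by
  obtain ⟨F, hR, -, hnd⟩ := h
  have hFf : Filt F := Filt.of_centre hR
  let J : Ideal B := (F l).map (φ : A →+* B)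
  let _ : Algebra A B := (φ : A →+* B).toAlgebra
  have _ : IsScalarTower k A B := IsScalarTower.of_algebraMap_eq fun r => (φ.commutes r).symm
  have hE : Algebra.Etale A B := hφ
  have hAB : ∀ a, algebraMap A B a = φ a := fun a => rfl
  have hJ : ∀ a, D (algebraMap A B a) ∈ J := by
    intro a
    rw [hAB, hc]
    have h1 := hnd.div 0 a (hFf.mem0 a)
    rw [Nat.zero_add] at h1
    exact Ideal.mem_map_of_mem (φ : A →+* B) h1
  -- the derivation modulo `J`
  have key : ∀ y, D y ∈ J := by
    let d : Derivation A B (B ⧸ J) :=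
      Derivation.mk' { toFun := fun y => Ideal.Quotient.mk J (D y)
                       map_add' := fun x y => by rw [map_add, map_add]
                       map_smul' := fun a y => by
                        rw [Algebra.smul_def, Derivation.leibniz, map_add, smul_eq_mul,
                          smul_eq_mul, map_mul, map_mul, Ideal.Quotient.eq_zero_iff_mem.2 (hJ a),
                          mul_zero, add_zero]
                        rfl }
        (fun x y => by
          change Ideal.Quotient.mk J (D (x * y)) = x • Ideal.Quotient.mk J (D y) +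
            y • Ideal.Quotient.mk J (D x)
          rw [Derivation.leibniz, map_add, smul_eq_mul, smul_eq_mul, map_mul, map_mul]
          rfl)
    intro y
    have h1 : d y = d.liftKaehlerDifferential (KaehlerDifferential.D A B y) :=
      (d.liftKaehlerDifferential_comp_D y).symm
    have h2 : Subsingleton (Ω[B⁄A]) := inferInstance
    rw [Subsingleton.elim (KaehlerDifferential.D A B y) 0, map_zero] at h1
    exact Ideal.Quotient.eq_zero_iff_mem.1 h1
  have hR' := centre_etale φ hφ hR
  have hnd' := nondeg_etale φ hFf hnd (td_der D) hc key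
  refine ⟨_, hR', ?_, hnd'⟩
  intro hbot b
  have h2 := hnd'.div 0 b (by rw [hR'.zero]; trivial)
  have h3 := hR'.anti 1 (0 + l) (by omega) h2
  rw [hbot] at h3
  exact h3

end glue

/-- The smallest class of vector fields `D` on affine `k`-schemes `Spec A` which contains
* the vector fields on smooth curves with `D ^ p = 0`,
* the linear vector fields on affine spaces with matrices `M`, `M ^ p = 0`,
* the zero vector fields on smooth affine varieties,
* the vector fields with a centre of positive weight,
and which is closed under products (sums of vector fields on the factors), étale maps and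
gluing. -/
inductive WeightedField (p : ℕ) (k : Type u) [Field k] :
    ∀ (A : Type u) [CommRing A] [Algebra k A], Derivation k A A → Prop
  | curve (A : Type u) [CommRing A] [Algebra k A] [IsDedekindDomain A] [Algebra.Smooth k A]
      (D : Derivation k A A) (hD : ∀ a, D^[p] a = 0) : WeightedField p k A D
  | linear (n : ℕ) (M : Matrix (Fin n) (Fin n) k) (hM : M ^ p = 0) :
      WeightedField p k (MvPolynomial (Fin n) k) (linDer M)
  | zero (A : Type u) [CommRing A] [Algebra k A] [Algebra.Smooth k A] :
      WeightedField p k A 0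
  | centred (A : Type u) [CommRing A] [Algebra k A] (D : Derivation k A A) (l : ℕ) (hl : 0 < l)
      (F : ℕ → Ideal A) (h : Centred k (fun a => D a) l F) : WeightedField p k A D
  | prod (n : ℕ) (A : Fin n → Type u) [∀ i, CommRing (A i)] [∀ i, Algebra k (A i)]
      [∀ i, Nontrivial (A i)] (B : Type u) [CommRing B] [Algebra k B] [Algebra.FiniteType k B]
      (j : ∀ i, A i →ₐ[k] B) (hj : IsCoprod k j) (D : ∀ i, Derivation k (A i) (A i))
      (E : Derivation k B B) (hE : ∀ i a, E (j i a) = j i (D i a))
      (h : ∀ i, WeightedField p k (A i) (D i)) : WeightedField p k B E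
  | etale (A B : Type u) [CommRing A] [Algebra k A] [CommRing B] [Algebra k B]
      (φ : A →ₐ[k] B) (hφ : φ.toRingHom.Etale) (E : Derivation k B B) (D : Derivation k A A)
      (hc : ∀ a, E (φ a) = φ (D a)) (h : WeightedField p k A D) : WeightedField p k B E
  | glue (B : Type u) [CommRing B] [Algebra k B] [IsDomain B] [Algebra.Smooth k B]
      (E : Derivation k B B) (n : ℕ) (f : Fin n → B) (hf : ∀ i, E (f i) = 0)
      (hcov : ∀ P : Ideal B, P.IsPrime → (∀ b, E b ∈ P) → ∃ i, f i ∉ P)
      (D : ∀ i, Derivation k (Localization.Away (f i)) (Localization.Away (f i)))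
      (hD : ∀ i b, D i (algebraMap B _ b) = algebraMap B _ (E b))
      (h : ∀ i, WeightedField p k (Localization.Away (f i)) (D i)) : WeightedField p k B E

theorem WeightedField.hasCentre {p : ℕ} (hp : p.Prime) {k : Type u} [Field k] [PerfectField k]
    (hpk : (p : k) = 0) {A : Type u} [CommRing A] [Algebra k A] {D : Derivation k A A}
    (h : WeightedField p k A D) : ∃ l, 0 < l ∧ HasCentre k (fun a => D a) l := by
  induction h with
  | curve A D hD => exact hasCentre_curve_der inferInstance hp hpk D hD
  | linear n M hM => exact ⟨1, one_pos, hasCentre_linDer_zero M hM⟩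
  | zero A => exact ⟨1, one_pos, hasCentre_zero hp hpk inferInstance (fun a => rfl) 1⟩
  | centred A D l hl F h => exact ⟨l, hl, h.hasCentre⟩
  | prod n A B j hj D E hE h ih =>
    exact hasCentre_prod_pos hj inferInstance (fun i => coprod_injective hj i) ih (td_der E) hE
  | etale A B φ hφ E D hc h ih =>
    obtain ⟨l, hl, h⟩ := ih
    exact ⟨l, hl, hasCentre_of_etale_der φ hφ E D hc hl h⟩
  | glue B E n f hf hcov D hD h ih =>
    refine hasCentre_glue_der hp hpk E fun P hP hEP => ?_
    obtain ⟨i, hi⟩ := hcov P hP hEP
    exact ⟨f i, hi, hf i, D i, hD i, ih i⟩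

end Pool.Agent.H208P
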