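import Pool.Agent.H208P.U
import Pool.Agent.H208P.M
import Pool.Agent.Y177.Dg.TorG
import Pool.Agent.Y177.Dg.LinW
import Pool.Agent.H519R3.RS.Centre

/-!
Finite groups with a normal subgroup of order `p` and abelian tame quotient.
-/

set_option autoImplicit false
set_option linter.unusedSectionVars false

open Pool.Agent.H920R2 Pool.Agent.H519R3.RS Pool.Agent.Y177.Dg AlgebraicGeometry CategoryTheory

universe u v

namespace Pool.Agent.H208P

section stable

variable {k B : Type u} [Field k] [CommRing B] [Algebra k B]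

lemma filt_comap {B' : Type u} [CommRing B'] (g : B →+* B') {F : ℕ → Ideal B'} (hF : Filt F) :
    Filt (fun d => (F d).comap g) where
  zero := by rw [hF.zero, Ideal.comap_top]
  anti a b hab := Ideal.comap_mono (hF.anti a b hab)
  mul a b := by
    rw [Ideal.mul_le]
    intro x hx y hy
    rw [Ideal.mem_comap, map_mul]
    exact hF.mul_mem hx hy

lemma iter_raise {σ : B ≃ₐ[k] B} {F : ℕ → Ideal B} (hF : Filt F) {l : ℕ}
    (hdiv : ∀ d, ∀ a ∈ F d, σ a - a ∈ F (d + l)) (e d : ℕ) {x : B} (hx : x ∈ F d) :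
    σ^[e] x ∈ F d ∧ σ^[e] x - x ∈ F (d + l) := by
  induction e with
  | zero => exact ⟨hx, by rw [Function.iterate_zero, id, sub_self]; exact Ideal.zero_mem _⟩
  | succ e ih =>
    rw [Function.iterate_succ_apply']
    have h1 := hdiv d _ ih.1
    have h2 : σ (σ^[e] x) = (σ (σ^[e] x) - σ^[e] x) + σ^[e] x := by ring
    refine ⟨?_, ?_⟩
    · rw [h2]
      exact Ideal.add_mem _ (hF.anti _ _ (Nat.le_add_right d l) h1) ih.1
    · have h3 : σ (σ^[e] x) - x = (σ (σ^[e] x) - σ^[e] x) + (σ^[e] x - x) := by ring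
      rw [h3]
      exact Ideal.add_mem _ h1 ih.2

/-- **A weighted centre with a nondegenerate leading form is stable under the automorphisms which
normalize.** -/
theorem stable_of_nondeg [IsDomain B] [Algebra.Smooth k B] {σ : B ≃ₐ[k] B} {F : ℕ → Ideal B}
    {l : ℕ} (hl : 0 < l) (hF : RegularWeightedCentre k F) (hnd : Nondeg F (fun b => σ b - b) l)
    (g : B ≃ₐ[k] B) (e : ℕ) (hge : ∀ b, g (σ b) = σ^[e] (g b)) (d : ℕ) :
    ∀ b ∈ F d, g b ∈ F d := by
  have hFf : Filt F := Filt.of_centre hF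
  have key := le_of_nondeg (td_aut (σ : B →ₐ[k] B)) hl hF hnd
    (F' := fun d => (F d).comap (g : B →+* B)) (filt_comap _ hFf) ?_ ?_ d
  · intro b hb
    exact key hb
  · intro d a ha
    change g (σ a - a) ∈ F (d + l)
    rw [map_sub, hge]
    exact (iter_raise hFf hnd.div e d (x := g a) ha).2
  · intro N m a hN ha
    change g (a ^ N) ∈ F (N * m + 1) at ha
    rw [map_pow] at ha
    exact pow_reg hF hN ha

end stable

section group

variable {k : Type u} [Field k] {B : Type u} [CommRing B] [IsDomain B] [Algebra k B] {p : ℕ}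

/-- The centre is stable under the group. -/
theorem group_stable [Algebra.Smooth k B] {G : Type} [Group G] [Finite G]
    (θ : G →* (B ≃ₐ[k] B)) (P : Subgroup G) [P.Normal] {g0 : G} (hg0 : g0 ∈ P)
    (hgen : ∀ h ∈ P, ∃ n : ℕ, h = g0 ^ n) {F : ℕ → Ideal B} {l : ℕ} (hl : 0 < l)
    (hF : RegularWeightedCentre k F) (hnd : Nondeg F (fun b => θ g0 b - b) l)
    (g : G) (d : ℕ) : ∀ x ∈ F d, θ g x ∈ F d := by
  have hpow : ∀ (n : ℕ) b, θ (g0 ^ n) b = (θ g0)^[n] b := by
    intro n
    induction n with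
    | zero => intro b; rw [pow_zero, map_one]; rfl
    | succ n ih =>
      intro b
      rw [pow_succ', map_mul, Function.iterate_succ_apply', ← ih]
      rfl
  obtain ⟨e, he⟩ := hgen (g * g0 * g⁻¹) ((inferInstance : P.Normal).conj_mem g0 hg0 g)
  refine stable_of_nondeg hl hF hnd (θ g) e (fun b => ?_) d
  rw [← hpow, ← he]
  calc θ g (θ g0 b) = θ (g * g0) b := by rw [map_mul]; rfl
    _ = θ (g * g0 * g⁻¹ * g) b := by rw [inv_mul_cancel_right]
    _ = θ (g * g0 * g⁻¹) (θ g b) := by rw [map_mul θ (g * g0 * g⁻¹)]; rfl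

lemma exists_gen (hp : p.Prime) {G : Type} [Group G] [Finite G] (P : Subgroup G)
    (hP : Nat.card P ∣ p) : ∃ g0 ∈ P, g0 ^ p = 1 ∧ ∀ h ∈ P, ∃ n : ℕ, h = g0 ^ n := by
  have hcyc : IsCyclic P := by
    rcases (Nat.dvd_prime hp).1 hP with h1 | h1
    · have : Subsingleton P := (Nat.card_eq_one_iff_unique.1 h1).1
      infer_instance
    · have _ : Fact p.Prime := ⟨hp⟩
      exact isCyclic_of_prime_card h1
  obtain ⟨g0, hg0⟩ := hcyc.exists_generator
  refine ⟨g0, g0.2, ?_, fun h hh => ?_⟩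
  · obtain ⟨n, hn⟩ := hP
    have h1 : g0 ^ Nat.card P = 1 := pow_card_eq_one'
    have h2 : (g0 : G) ^ Nat.card P = 1 := congrArg Subtype.val h1
    rw [hn, pow_mul, h2, one_pow]
  · obtain ⟨n, hn⟩ := mem_powers_iff_mem_zpowers.2 (hg0 ⟨h, hh⟩)
    exact ⟨n, congrArg Subtype.val hn.symm⟩

/-- **Quotients by groups with a normal subgroup of order `p`, whose generator has a weighted
centre, and with abelian tame quotient.** -/
theorem resolution_group (hp : p.Prime) (hpk : (p : k) = 0) [Algebra.Smooth k B]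
    {G : Type} [Group G] [Finite G]
    (θ : G →* (B ≃ₐ[k] B)) (P : Subgroup G) [P.Normal] (hP : Nat.card P ∣ p)
    (hab : ∀ g h : G, g * h * g⁻¹ * h⁻¹ ∈ P)
    [HasEnoughRootsOfUnity k (Monoid.exponent (G ⧸ P))] (hQ : (P.index : k) ≠ 0)
    (hc : ∀ g ∈ P, ∃ l, 0 < l ∧ HasCentre k (fun b => θ g b - b) l) (D : Subalgebra k B)
    (hD : ∀ b, b ∈ D ↔ ∀ g, θ g b = b) :
    IsVariety (X := Spec (CommRingCat.of D))
      (Spec.map (CommRingCat.ofHom (algebraMap k D))) ∧
    HasResolution (X := Spec (CommRingCat.of D))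
      (Spec.map (CommRingCat.ofHom (algebraMap k D))) := by
  have _ : Algebra.FiniteType k B := inferInstance
  obtain ⟨g0, hg0, hg0p, hgen⟩ := exists_gen hp P hP
  have hpow : ∀ (n : ℕ) b, θ (g0 ^ n) b = (θ g0)^[n] b := by
    intro n
    induction n with
    | zero => intro b; rw [pow_zero, map_one]; rfl
    | succ n ih =>
      intro b
      rw [pow_succ', map_mul, Function.iterate_succ_apply', ← ih]
      rfl
  have hσ : ∀ b, (θ g0)^[p] b = b := fun b => by rw [← hpow, hg0p, map_one]; rfl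
  have hfix : fixedAlg (θ g0) = ivP θ P := by
    ext b
    rw [mem_fixedAlg, mem_ivP]
    constructor
    · intro hb h hh
      obtain ⟨n, rfl⟩ := hgen h hh
      rw [hpow]
      exact Function.iterate_fixed hb n
    · intro hb
      exact hb g0 hg0
  by_cases htriv : ∀ b, θ g0 b = b
  · have h2 : ivP θ P = ⊤ := by
      rw [← hfix, eq_top_iff]
      intro b _
      exact mem_fixedAlg.2 (htriv b)
    obtain ⟨h3, h4⟩ := good_top isFilt_triv (good_triv (k := k) (B := B)) (by simp) h2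
    exact concl_ivP θ P hab hQ isFilt_triv h3 h4 (fun _ _ _ _ => trivial) D hD
  · push Not at htriv
    obtain ⟨b0, hb0⟩ := htriv
    obtain ⟨l, hl, F, hR, hbot, hnd⟩ := hc g0 hg0
    have hF : IsFilt F := ⟨hR.zero, hR.anti, hR.mul⟩
    have hne : F 1 ≠ ⊥ := fun h => hb0 (sub_eq_zero.1 (hbot h b0))
    obtain ⟨h1, h2⟩ := good_fixed hp hpk (θ g0) hσ hF (good_of_centre hF hR) hne
      hl hnd.div hnd.fix hnd.lead
    rw [hfix] at h2
    have h1' : Good k (isFilt_restr hF (ivP θ P)) := hfix ▸ h1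
    exact concl_ivP θ P hab hQ hF h1' h2 (group_stable θ P hg0 hgen hl hR hnd) D hD

end group

end Pool.Agent.H208P
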