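import Pool.Agent.H208P.O1
import Pool.Agent.H208P.V

/-!
Quotients by vector fields with weighted centres and by tame abelian groups which normalize them.
-/

set_option autoImplicit false
set_option linter.unusedSectionVars false

open Pool.Agent.H920R2 Pool.Agent.H519R3.RS Pool.Agent.Y177.Dg AlgebraicGeometry CategoryTheory

universe u v

namespace Pool.Agent.H208P

section step

variable {k A B : Type u} [Field k] [CommRing A] [Algebra k A] [CommRing B] [Algebra k B]

/-- Transport of a derivation. -/
def derConj (e : A ≃ₐ[k] B) (D : Derivation k B B) : Derivation k A A :=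
  Derivation.mk' { toFun := fun a => e.symm (D (e a))
                   map_add' := fun x y => by rw [map_add, map_add, map_add]
                   map_smul' := fun r x => by
                    rw [map_smul, D.map_smul, map_smul]
                    rfl }
    (fun x y => by
      change e.symm (D (e (x * y))) = x • e.symm (D (e y)) + y • e.symm (D (e x))
      rw [map_mul, Derivation.leibniz, map_add, smul_eq_mul, smul_eq_mul, map_mul, map_mul,
        e.symm_apply_apply, e.symm_apply_apply]
      rfl)

lemma derConj_apply (e : A ≃ₐ[k] B) (D : Derivation k B B) (a : A) :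
    derConj e D a = e.symm (D (e a)) := rfl

lemma derConj_iter (e : A ≃ₐ[k] B) (D : Derivation k B B) (n : ℕ) (a : A) :
    (derConj e D)^[n] a = e.symm (D^[n] (e a)) := by
  induction n with
  | zero => exact (e.symm_apply_apply a).symm
  | succ n ih =>
    rw [Function.iterate_succ_apply', ih, derConj_apply, e.apply_symm_apply,
      Function.iterate_succ_apply']

/-- The step of a tower given by a vector field with a nondegenerate centre. -/
theorem dstep_top [IsDomain B] {p : ℕ} {F : ℕ → Ideal B} (D : Derivation k B B)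
    (φ : FractionRing B) (hφ : ∀ b, algebraMap B (FractionRing B) (D^[p] b) =
      φ * algebraMap B (FractionRing B) (D b)) {l : ℕ}
    (hnd : Nondeg F (fun b => D b) l) {C' : Subalgebra k B} (hC' : ∀ b, b ∈ C' ↔ D b = 0) :
    DStep p F (⊤ : Subalgebra k B) C' := by
  let e : (⊤ : Subalgebra k B) ≃ₐ[k] B := Subalgebra.topEquiv
  obtain ⟨a, s, hs, hφ'⟩ := IsFractionRing.div_surjective (A := B) φ
  have hs0 : s ≠ 0 := nonZeroDivisors.ne_zero hs
  have hsF : algebraMap B (FractionRing B) s ≠ 0 := fun h =>
    hs0 ((map_eq_zero_iff _ (IsFractionRing.injective B (FractionRing B))).1 h)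
  have h1 : ∀ b, s * D^[p] b = a * D b := by
    intro b
    apply IsFractionRing.injective B (FractionRing B)
    rw [map_mul, map_mul, hφ, ← hφ', ← mul_assoc, mul_div_cancel₀ _ hsF]
  let F' : Type u := FractionRing (⊤ : Subalgebra k B)
  have hs' : algebraMap (⊤ : Subalgebra k B) F' (e.symm s) ≠ 0 := fun h =>
    hs0 ((map_eq_zero_iff e.symm e.symm.injective).1
      ((map_eq_zero_iff _ (IsFractionRing.injective _ F')).1 h))
  refine ⟨derConj e D, algebraMap _ F' (e.symm a) / algebraMap _ F' (e.symm s), l, ?_, ?_, ?_, ?_,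
    ?_⟩
  · intro b
    have h2 : e.symm s * (derConj e D)^[p] b = e.symm a * derConj e D b := by
      rw [derConj_iter, derConj_apply, ← map_mul, ← map_mul, h1]
    have h3 := congrArg (algebraMap _ F') h2
    rw [map_mul, map_mul] at h3
    rw [div_mul_eq_mul_div, eq_div_iff hs', mul_comm]
    exact h3
  · intro d a ha
    exact hnd.div d a ha
  · intro P hP h a ha
    have h1 := hnd.fix (P.comap e.symm) (hP.comap _) (fun b => h (e.symm b))
    exact h1 ha
  · intro d hd a ha
    obtain ⟨N, hN⟩ := hnd.lead d hd a ha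
    refine ⟨N, ?_⟩
    obtain ⟨y, hy, y', hy', hyy⟩ := Submodule.mem_sup.1 hN
    have h1 : a ^ N = e.symm y + e.symm y' := by
      apply Subtype.ext
      exact hyy.symm
    rw [h1]
    refine Ideal.add_mem _ (Submodule.mem_sup_left hy) (Submodule.mem_sup_right ?_)
    clear h1 hyy
    induction hy' using Submodule.span_induction with
    | mem z hz =>
      obtain ⟨e0, c, hc, b, hb, rfl⟩ := hz
      exact Ideal.subset_span ⟨e0, e.symm c, hc, e.symm b, hb, rfl⟩
    | zero => exact Ideal.zero_mem _
    | add a b _ _ ha hb => exact Ideal.add_mem _ ha hb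
    | smul r a _ ha =>
      rw [smul_eq_mul, map_mul]
      exact Ideal.mul_mem_left _ _ ha
  · intro b
    rw [hC']
    constructor
    · intro h
      exact ⟨trivial, Subtype.ext h⟩
    · rintro ⟨h, h'⟩
      exact congrArg Subtype.val h'

end step

section stable

variable {k B : Type u} [Field k] [CommRing B] [Algebra k B]

/-- **The centre of a vector field is stable under the automorphisms which normalize it.** -/
theorem stable_field [IsDomain B] [Algebra.Smooth k B] {D : Derivation k B B} {F : ℕ → Ideal B}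
    {l : ℕ} (hl : 0 < l) (hF : RegularWeightedCentre k F) (hnd : Nondeg F (fun b => D b) l)
    (g : B ≃ₐ[k] B) (u : B) (hg : ∀ b, g (D b) = u * D (g b)) (d : ℕ) :
    ∀ b ∈ F d, g b ∈ F d := by
  have hFf : Filt F := Filt.of_centre hF
  have key := le_of_nondeg (td_der D) hl hF hnd
    (F' := fun d => (F d).comap (g : B →+* B)) (filt_comap _ hFf) ?_ ?_ d
  · intro b hb
    exact key hb
  · intro d a ha
    change g (D a) ∈ F (d + l)
    rw [hg]
    exact Ideal.mul_mem_left _ _ (hnd.div d (g a) ha)
  · intro N m a hN ha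
    change g (a ^ N) ∈ F (N * m + 1) at ha
    rw [map_pow] at ha
    exact pow_reg hF hN ha

variable {G : Type} [CommGroup G] (θ : G →* (B ≃ₐ[k] B)) (C : Subalgebra k B)
  (h : ∀ g, ∀ x ∈ C, θ g x ∈ C)

/-- The action on a stable subalgebra. -/
def actS (g : G) : C ≃ₐ[k] C :=
  AlgEquiv.ofAlgHom
    ((((θ g : B ≃ₐ[k] B) : B →ₐ[k] B).comp C.val).codRestrict C fun x => h g x x.2)
    ((((θ g⁻¹ : B ≃ₐ[k] B) : B →ₐ[k] B).comp C.val).codRestrict C fun x => h g⁻¹ x x.2)
    (AlgHom.ext fun x => by
      apply Subtype.ext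
      change θ g (θ g⁻¹ (x : B)) = x
      rw [← AlgEquiv.mul_apply, ← map_mul, mul_inv_cancel, map_one]
      rfl)
    (AlgHom.ext fun x => by
      apply Subtype.ext
      change θ g⁻¹ (θ g (x : B)) = x
      rw [← AlgEquiv.mul_apply, ← map_mul, inv_mul_cancel, map_one]
      rfl)

/-- The action on a stable subalgebra. -/
def homS : G →* (C ≃ₐ[k] C) where
  toFun := actS θ C h
  map_one' := by
    ext x
    change θ 1 (x : B) = x
    rw [map_one]
    rfl
  map_mul' a b := by
    ext x
    change θ (a * b) (x : B) = θ a (θ b x)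
    rw [map_mul]
    rfl

lemma coe_homS (g : G) (x : C) : ((homS θ C h g x : C) : B) = θ g x := rfl

end stable

section res

variable {k B : Type u} [Field k] [CommRing B] [IsDomain B] [Algebra k B] {p : ℕ}

/-- **Quotients by vector fields and by tame abelian groups which normalize them.** -/
theorem resolution_field (hp : p.Prime) (hpk : (p : k) = 0) [Algebra.Smooth k B]
    (D : Derivation k B B) (φ : FractionRing B)
    (hφ : ∀ b, algebraMap B (FractionRing B) (D^[p] b) = φ * algebraMap B (FractionRing B) (D b))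
    (hc : ∃ l, 0 < l ∧ HasCentre k (fun b => D b) l)
    {G : Type} [CommGroup G] [Finite G] (θ : G →* (B ≃ₐ[k] B)) (hG : (Nat.card G : k) ≠ 0)
    [HasEnoughRootsOfUnity k (Monoid.exponent G)]
    (hn : ∀ g, ∃ u : B, ∀ b, θ g (D b) = u * D (θ g b)) (C : Subalgebra k B)
    (hC : ∀ b, b ∈ C ↔ D b = 0 ∧ ∀ g, θ g b = b) :
    IsVariety (X := Spec (CommRingCat.of C))
      (Spec.map (CommRingCat.ofHom (algebraMap k C))) ∧
    HasResolution (X := Spec (CommRingCat.of C))
      (Spec.map (CommRingCat.ofHom (algebraMap k C))) := by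
  have hk : ∀ b, b ∈ kerAlg D ↔ D b = 0 := fun b => Iff.rfl
  have hker : ∀ g, ∀ x ∈ kerAlg D, θ g x ∈ kerAlg D := by
    intro g x hx
    rw [hk] at hx ⊢
    by_cases h0 : ∀ b, D b = 0
    · exact h0 _
    · push Not at h0
      obtain ⟨b0, hb0⟩ := h0
      obtain ⟨u, hu⟩ := hn g
      have hu0 : u ≠ 0 := by
        rintro rfl
        have h1 := hu b0
        rw [zero_mul] at h1
        exact hb0 ((map_eq_zero_iff (θ g) (θ g).injective).1 h1)
      have h1 := hu x
      rw [hx, map_zero] at h1
      exact (mul_eq_zero.1 h1.symm).resolve_left hu0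
  obtain ⟨F, hF, hgood, hne, hst⟩ : ∃ (F : ℕ → Ideal B) (hF : IsFilt F),
      Good k (isFilt_restr hF (kerAlg D)) ∧ restr F (kerAlg D) 1 ≠ ⊥ ∧
      ∀ g d, ∀ x ∈ F d, θ g x ∈ F d := by
    by_cases h0 : ∀ b, D b = 0
    · have h2 : kerAlg D = ⊤ := by
        rw [eq_top_iff]
        intro b _
        exact h0 b
      obtain ⟨h3, h4⟩ := good_top isFilt_triv (good_triv (k := k) (B := B)) (by simp) h2
      exact ⟨_, isFilt_triv, h3, h4, fun _ _ _ _ => trivial⟩
    · push Not at h0
      obtain ⟨b0, hb0⟩ := h0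
      obtain ⟨l, hl, F, hR, hbot, hnd⟩ := hc
      have hF : IsFilt F := ⟨hR.zero, hR.anti, hR.mul⟩
      have hne : F 1 ≠ ⊥ := fun h => hb0 (hbot h b0)
      obtain ⟨h3, h4⟩ := good_top hF (good_of_centre hF hR) hne (rfl : (⊤ : Subalgebra k B) = ⊤)
      obtain ⟨h5, h6⟩ := good_dstep hp hpk hF (dstep_top (k := k) D φ hφ hnd hk) h3 h4
      refine ⟨F, hF, h5, h6, fun g d => ?_⟩
      obtain ⟨u, hu⟩ := hn g
      exact stable_field hl hR hnd (θ g) u hu d
  have hft : Algebra.FiniteType k (kerAlg D) := finiteType_kerAlg hp hpk D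
  obtain ⟨h1, h2⟩ := concl_ivQ (homS θ (kerAlg D) hker) (isFilt_restr hF (kerAlg D)) hG hgood hne
    (fun g d x hx => hst g d x hx)
  let e : ivQ (homS θ (kerAlg D) hker) ≃ₐ[k] C :=
    AlgEquiv.ofBijective
      (((kerAlg D).val.comp (ivQ (homS θ (kerAlg D) hker)).val).codRestrict C fun x =>
        (hC _).2 ⟨(hk _).1 x.1.2, fun g => congrArg (fun z : kerAlg D => (z : B)) (x.2 g)⟩)
      ⟨fun x y hxy => by
        apply Subtype.ext
        apply Subtype.ext
        exact congrArg (fun z : C => (z : B)) hxy, fun y => by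
        have h2 := (hC _).1 y.2
        exact ⟨⟨⟨y, h2.1⟩, fun g => Subtype.ext (h2.2 g)⟩, rfl⟩⟩
  have hft'' : Algebra.FiniteType k C := Algebra.FiniteType.equiv h1 e
  exact ⟨isVariety_spec, hasResolution_congr e h2⟩

end res

end Pool.Agent.H208P
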