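import Pool.Agent.H208P.L
import Pool.Agent.R837.FN.Norm

/-!
Uniqueness of weighted centres with nondegenerate leading forms.
-/

set_option autoImplicit false
set_option linter.unusedSectionVars false

open MvPolynomial Pool.Agent.H920R2

universe u v

namespace Pool.Agent.H208P

section closed

variable {k B : Type u} [Field k] [CommRing B] [Algebra k B]

/-- The filtration by powers is integrally closed. -/
theorem pow_closed [IsDomain B] [Algebra.Smooth k B] {F : ℕ → Ideal B}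
    (hF : RegularWeightedCentre k F) {N m : ℕ} (hN : 1 ≤ N) {a : B} (ha : a ^ N ∈ F (N * m)) :
    a ∈ F m := by
  let L := FractionRing B
  let g : B →ₐ[k] L := IsScalarTower.toAlgHom k B L
  have hinj : Function.Injective g := IsFractionRing.injective B L
  let R := reesF g hF
  have hsm : Algebra.Smooth k R := smooth_reesF g hinj hF inferInstance
  have hic : IsIntegrallyClosed R := Pool.Agent.R837.FN.Norm.of_smooth k R
  let K := FractionRing R
  let s : R := ⟨hm (-1) 1, s_reesF g hF⟩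
  let x0 : R := ⟨hm 0 (g a), b_reesF g hF a⟩
  let xN : R := ⟨hm ((N * m : ℕ) : ℤ) (g (a ^ N)), hm_mem_reesF g hF (by
    rw [Int.toNat_natCast]; exact ha)⟩
  have hs0 : s ≠ 0 := by
    intro h
    exact hm_ne_zero (d := -1) (one_ne_zero (α := L)) (congrArg Subtype.val h)
  have hsK : algebraMap R K s ≠ 0 := by
    intro h
    exact hs0 ((map_eq_zero_iff _ (IsFractionRing.injective R K)).1 h)
  have hspow : ∀ n : ℕ, ((s ^ n : R) : LP L) = hm (-(n : ℤ)) 1 := by
    intro n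
    change (hm (-1) 1 : LP L) ^ n = _
    rw [hm_pow, one_pow]
    congr 1
    ring
  have h1 : x0 ^ N = xN * s ^ (N * m) := by
    apply Subtype.ext
    change (hm 0 (g a) : LP L) ^ N = hm ((N * m : ℕ) : ℤ) (g (a ^ N)) * ((s ^ (N * m) : R) : LP L)
    rw [hspow, hm_pow, hm_mul, mul_one, map_pow]
    congr 1
    ring
  have h2 : (algebraMap R K x0 / algebraMap R K s ^ m) ^ N = algebraMap R K xN := by
    rw [div_pow, ← map_pow, h1, map_mul, map_pow, ← pow_mul, mul_comm m N,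
      mul_div_assoc, div_self (pow_ne_zero _ hsK), mul_one]
  obtain ⟨y, hy⟩ := IsIntegrallyClosed.exists_algebraMap_eq_of_isIntegral_pow (R := R) (K := K)
    (x := algebraMap R K x0 / algebraMap R K s ^ m) hN (by
      rw [h2]; exact isIntegral_algebraMap)
  have h3 : y * s ^ m = x0 := by
    apply IsFractionRing.injective R K
    rw [map_mul, map_pow, hy, div_mul_cancel₀ _ (pow_ne_zero _ hsK)]
  have h4 : (y : LP L) = hm (m : ℤ) (g a) := by
    have h5 : (y : LP L) * hm (-(m : ℤ)) 1 = hm 0 (g a) := by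
      rw [← hspow]
      exact congrArg Subtype.val h3
    calc (y : LP L) = (y : LP L) * hm (-(m : ℤ)) 1 * hm (m : ℤ) 1 := by
          rw [mul_assoc, hm_mul, one_mul, neg_add_cancel, hm_one, mul_one]
      _ = hm (m : ℤ) (g a) := by rw [h5, hm_mul, mul_one, zero_add]
  have h5 : hm (m : ℤ) (g a) ∈ R := h4 ▸ y.2
  obtain ⟨b, hb, hb'⟩ := of_hm_mem_reesF g hF h5
  rw [Int.toNat_natCast] at hb
  rwa [hinj hb'] at hb

lemma ceil_le_iff {r d c : ℕ} (hr : 1 ≤ r) : d ⌈/⌉ r ≤ c ↔ d ≤ r * c := by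
  rw [ceilDiv_le_iff_le_mul hr]

/-- The filtration with all weights multiplied by `r`. -/
theorem centre_scale {F : ℕ → Ideal B} (hF : RegularWeightedCentre k F) {r : ℕ} (hr : 1 ≤ r) :
    RegularWeightedCentre k (fun d => F (d ⌈/⌉ r)) := by
  have h01 : (1 : ℕ) ⌈/⌉ r = 1 := by
    apply le_antisymm
    · rw [ceil_le_iff hr]; omega
    · by_contra h
      have h1 : (1 : ℕ) ⌈/⌉ r ≤ 0 := by omega
      rw [ceil_le_iff hr] at h1
      omega
  refine ⟨?_, ?_, ?_, ?_⟩
  · have h0 : (0 : ℕ) ⌈/⌉ r = 0 := by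
      apply Nat.le_zero.1
      rw [ceil_le_iff hr]
      exact Nat.zero_le _
    change F (0 ⌈/⌉ r) = ⊤
    rw [h0]
    exact hF.zero
  · intro a b hab
    refine hF.anti _ _ ?_
    rw [ceil_le_iff hr]
    exact hab.trans ((ceil_le_iff hr).1 le_rfl)
  · intro a b
    refine (hF.mul _ _).trans (hF.anti _ _ ?_)
    rw [ceil_le_iff hr, Nat.mul_add]
    exact Nat.add_le_add ((ceil_le_iff hr).1 le_rfl) ((ceil_le_iff hr).1 le_rfl)
  · intro P hP h1
    change F (1 ⌈/⌉ r) ≤ P at h1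
    rw [h01] at h1
    obtain ⟨f, n, x, w, hf, het, hs⟩ := hF.coord P hP h1
    refine ⟨f, n, x, fun i => r * w i, hf, het, fun d => ?_⟩
    change (F (d ⌈/⌉ r)).map _ = _
    rw [hs]
    congr 1
    ext y
    have h2 : ∀ α : Fin n → ℕ, d ⌈/⌉ r ≤ ∑ i, α i * w i ↔ d ≤ ∑ i, α i * (r * w i) := by
      intro α
      rw [ceil_le_iff hr, Finset.mul_sum]
      have h3 : ∑ i, r * (α i * w i) = ∑ i, α i * (r * w i) :=
        Finset.sum_congr rfl fun i _ => by ring
      rw [h3]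
    constructor
    · rintro ⟨α, h3, h4⟩
      exact ⟨α, (h2 α).1 h3, h4⟩
    · rintro ⟨α, h3, h4⟩
      exact ⟨α, (h2 α).2 h3, h4⟩

/-- The associated graded ring is reduced. -/
theorem pow_reg [IsDomain B] [Algebra.Smooth k B] {F : ℕ → Ideal B}
    (hF : RegularWeightedCentre k F) {N m : ℕ} (hN : 1 ≤ N) {a : B}
    (ha : a ^ N ∈ F (N * m + 1)) : a ∈ F (m + 1) := by
  have h1 := centre_scale hF hN
  have h2 : a ∈ F ((N * m + 1) ⌈/⌉ N) := by
    refine pow_closed h1 hN (m := N * m + 1) ?_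
    change a ^ N ∈ F ((N * (N * m + 1)) ⌈/⌉ N)
    refine hF.anti _ _ ?_ ha
    rw [ceil_le_iff hN]
  refine hF.anti _ _ ?_ h2
  by_contra h
  have h3 : (N * m + 1) ⌈/⌉ N ≤ m := by omega
  rw [ceil_le_iff hN] at h3
  omega

end closed

section sat

variable {B : Type u} [CommRing B]

/-- The saturation of an ideal at a prime ideal. -/
def sat (P : Ideal B) (hP : P.IsPrime) (I : Ideal B) : Ideal B where
  carrier := {b | ∃ g, g ∉ P ∧ g * b ∈ I}
  add_mem' := by
    rintro a b ⟨g, hg, ha⟩ ⟨h, hh, hb⟩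
    refine ⟨g * h, fun h' => (hP.mem_or_mem h').elim hg hh, ?_⟩
    have e : g * h * (a + b) = h * (g * a) + g * (h * b) := by ring
    rw [e]
    exact Ideal.add_mem _ (Ideal.mul_mem_left _ _ ha) (Ideal.mul_mem_left _ _ hb)
  zero_mem' := ⟨1, fun h => hP.ne_top ((Ideal.eq_top_iff_one P).2 h), by simp⟩
  smul_mem' := by
    rintro c b ⟨g, hg, hb⟩
    refine ⟨g, hg, ?_⟩
    rw [smul_eq_mul, mul_left_comm]
    exact Ideal.mul_mem_left _ _ hb

variable {P : Ideal B} (hP : P.IsPrime)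

lemma mem_sat {I : Ideal B} {b : B} : b ∈ sat P hP I ↔ ∃ g, g ∉ P ∧ g * b ∈ I := Iff.rfl

lemma le_sat (I : Ideal B) : I ≤ sat P hP I := fun b hb =>
  ⟨1, fun h => hP.ne_top ((Ideal.eq_top_iff_one P).2 h), by rwa [one_mul]⟩

lemma sat_mono {I J : Ideal B} (h : I ≤ J) : sat P hP I ≤ sat P hP J :=
  fun _ ⟨g, hg, hb⟩ => ⟨g, hg, h hb⟩

lemma of_mul_sat {I : Ideal B} {g b : B} (hg : g ∉ P) (h : g * b ∈ sat P hP I) :
    b ∈ sat P hP I := by
  obtain ⟨g', hg', h'⟩ := h
  exact ⟨g' * g, fun h => (hP.mem_or_mem h).elim hg' hg, by rwa [mul_assoc]⟩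

lemma sat_le {I J : Ideal B} (h : I ≤ sat P hP J) : sat P hP I ≤ sat P hP J :=
  fun _ ⟨_, hg, hb⟩ => of_mul_sat hP hg (h hb)

lemma filt_sat {F : ℕ → Ideal B} (hF : Filt F) : Filt (fun d => sat P hP (F d)) where
  zero := by
    rw [hF.zero, eq_top_iff]
    exact le_sat hP ⊤
  anti a b hab := sat_mono hP (hF.anti a b hab)
  mul a b := by
    rw [Ideal.mul_le]
    rintro x ⟨g, hg, hx⟩ y ⟨h, hh, hy⟩
    refine ⟨g * h, fun h' => (hP.mem_or_mem h').elim hg hh, ?_⟩
    have e : g * h * (x * y) = (g * x) * (h * y) := by ring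
    rw [e]
    exact hF.mul_mem hx hy

/-- An ideal which is contained locally in another one. -/
lemma le_of_sat {I J : Ideal B} (h : ∀ (P : Ideal B) (hP : P.IsPrime), I ≤ sat P hP J) :
    I ≤ J := by
  intro b hb
  let K : Ideal B := Submodule.comap (LinearMap.mulRight B b) J
  have hK : ∀ g, g ∈ K ↔ g * b ∈ J := fun g => Iff.rfl
  have hK1 : K = ⊤ := by
    by_contra hcon
    obtain ⟨P, hPm, hKP⟩ := Ideal.exists_le_maximal K hcon
    obtain ⟨g, hg, hgb⟩ := h P hPm.isPrime hb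
    exact hg (hKP ((hK g).2 hgb))
  have h1 : (1 : B) ∈ K := by rw [hK1]; trivial
  rw [hK, one_mul] at h1
  exact h1

variable {k : Type v} [Field k] [Algebra k B]

lemma mem_map_away {f : B} {I : Ideal B} {b : B}
    (h : algebraMap B (Localization.Away f) b ∈ I.map (algebraMap B (Localization.Away f))) :
    ∃ n : ℕ, f ^ n * b ∈ I := by
  obtain ⟨⟨⟨i, hi⟩, s⟩, hs⟩ :=
    (IsLocalization.mem_map_algebraMap_iff (Submonoid.powers f) (Localization.Away f)).1 h
  obtain ⟨⟨_, n, rfl⟩, rfl⟩ : ∃ t : Submonoid.powers f, t = s := ⟨s, rfl⟩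
  have h1 : algebraMap B (Localization.Away f) (b * f ^ n) =
      algebraMap B (Localization.Away f) i := by
    rw [map_mul]
    exact hs
  obtain ⟨⟨_, m, rfl⟩, hc⟩ := (IsLocalization.eq_iff_exists (Submonoid.powers f)
    (Localization.Away f)).1 h1
  refine ⟨m + n, ?_⟩
  have h2 : f ^ (m + n) * b = f ^ m * (b * f ^ n) := by ring
  rw [h2]
  change f ^ m * (b * f ^ n) = f ^ m * i at hc
  rw [hc]
  exact Ideal.mul_mem_left _ _ hi

end sat

section cmp

variable {k B : Type u} [Field k] [CommRing B] [Algebra k B] {δ : B → B} {ε : B} {l : ℕ}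

/-- Local coordinates of a regular weighted centre. -/
lemma exists_coord {F : ℕ → Ideal B} (hF : RegularWeightedCentre k F) {P : Ideal B}
    (hP : P.IsPrime) (h1 : F 1 ≤ P) : ∃ (n : ℕ) (x : Fin n → B) (w : Fin n → ℕ),
      ∀ d, F d ≤ sat P hP (FL x w d) ∧ FL x w d ≤ sat P hP (F d) := by
  obtain ⟨f, n, x, w, hf, -, hs⟩ := hF.coord P hP h1
  have hfn : ∀ m : ℕ, f ^ m ∉ P := fun m h => hf (hP.mem_of_pow_mem m h)
  have hmap : ∀ d, (F d).map (algebraMap B (Localization.Away f)) =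
      (FL x w d).map (algebraMap B (Localization.Away f)) := by
    intro d
    rw [hs]
    unfold FL
    rw [Ideal.map_span]
    congr 1
    ext y
    constructor
    · rintro ⟨α, h1, rfl⟩
      exact ⟨_, ⟨α, h1, rfl⟩, by rw [map_prod]; simp only [map_pow]⟩
    · rintro ⟨_, ⟨α, h1, rfl⟩, rfl⟩
      exact ⟨α, h1, by rw [map_prod]; simp only [map_pow]⟩
  refine ⟨n, x, w, fun d => ⟨fun b hb => ?_, fun b hb => ?_⟩⟩
  · obtain ⟨m, hm⟩ := mem_map_away (f := f) (I := FL x w d) (b := b) (by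
      rw [← hmap]; exact Ideal.mem_map_of_mem _ hb)
    exact ⟨f ^ m, hfn m, hm⟩
  · obtain ⟨m, hm⟩ := mem_map_away (f := f) (I := F d) (b := b) (by
      rw [hmap]; exact Ideal.mem_map_of_mem _ hb)
    exact ⟨f ^ m, hfn m, hm⟩

include k in
/-- The operator on the saturations. -/
lemma TD.sat (h : TD k δ ε) {F : ℕ → Ideal B} (hF : Filt F)
    (hdiv : ∀ d, ∀ a ∈ F d, δ a ∈ F (d + l)) {P : Ideal B} (hP : P.IsPrime)
    (hδP : ∀ b, δ b ∈ P) {d : ℕ} {b : B} (hb : b ∈ sat P hP (F d)) :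
    δ b ∈ Pool.Agent.H208P.sat P hP (F (d + l)) := by
  obtain ⟨g, hg, hgb⟩ := hb
  have h1 : g + ε * δ g ∉ P := by
    intro h2
    exact hg ((Ideal.add_mem_iff_left _ (Ideal.mul_mem_left _ ε (hδP g))).1 h2)
  refine ⟨g * (g + ε * δ g), fun h' => (hP.mem_or_mem h').elim hg h1, ?_⟩
  have h2 : g * (g + ε * δ g) * δ b = g * δ (g * b) - (g * b) * δ g := by
    rw [h.mul]
    ring
  rw [h2]
  refine Ideal.sub_mem _ (Ideal.mul_mem_left _ _ (hdiv _ _ hgb)) ?_
  have h3 := hdiv 0 g (hF.mem0 g)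
  exact hF.mul_mem' hgb h3 (by omega)

lemma ceil_arith {U W N e l m1 m2 : ℕ} (hU : U < W) (hl : 0 < l) (h1 : U * e ≤ W * m1)
    (h2 : U * (N * W - (e + l)) ≤ W * m2) : N * U + 1 ≤ m1 + l + m2 := by
  by_contra hcon
  have h3 : m1 + l + m2 ≤ N * U := by omega
  have h4 : W * (m1 + l + m2) ≤ W * (N * U) := Nat.mul_le_mul_left _ h3
  have h5 : U * l < W * l := Nat.mul_lt_mul_of_pos_right hU hl
  have h6 : U * (N * W) ≤ U * (N * W - (e + l)) + U * (e + l) := by
    rw [← Nat.mul_add]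
    exact Nat.mul_le_mul_left _ (by omega)
  have h7 : W * (N * U) = U * (N * W) := by ring
  have h8 : U * (e + l) = U * e + U * l := Nat.mul_add _ _ _
  have h9 : W * (m1 + l + m2) = W * m1 + W * l + W * m2 := by ring
  omega

/-- **Comparison.** A centre with a nondegenerate leading form is contained in each filtration
which is raised by the same amount and whose associated graded ring is reduced. -/
theorem le_of_nondeg (hδ : TD k δ ε) (hl : 0 < l) {F F' : ℕ → Ideal B}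
    (hF : RegularWeightedCentre k F) (hnd : Nondeg F δ l) (hF' : Filt F')
    (hdiv' : ∀ d, ∀ a ∈ F' d, δ a ∈ F' (d + l))
    (hred : ∀ (N m : ℕ) (a : B), 1 ≤ N → a ^ N ∈ F' (N * m + 1) → a ∈ F' (m + 1)) (d : ℕ) :
    F d ≤ F' d := by
  classical
  have hFf : Filt F := Filt.of_centre hF
  -- the first step
  have h11 : F 1 ≤ F' 1 := by
    intro a ha
    have h1 : a ∈ (F' 1).radical := by
      rw [Ideal.radical_eq_sInf, Ideal.mem_sInf]
      rintro P ⟨hFP, hP⟩
      refine hnd.fix P hP (fun b => hFP ?_) ha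
      exact hF'.anti _ _ (by omega) (hdiv' 0 b (hF'.mem0 b))
    obtain ⟨n, hn⟩ := h1
    rcases Nat.eq_zero_or_pos n with h | h
    · subst h
      rw [pow_zero] at hn
      rw [(Ideal.eq_top_iff_one _).2 hn]
      trivial
    · have h2 := hred n 0 a h (by rw [Nat.mul_zero, Nat.zero_add]; exact hn)
      rwa [Nat.zero_add] at h2
  refine le_of_sat fun P hP => ?_
  by_cases hFP : F 1 ≤ P
  swap
  · obtain ⟨g, hg, hgP⟩ := SetLike.not_le_iff_exists.1 hFP
    intro b _
    refine ⟨g ^ d, fun h => hgP (hP.mem_of_pow_mem d h), Ideal.mul_mem_right _ _ ?_⟩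
    have h1 := hF'.pow_mem (h11 hg) d
    rwa [mul_one] at h1
  have hδP : ∀ b, δ b ∈ P := fun b => hFP (hFf.anti _ _ (by omega) (hnd.div 0 b (hFf.mem0 b)))
  obtain ⟨n, x, w, hx⟩ := exists_coord hF hP hFP
  have hSf := filt_sat hP hF'
  have hsdiv : ∀ d b, b ∈ sat P hP (F' d) → δ b ∈ sat P hP (F' (d + l)) :=
    fun d b hb => hδ.sat hF' hdiv' hP hδP hb
  -- monomials
  have hmono : ∀ (u : Fin n → ℕ), (∀ i, x i ∈ sat P hP (F' (u i))) → ∀ (d m : ℕ),
      (∀ α : Fin n → ℕ, d ≤ ∑ i, α i * w i → m ≤ ∑ i, α i * u i) →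
      F d ≤ sat P hP (F' m) := by
    intro u hu d m hdm
    refine (hx d).1.trans (sat_le hP ?_)
    unfold FL
    rw [Ideal.span_le]
    rintro _ ⟨α, hα, rfl⟩
    have h1 : ∏ i, x i ^ α i ∈ sat P hP (F' (∑ i, α i * u i)) :=
      hSf.prod_mem Finset.univ (fun i => α i * u i) (fun i => x i ^ α i)
        fun i _ => hSf.pow_mem (hu i) (α i)
    exact hSf.anti _ _ (hdm α hα) h1
  have hxw : ∀ i, x i ∈ sat P hP (F (w i)) := fun i => (hx (w i)).2 (mem_FL i)
  let u : Fin n → ℕ := fun i => Nat.findGreatest (fun m => x i ∈ sat P hP (F' m)) (w i)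
  have hu : ∀ i, x i ∈ sat P hP (F' (u i)) := by
    intro i
    refine Nat.findGreatest_spec (P := fun m => x i ∈ sat P hP (F' m)) (Nat.zero_le (w i)) ?_
    exact hSf.mem0 _
  have hule : ∀ i, u i ≤ w i := fun i => Nat.findGreatest_le _
  have hmax : ∀ i, u i < w i → x i ∉ sat P hP (F' (u i + 1)) := by
    intro i hi
    exact Nat.findGreatest_is_greatest (P := fun m => x i ∈ sat P hP (F' m)) (Nat.lt_succ_self _) hi
  have hupos : ∀ i, 1 ≤ w i → 1 ≤ u i := by
    intro i hi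
    refine Nat.le_findGreatest hi ?_
    exact sat_mono hP ((hFf.anti _ _ hi).trans h11) (hxw i)
  by_cases hall : ∀ i, u i = w i
  · refine hmono u hu d d fun α hα => ?_
    simp only [hall]
    exact hα
  exfalso
  push Not at hall
  obtain ⟨i1, hi1⟩ := hall
  have hi1' : 1 ≤ w i1 := by
    have := hule i1
    omega
  obtain ⟨i0, hi0, hmin⟩ := Finset.exists_min_image (Finset.univ.filter fun i => 1 ≤ w i)
    (fun i => (u i : ℚ) / w i) ⟨i1, by simp [hi1']⟩
  rw [Finset.mem_filter] at hi0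
  have hW := hi0.2
  have hmin' : ∀ j, u i0 * w j ≤ u j * w i0 := by
    intro j
    rcases Nat.eq_zero_or_pos (w j) with h | h
    · rw [h, Nat.mul_zero]; exact Nat.zero_le _
    · have h1 := hmin j (by simp; omega)
      rw [div_le_div_iff₀ (by exact_mod_cast hW) (by exact_mod_cast h)] at h1
      exact_mod_cast h1
  have hUW : u i0 < w i0 := by
    have h1 := hmin' i1
    have h2 : u i1 < w i1 := lt_of_le_of_ne (hule i1) hi1
    have h3 : u i1 * w i0 < w i1 * w i0 := Nat.mul_lt_mul_of_pos_right h2 hW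
    have h4 : u i0 * w i1 < w i0 * w i1 := by
      rw [Nat.mul_comm (w i0)]
      exact lt_of_le_of_lt h1 h3
    exact lt_of_mul_lt_mul_right h4 (Nat.zero_le _)
  have hU := hupos i0 hW
  have hE : ∀ d m : ℕ, w i0 * m < u i0 * d + w i0 → F d ≤ sat P hP (F' m) := by
    intro d m hdm
    refine hmono u hu d m fun α hα => ?_
    have h1 : u i0 * ∑ i, α i * w i ≤ w i0 * ∑ i, α i * u i := by
      rw [Finset.mul_sum, Finset.mul_sum]
      refine Finset.sum_le_sum fun i _ => ?_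
      have h2 := Nat.mul_le_mul_left (α i) (hmin' i)
      linarith
    have h2 : u i0 * d ≤ u i0 * ∑ i, α i * w i := Nat.mul_le_mul_left _ hα
    have h3 : w i0 * m < w i0 * (∑ i, α i * u i + 1) := by
      rw [Nat.mul_add, Nat.mul_one]
      omega
    have h4 := lt_of_mul_lt_mul_left h3 (Nat.zero_le _)
    omega
  obtain ⟨g, hg, hgx⟩ := hxw i0
  obtain ⟨N, hN⟩ := hnd.lead (w i0) hW _ hgx
  rcases Nat.eq_zero_or_pos N with hN0 | hN1
  · subst hN0
    rw [pow_zero, Nat.zero_mul] at hN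
    apply hP.ne_top
    rw [Ideal.eq_top_iff_one]
    apply hFP
    have h1 : LI F δ l 0 ≤ F 1 := by
      unfold LI
      refine sup_le (hFf.anti _ _ (by omega)) ?_
      rw [Ideal.span_le]
      rintro _ ⟨e, c, hc, b, -, rfl⟩
      exact Ideal.mul_mem_left _ _ (hFf.anti _ _ (by omega) (hnd.div e c hc))
    exact h1 hN
  have hkey : LI F δ l (N * w i0) ≤ sat P hP (F' (N * u i0 + 1)) := by
    unfold LI
    refine sup_le (hE _ _ ?_) ?_
    · have e1 : w i0 * (N * u i0 + 1) = u i0 * (N * w i0) + w i0 := by ring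
      have e2 : u i0 * (N * w i0 + 1) = u i0 * (N * w i0) + u i0 := by ring
      omega
    · rw [Ideal.span_le]
      rintro _ ⟨e, c, hc, b, hb, rfl⟩
      have hceil : ∀ t : ℕ, t ≤ w i0 * ((t + (w i0 - 1)) / w i0) ∧
          w i0 * ((t + (w i0 - 1)) / w i0) < t + w i0 := by
        intro t
        have h1 := Nat.div_add_mod (t + (w i0 - 1)) (w i0)
        have h2 := Nat.mod_lt (t + (w i0 - 1)) hW
        constructor <;> omega
      obtain ⟨h1, h1'⟩ := hceil (u i0 * e)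
      obtain ⟨h2, h2'⟩ := hceil (u i0 * (N * w i0 - (e + l)))
      have hc' := hsdiv _ _ (hE e _ h1' hc)
      have hb' := hE _ _ h2' hb
      refine hSf.mul_mem' hb' hc' ?_
      have h3 := ceil_arith hUW hl h1 h2
      omega
  have hz : g * x i0 ∈ sat P hP (F' (u i0 + 1)) := by
    obtain ⟨h, hh, hz⟩ := hkey hN
    refine ⟨h, hh, hred N (u i0) _ hN1 ?_⟩
    rw [mul_pow]
    obtain ⟨N', rfl⟩ : ∃ N', N = N' + 1 := ⟨N - 1, by omega⟩
    rw [pow_succ, mul_assoc]
    exact Ideal.mul_mem_left _ _ hz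
  exact hmax i0 hUW (of_mul_sat hP hg hz)

end cmp

end Pool.Agent.H208P
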