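import Pool.Agent.H208P.U
import Pool.Agent.H208P.M

/-!
Gluing of weighted centres with nondegenerate leading forms.
-/

set_option autoImplicit false
set_option linter.unusedSectionVars false

open MvPolynomial Pool.Agent.H920R2

universe u v

namespace Pool.Agent.H208P

section loc

variable {k B : Type u} [Field k] [CommRing B] [Algebra k B] {δ : B → B} {ε : B} {l : ℕ}

/-- A weighted centre with a nondegenerate leading form on the open subset defined by `f`. -/
structure Loc (k : Type u) [Field k] [Algebra k B] (δ : B → B) (l : ℕ) (f : B)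
    (F : ℕ → Ideal B) : Prop where
  filt : Filt F
  satf : ∀ d b, f * b ∈ F d → b ∈ F d
  div : ∀ d, ∀ a ∈ F d, δ a ∈ F (d + l)
  red : ∀ (N m : ℕ) (a : B), 1 ≤ N → a ^ N ∈ F (N * m + 1) → a ∈ F (m + 1)
  fix : ∀ P : Ideal B, P.IsPrime → f ∉ P → (∀ a, δ a ∈ P) → F 1 ≤ P
  lead : ∀ d, 1 ≤ d → ∀ a ∈ F d, ∃ N n : ℕ, f ^ n * a ^ N ∈ LI F δ l (N * d)
  coord : ∀ P : Ideal B, P.IsPrime → f ∉ P → F 1 ≤ P →
    ∃ (g : B) (n : ℕ) (x : Fin n → B) (w : Fin n → ℕ), g ∉ P ∧
      ((aeval (fun i => algebraMap B (Localization.Away g) (x i)) :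
        MvPolynomial (Fin n) k →ₐ[k] Localization.Away g) :
        MvPolynomial (Fin n) k →+* Localization.Away g).Etale ∧
      (∀ d, ∀ b ∈ F d, ∃ m : ℕ, g ^ m * b ∈ FL x w d) ∧
      ∀ d, ∀ b ∈ FL x w d, ∃ m : ℕ, g ^ m * b ∈ F d

lemma Loc.satpow {f : B} {F : ℕ → Ideal B} (h : Loc k δ l f F) (d n : ℕ) (b : B)
    (hb : f ^ n * b ∈ F d) : b ∈ F d := by
  induction n with
  | zero => rwa [pow_zero, one_mul] at hb
  | succ n ih =>
    apply ih
    apply h.satf
    rwa [← mul_assoc, ← pow_succ']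

/-- **Local comparison.** -/
theorem Loc.sat_le (hδ : TD k δ ε) (hl : 0 < l) {F F' : ℕ → Ideal B} {f f' : B}
    (h : Loc k δ l f F) (h' : Loc k δ l f' F') {P : Ideal B} (hP : P.IsPrime) (hfP : f ∉ P)
    (d : ℕ) : F d ≤ sat P hP (F' d) := by
  classical
  have hFf := h.filt
  have hF' := h'.filt
  have hSf := filt_sat hP hF'
  -- the first step
  have h11 : F 1 ≤ sat P hP (F' 1) := by
    intro a ha
    by_contra hcon
    have hred1 : ∀ n : ℕ, ∀ g, g ∉ P → a ^ n * g ∉ F' 1 := by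
      intro n g hg hmem
      rcases Nat.eq_zero_or_pos n with h0 | hn
      · subst h0
        rw [pow_zero, one_mul] at hmem
        exact hcon ⟨g, hg, Ideal.mul_mem_right _ _ hmem⟩
      · apply hcon
        refine ⟨g, hg, ?_⟩
        have h2 : (g * a) ^ n ∈ F' (n * 0 + 1) := by
          rw [Nat.mul_zero, Nat.zero_add, mul_pow]
          obtain ⟨n', rfl⟩ : ∃ n', n = n' + 1 := ⟨n - 1, by omega⟩
          have e : g ^ (n' + 1) * a ^ (n' + 1) = g ^ n' * (a ^ (n' + 1) * g) := by ring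
          rw [e]
          exact Ideal.mul_mem_left _ _ hmem
        have h3 := h'.red n 0 _ hn h2
        rwa [Nat.zero_add] at h3
    let S : Submonoid B :=
      { carrier := {y | ∃ (n : ℕ) (g : B), g ∉ P ∧ y = a ^ n * g}
        mul_mem' := by
          rintro _ _ ⟨n, g, hg, rfl⟩ ⟨m, g', hg', rfl⟩
          exact ⟨n + m, g * g', fun h => (hP.mem_or_mem h).elim hg hg', by ring⟩
        one_mem' := ⟨0, 1, fun h => hP.ne_top ((Ideal.eq_top_iff_one P).2 h), by simp⟩ }
    have hdisj : Disjoint (F' 1 : Set B) (S : Set B) := by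
      rw [Set.disjoint_left]
      rintro y hy ⟨n, g, hg, rfl⟩
      exact hred1 n g hg hy
    obtain ⟨Q, hQ, hFQ, hQS⟩ := Ideal.exists_le_prime_disjoint (F' 1) S hdisj
    have hQS' : ∀ y ∈ Q, y ∉ S := fun y hy => Set.disjoint_left.1 hQS hy
    have hQP : Q ≤ P := by
      intro y hy
      by_contra hyP
      exact hQS' y hy ⟨0, y, hyP, by simp⟩
    have haQ : a ∉ Q := fun hy => hQS' a hy
      ⟨1, 1, fun h => hP.ne_top ((Ideal.eq_top_iff_one P).2 h), by simp⟩
    apply haQ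
    refine h.fix Q hQ (fun h => hfP (hQP h)) (fun b => hFQ ?_) ha
    exact hF'.anti _ _ (by omega) (h'.div 0 b (hF'.mem0 b))
  by_cases hFP : F 1 ≤ P
  swap
  · obtain ⟨g, hg, hgP⟩ := SetLike.not_le_iff_exists.1 hFP
    obtain ⟨g', hg', hgg⟩ := h11 hg
    intro b _
    refine ⟨(g' * g) ^ d, fun h => ?_, Ideal.mul_mem_right _ _ ?_⟩
    · rcases hP.mem_or_mem (hP.mem_of_pow_mem d h) with h | h
      · exact hg' h
      · exact hgP h
    · have h1 := hF'.pow_mem hgg d
      rwa [mul_one] at h1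
  have hδP : ∀ b, δ b ∈ P := fun b => hFP (hFf.anti _ _ (by omega) (h.div 0 b (hFf.mem0 b)))
  obtain ⟨gg, n, x, w, hgg, -, hx1, hx2⟩ := h.coord P hP hfP hFP
  have hggn : ∀ m : ℕ, gg ^ m ∉ P := fun m h => hgg (hP.mem_of_pow_mem m h)
  have hx : ∀ d, F d ≤ sat P hP (FL x w d) ∧ FL x w d ≤ sat P hP (F d) := by
    intro d
    constructor
    · intro b hb
      obtain ⟨m, hm⟩ := hx1 d b hb
      exact ⟨gg ^ m, hggn m, hm⟩
    · intro b hb
      obtain ⟨m, hm⟩ := hx2 d b hb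
      exact ⟨gg ^ m, hggn m, hm⟩
  have hsdiv : ∀ d b, b ∈ sat P hP (F' d) → δ b ∈ sat P hP (F' (d + l)) :=
    fun d b hb => hδ.sat hF' h'.div hP hδP hb
  -- monomials
  have hmono : ∀ (u : Fin n → ℕ), (∀ i, x i ∈ sat P hP (F' (u i))) → ∀ (d m : ℕ),
      (∀ α : Fin n → ℕ, d ≤ ∑ i, α i * w i → m ≤ ∑ i, α i * u i) →
      F d ≤ sat P hP (F' m) := by
    intro u hu d m hdm
    refine (hx d).1.trans (H208P.sat_le hP ?_)
    unfold FL
    rw [Ideal.span_le]
    rintro _ ⟨α, hα, rfl⟩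
    have h1 : ∏ i, x i ^ α i ∈ sat P hP (F' (∑ i, α i * u i)) :=
      hSf.prod_mem Finset.univ (fun i => α i * u i) (fun i => x i ^ α i)
        fun i _ => hSf.pow_mem (hu i) (α i)
    exact hSf.anti _ _ (hdm α hα) h1
  have hxw : ∀ i, x i ∈ sat P hP (F (w i)) := fun i => (hx (w i)).2 (mem_FL i)
  let u : Fin n → ℕ := fun i => Nat.findGreatest (fun m => x i ∈ sat P hP (F' m)) (w i)
  have hu : ∀ i, x i ∈ sat P hP (F' (u i)) := by
    intro i
    refine Nat.findGreatest_spec (P := fun m => x i ∈ sat P hP (F' m)) (Nat.zero_le (w i)) ?_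
    exact hSf.mem0 _
  have hule : ∀ i, u i ≤ w i := fun i => Nat.findGreatest_le _
  have hmax : ∀ i, u i < w i → x i ∉ sat P hP (F' (u i + 1)) := by
    intro i hi
    exact Nat.findGreatest_is_greatest (P := fun m => x i ∈ sat P hP (F' m)) (Nat.lt_succ_self _) hi
  have hupos : ∀ i, 1 ≤ w i → 1 ≤ u i := by
    intro i hi
    refine Nat.le_findGreatest hi ?_
    exact H208P.sat_le hP h11 (sat_mono hP (hFf.anti _ _ hi) (hxw i))
  by_cases hall : ∀ i, u i = w i
  · refine hmono u hu d d fun α hα => ?_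
    simp only [hall]
    exact hα
  exfalso
  push Not at hall
  obtain ⟨i1, hi1⟩ := hall
  have hi1' : 1 ≤ w i1 := by
    have := hule i1
    omega
  obtain ⟨i0, hi0, hmin⟩ := Finset.exists_min_image (Finset.univ.filter fun i => 1 ≤ w i)
    (fun i => (u i : ℚ) / w i) ⟨i1, by simp [hi1']⟩
  rw [Finset.mem_filter] at hi0
  have hW := hi0.2
  have hmin' : ∀ j, u i0 * w j ≤ u j * w i0 := by
    intro j
    rcases Nat.eq_zero_or_pos (w j) with h | h
    · rw [h, Nat.mul_zero]; exact Nat.zero_le _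
    · have h1 := hmin j (by simp; omega)
      rw [div_le_div_iff₀ (by exact_mod_cast hW) (by exact_mod_cast h)] at h1
      exact_mod_cast h1
  have hUW : u i0 < w i0 := by
    have h1 := hmin' i1
    have h2 : u i1 < w i1 := lt_of_le_of_ne (hule i1) hi1
    have h3 : u i1 * w i0 < w i1 * w i0 := Nat.mul_lt_mul_of_pos_right h2 hW
    have h4 : u i0 * w i1 < w i0 * w i1 := by
      rw [Nat.mul_comm (w i0)]
      exact lt_of_le_of_lt h1 h3
    exact lt_of_mul_lt_mul_right h4 (Nat.zero_le _)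
  have hU := hupos i0 hW
  have hE : ∀ d m : ℕ, w i0 * m < u i0 * d + w i0 → F d ≤ sat P hP (F' m) := by
    intro d m hdm
    refine hmono u hu d m fun α hα => ?_
    have h1 : u i0 * ∑ i, α i * w i ≤ w i0 * ∑ i, α i * u i := by
      rw [Finset.mul_sum, Finset.mul_sum]
      refine Finset.sum_le_sum fun i _ => ?_
      have h2 := Nat.mul_le_mul_left (α i) (hmin' i)
      linarith
    have h2 : u i0 * d ≤ u i0 * ∑ i, α i * w i := Nat.mul_le_mul_left _ hα
    have h3 : w i0 * m < w i0 * (∑ i, α i * u i + 1) := by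
      rw [Nat.mul_add, Nat.mul_one]
      omega
    have h4 := lt_of_mul_lt_mul_left h3 (Nat.zero_le _)
    omega
  obtain ⟨g, hg, hgx⟩ := hxw i0
  obtain ⟨N, nn, hN⟩ := h.lead (w i0) hW _ hgx
  have hfnn : f ^ nn ∉ P := fun h => hfP (hP.mem_of_pow_mem nn h)
  rcases Nat.eq_zero_or_pos N with hN0 | hN1
  · subst hN0
    rw [pow_zero, Nat.zero_mul, mul_one] at hN
    apply hfnn
    apply hFP
    have h1 : LI F δ l 0 ≤ F 1 := by
      unfold LI
      refine sup_le (hFf.anti _ _ (by omega)) ?_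
      rw [Ideal.span_le]
      rintro _ ⟨e, c, hc, b, -, rfl⟩
      exact Ideal.mul_mem_left _ _ (hFf.anti _ _ (by omega) (h.div e c hc))
    exact h1 hN
  have hkey : LI F δ l (N * w i0) ≤ sat P hP (F' (N * u i0 + 1)) := by
    unfold LI
    refine sup_le (hE _ _ ?_) ?_
    · have e1 : w i0 * (N * u i0 + 1) = u i0 * (N * w i0) + w i0 := by ring
      have e2 : u i0 * (N * w i0 + 1) = u i0 * (N * w i0) + u i0 := by ring
      omega
    · rw [Ideal.span_le]
      rintro _ ⟨e, c, hc, b, hb, rfl⟩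
      have hceil : ∀ t : ℕ, t ≤ w i0 * ((t + (w i0 - 1)) / w i0) ∧
          w i0 * ((t + (w i0 - 1)) / w i0) < t + w i0 := by
        intro t
        have h1 := Nat.div_add_mod (t + (w i0 - 1)) (w i0)
        have h2 := Nat.mod_lt (t + (w i0 - 1)) hW
        constructor <;> omega
      obtain ⟨h1, h1'⟩ := hceil (u i0 * e)
      obtain ⟨h2, h2'⟩ := hceil (u i0 * (N * w i0 - (e + l)))
      have hc' := hsdiv _ _ (hE e _ h1' hc)
      have hb' := hE _ _ h2' hb
      refine hSf.mul_mem' hb' hc' ?_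
      have h3 := ceil_arith hUW hl h1 h2
      omega
  have hz : g * x i0 ∈ sat P hP (F' (u i0 + 1)) := by
    obtain ⟨h1, hh, hz⟩ := of_mul_sat hP hfnn (hkey hN)
    refine ⟨h1, hh, h'.red N (u i0) _ hN1 ?_⟩
    rw [mul_pow]
    obtain ⟨N', rfl⟩ : ∃ N', N = N' + 1 := ⟨N - 1, by omega⟩
    rw [pow_succ, mul_assoc]
    exact Ideal.mul_mem_left _ _ hz
  exact hmax i0 hUW (of_mul_sat hP hg hz)

/-- Two local centres agree on the common open subset. -/
theorem Loc.exists_pow (hδ : TD k δ ε) (hl : 0 < l) {F F' : ℕ → Ideal B} {f f' : B}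
    (h : Loc k δ l f F) (h' : Loc k δ l f' F') {d : ℕ} {b : B} (hb : b ∈ F d) :
    ∃ n : ℕ, f ^ n * b ∈ F' d := by
  let K : Ideal B := Submodule.comap (LinearMap.mulRight B b) (F' d)
  have hK : ∀ g, g ∈ K ↔ g * b ∈ F' d := fun g => Iff.rfl
  have h1 : f ∈ K.radical := by
    rw [Ideal.radical_eq_sInf, Ideal.mem_sInf]
    rintro Q ⟨hKQ, hQ⟩
    by_contra hfQ
    obtain ⟨g, hg, hgb⟩ := Loc.sat_le hδ hl h h' hQ hfQ d hb
    exact hg (hKQ ((hK g).2 hgb))
  obtain ⟨n, hn⟩ := h1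
  exact ⟨n, hn⟩

end loc

section glue

variable {k B : Type u} [Field k] [CommRing B] [Algebra k B] {δ : B → B} {ε : B} {l : ℕ}

lemma map_le_away {D : Type u} [CommRing D] [Algebra B D] {u : B} (hu : IsUnit (algebraMap B D u))
    {I J : Ideal B} (h : ∀ b ∈ I, ∃ n : ℕ, u ^ n * b ∈ J) :
    I.map (algebraMap B D) ≤ J.map (algebraMap B D) := by
  rw [Ideal.map_le_iff_le_comap]
  intro b hb
  obtain ⟨n, hn⟩ := h b hb
  rw [Ideal.mem_comap, ← Ideal.unit_mul_mem_iff_mem _ (hu.pow n), ← map_pow, ← map_mul]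
  exact Ideal.mem_map_of_mem _ hn

lemma delta_pow (hδ : TD k δ ε) {f : B} (hf : δ f = 0) (n : ℕ) : δ (f ^ n) = 0 := by
  induction n with
  | zero => rw [pow_zero]; exact hδ.one
  | succ n ih => rw [pow_succ, hδ.mul, hf, ih]; ring

lemma delta_pow_mul (hδ : TD k δ ε) {f : B} (hf : δ f = 0) (n : ℕ) (b : B) :
    δ (f ^ n * b) = f ^ n * δ b := by
  rw [hδ.mul, delta_pow hδ hf]
  ring

/-- **Gluing.** -/
theorem glue (hδ : TD k δ ε) (hl : 0 < l) {ι : Type v} [Fintype ι] (f : ι → B)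
    (hf : ∀ i, δ (f i) = 0) (F : ι → ℕ → Ideal B) (h : ∀ i, Loc k δ l (f i) (F i))
    (hcov : ∀ P : Ideal B, P.IsPrime → (∀ a, δ a ∈ P) → ∃ i, f i ∉ P) :
    RegularWeightedCentre k (fun d => Finset.univ.inf fun i => F i d) ∧
      Nondeg (fun d => Finset.univ.inf fun i => F i d) δ l := by
  classical
  set G : ℕ → Ideal B := fun d => Finset.univ.inf fun i => F i d with hG
  have hmem : ∀ d b, b ∈ G d ↔ ∀ i, b ∈ F i d := by
    intro d b
    rw [hG]
    simp only [Submodule.mem_finsetInf, Finset.mem_univ, true_imp_iff]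
  have hGf : Filt G := by
    refine ⟨?_, ?_, ?_⟩
    · rw [eq_top_iff]
      intro b _
      rw [hmem]
      exact fun i => (h i).filt.mem0 b
    · intro a b hab x hx
      rw [hmem] at hx ⊢
      exact fun i => (h i).filt.anti _ _ hab (hx i)
    · intro a b
      rw [Ideal.mul_le]
      intro x hx y hy
      rw [hmem] at hx hy ⊢
      exact fun i => (h i).filt.mul_mem (hx i) (hy i)
  have hdiv : ∀ d, ∀ a ∈ G d, δ a ∈ G (d + l) := by
    intro d a ha
    rw [hmem] at ha ⊢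
    exact fun i => (h i).div d a (ha i)
  have hpow : ∀ j d b, b ∈ F j d → ∃ n : ℕ, f j ^ n * b ∈ G d := by
    intro j d b hb
    choose n hn using fun i => (h j).exists_pow hδ hl (h i) hb
    refine ⟨∑ i, n i, ?_⟩
    rw [hmem]
    intro i
    have h1 : n i ≤ ∑ i, n i := Finset.single_le_sum (fun _ _ => Nat.zero_le _) (Finset.mem_univ i)
    obtain ⟨c, hc⟩ := Nat.exists_eq_add_of_le h1
    rw [hc, pow_add, mul_comm (f j ^ n i), mul_assoc]
    exact Ideal.mul_mem_left _ _ (hn i)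
  have hδG : ∀ P : Ideal B, G 1 ≤ P → ∀ a, δ a ∈ P := fun P hGP a =>
    hGP (hGf.anti _ _ (by omega) (hdiv 0 a (hGf.mem0 a)))
  refine ⟨⟨hGf.zero, hGf.anti, hGf.mul, ?_⟩, hdiv, ?_, ?_⟩
  · intro P hP hGP
    obtain ⟨j, hj⟩ := hcov P hP (hδG P hGP)
    have hjn : ∀ m : ℕ, f j ^ m ∉ P := fun m h => hj (hP.mem_of_pow_mem m h)
    have hFP : F j 1 ≤ P := by
      intro b hb
      obtain ⟨n, hn⟩ := hpow j 1 b hb
      exact (hP.mem_or_mem (hGP hn)).resolve_left (hjn n)
    obtain ⟨g, n, x, w, hg, het, hx1, hx2⟩ := (h j).coord P hP hj hFP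
    have hE := etale_mul (k := k) g (f j) x het
    refine ⟨g * f j, n, x, w, fun h => (hP.mem_or_mem h).elim hg hj, hE, fun d => ?_⟩
    let D := Localization.Away (g * f j)
    have hu : IsUnit (algebraMap B D (g * f j)) := IsLocalization.Away.algebraMap_isUnit _
    have hFL : (FL x w d).map (algebraMap B D) = Ideal.span {y | ∃ α : Fin n → ℕ,
        d ≤ ∑ i, α i * w i ∧ y = ∏ i, algebraMap B D (x i) ^ α i} := by
      unfold FL
      rw [Ideal.map_span]
      congr 1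
      ext y
      constructor
      · rintro ⟨_, ⟨α, h1, rfl⟩, rfl⟩
        exact ⟨α, h1, by rw [map_prod]; simp only [map_pow]⟩
      · rintro ⟨α, h1, rfl⟩
        exact ⟨_, ⟨α, h1, rfl⟩, by rw [map_prod]; simp only [map_pow]⟩
    rw [← hFL]
    apply le_antisymm
    · refine map_le_away hu fun b hb => ?_
      obtain ⟨m, hm⟩ := hx1 d b ((hmem d b).1 hb j)
      refine ⟨m, ?_⟩
      rw [mul_pow, mul_comm (g ^ m), mul_assoc]
      exact Ideal.mul_mem_left _ _ hm
    · refine map_le_away hu fun b hb => ?_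
      obtain ⟨m, hm⟩ := hx2 d b hb
      obtain ⟨m', hm'⟩ := hpow j d _ hm
      refine ⟨m + m', ?_⟩
      have e : (g * f j) ^ (m + m') * b = (g ^ m' * f j ^ m) * (f j ^ m' * (g ^ m * b)) := by ring
      rw [e]
      exact Ideal.mul_mem_left _ _ hm'
  · intro P hP hδP
    obtain ⟨j, hj⟩ := hcov P hP hδP
    refine le_trans ?_ ((h j).fix P hP hj hδP)
    intro b hb
    exact (hmem 1 b).1 hb j
  · intro d hd a ha
    -- passing to the global filtration
    have hLI : ∀ j m y, y ∈ LI (F j) δ l m → ∃ n : ℕ, f j ^ n * y ∈ LI G δ l m := by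
      intro j m y hy
      obtain ⟨y1, h1, y2, h2, rfl⟩ := Submodule.mem_sup.1 hy
      obtain ⟨n1, hn1⟩ := hpow j (m + 1) y1 h1
      have h3 : ∃ n : ℕ, f j ^ n * y2 ∈ LI G δ l m := by
        clear hy
        induction h2 using Submodule.span_induction with
        | mem z hz =>
          obtain ⟨e, c, hc, b, hb, rfl⟩ := hz
          obtain ⟨n2, hn2⟩ := hpow j _ c hc
          obtain ⟨n3, hn3⟩ := hpow j _ b hb
          refine ⟨n2 + n3, Submodule.mem_sup_right (Ideal.subset_span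
            ⟨e, f j ^ n2 * c, hn2, f j ^ n3 * b, hn3, ?_⟩)⟩
          rw [delta_pow_mul hδ (hf j)]
          ring
        | zero => exact ⟨0, by rw [mul_zero]; exact Ideal.zero_mem _⟩
        | add a b _ _ ha hb =>
          obtain ⟨n2, hn2⟩ := ha
          obtain ⟨n3, hn3⟩ := hb
          refine ⟨n2 + n3, ?_⟩
          have e : f j ^ (n2 + n3) * (a + b) = f j ^ n3 * (f j ^ n2 * a) +
            f j ^ n2 * (f j ^ n3 * b) := by ring
          rw [e]
          exact Ideal.add_mem _ (Ideal.mul_mem_left _ _ hn2) (Ideal.mul_mem_left _ _ hn3)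
        | smul r a _ ha =>
          obtain ⟨n2, hn2⟩ := ha
          refine ⟨n2, ?_⟩
          rw [smul_eq_mul, mul_left_comm]
          exact Ideal.mul_mem_left _ _ hn2
      obtain ⟨n2, hn2⟩ := h3
      refine ⟨n1 + n2, ?_⟩
      have e : f j ^ (n1 + n2) * (y1 + y2) = f j ^ n2 * (f j ^ n1 * y1) +
        f j ^ n1 * (f j ^ n2 * y2) := by ring
      rw [e]
      exact Ideal.add_mem _ (Ideal.mul_mem_left _ _ (Submodule.mem_sup_left hn1))
        (Ideal.mul_mem_left _ _ hn2)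
    have hj : ∀ j, ∃ N n : ℕ, f j ^ n * a ^ N ∈ LI G δ l (N * d) := by
      intro j
      obtain ⟨N, n, hN⟩ := (h j).lead d hd a ((hmem d a).1 ha j)
      obtain ⟨n', hn'⟩ := hLI j _ _ hN
      refine ⟨N, n' + n, ?_⟩
      rwa [pow_add, mul_assoc]
    choose N n hN using hj
    refine ⟨∑ j, N j, ?_⟩
    let M := ∑ j, N j
    let K : Ideal B := Submodule.comap (LinearMap.mulRight B (a ^ M)) (LI G δ l (M * d))
    have hK : ∀ g, g ∈ K ↔ g * a ^ M ∈ LI G δ l (M * d) := fun g => Iff.rfl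
    have hfK : ∀ j, f j ^ n j ∈ K := by
      intro j
      rw [hK]
      have h1 : N j ≤ M := Finset.single_le_sum (f := N) (fun _ _ => Nat.zero_le _)
        (Finset.mem_univ j)
      obtain ⟨c, hc⟩ := Nat.exists_eq_add_of_le h1
      have e : f j ^ n j * a ^ M = (f j ^ n j * a ^ N j) * a ^ c := by rw [hc]; ring
      rw [e, hc, Nat.add_mul]
      exact LI_mul hGf hdiv (hN j) (hGf.pow_mem ha c)
    have hK1 : K = ⊤ := by
      by_contra hcon
      obtain ⟨Q, hQ, hKQ⟩ := Ideal.exists_le_maximal K hcon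
      have hGQ : G 1 ≤ Q := by
        intro b hb
        refine hQ.isPrime.mem_of_pow_mem (M * d + 1) (hKQ ?_)
        rw [hK]
        refine Ideal.mul_mem_right _ _ (Submodule.mem_sup_left ?_)
        have h1 := hGf.pow_mem hb (M * d + 1)
        rwa [mul_one] at h1
      obtain ⟨j, hj⟩ := hcov Q hQ.isPrime (hδG Q hGQ)
      exact hj (hQ.isPrime.mem_of_pow_mem _ (hKQ (hfK j)))
    have h1 : (1 : B) ∈ K := by rw [hK1]; trivial
    rw [hK, one_mul] at h1
    exact h1

end glue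

end Pool.Agent.H208P
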