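import Pool.Agent.H208P.W

/-!
Weighted centres on localizations.
-/

set_option autoImplicit false
set_option linter.unusedSectionVars false

open MvPolynomial Pool.Agent.H920R2

universe u v

namespace Pool.Agent.H208P

section away

variable {k B : Type u} [Field k] [CommRing B] [Algebra k B]

lemma filt_comap' {B' : Type u} [CommRing B'] (g : B →+* B') {F : ℕ → Ideal B'} (hF : Filt F) :
    Filt (fun d => (F d).comap g) where
  zero := by rw [hF.zero, Ideal.comap_top]
  anti a b hab := Ideal.comap_mono (hF.anti a b hab)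
  mul a b := by
    rw [Ideal.mul_le]
    intro x hx y hy
    rw [Ideal.mem_comap, map_mul]
    exact hF.mul_mem hx hy

lemma mem_map_away' {f : B} {T : Type u} [CommRing T] [Algebra B T] [IsLocalization.Away f T]
    {I : Ideal B} {b : B} (h : algebraMap B T b ∈ I.map (algebraMap B T)) :
    ∃ n : ℕ, f ^ n * b ∈ I := by
  obtain ⟨⟨⟨i, hi⟩, s⟩, hs⟩ :=
    (IsLocalization.mem_map_algebraMap_iff (Submonoid.powers f) T).1 h
  obtain ⟨⟨_, n, rfl⟩, rfl⟩ : ∃ t : Submonoid.powers f, t = s := ⟨s, rfl⟩
  have h1 : algebraMap B T (b * f ^ n) = algebraMap B T i := by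
    rw [map_mul]
    exact hs
  obtain ⟨⟨_, m, rfl⟩, hc⟩ := (IsLocalization.eq_iff_exists (Submonoid.powers f) T).1 h1
  refine ⟨m + n, ?_⟩
  have h2 : f ^ (m + n) * b = f ^ m * (b * f ^ n) := by ring
  rw [h2]
  change f ^ m * (b * f ^ n) = f ^ m * i at hc
  rw [hc]
  exact Ideal.mul_mem_left _ _ hi

/-- Coordinates in the ring itself. -/
theorem exists_coord_away {p : ℕ} (hp : p.Prime) (hpk : (p : k) = 0) {g : B} {T : Type u}
    [CommRing T] [Algebra B T] [Algebra k T] [IsScalarTower k B T] [IsLocalization.Away g T]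
    (hft : Algebra.FiniteType k T) {n : ℕ} (y : Fin n → T)
    (hy : ((aeval y : MvPolynomial (Fin n) k →ₐ[k] T) : MvPolynomial (Fin n) k →+* T).Etale)
    {F : ℕ → Ideal B} {w : Fin n → ℕ}
    (hF : ∀ d, (F d).map (algebraMap B T) = Ideal.span {z | ∃ α : Fin n → ℕ,
      d ≤ ∑ i, α i * w i ∧ z = ∏ i, y i ^ α i}) :
    ∃ x : Fin n → B,
      ((aeval (fun i => algebraMap B (Localization.Away g) (x i)) :
        MvPolynomial (Fin n) k →ₐ[k] Localization.Away g) :
        MvPolynomial (Fin n) k →+* Localization.Away g).Etale ∧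
      (∀ d, ∀ b ∈ F d, ∃ m : ℕ, g ^ m * b ∈ FL x w d) ∧
      ∀ d, ∀ b ∈ FL x w d, ∃ m : ℕ, g ^ m * b ∈ F d := by
  have hu : IsUnit (algebraMap B T g) := IsLocalization.Away.algebraMap_isUnit g
  -- the denominators
  have hden : ∃ N : ℕ, ∀ i, ∃ b : B, algebraMap B T b = algebraMap B T g ^ N * y i := by
    have h2 : ∀ i, ∃ N : ℕ, ∃ b : B, algebraMap B T b = algebraMap B T g ^ N * y i := by
      intro i
      obtain ⟨N, b, hb⟩ := IsLocalization.Away.surj g (y i)
      exact ⟨N, b, by rw [← hb, mul_comm]⟩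
    choose N b hb using h2
    refine ⟨∑ i, N i, fun i => ?_⟩
    have h3 : N i ≤ ∑ i, N i := Finset.single_le_sum (fun _ _ => Nat.zero_le _) (Finset.mem_univ i)
    refine ⟨g ^ (∑ i, N i - N i) * b i, ?_⟩
    rw [map_mul, hb, map_pow, ← mul_assoc, ← pow_add, Nat.sub_add_cancel h3]
  obtain ⟨N, hN⟩ := hden
  have hN' : ∀ i, ∃ b : B, algebraMap B T b = (algebraMap B T g ^ N) ^ p * y i := by
    intro i
    obtain ⟨b, hb⟩ := hN i
    refine ⟨g ^ (N * (p - 1)) * b, ?_⟩
    rw [map_mul, hb, map_pow, ← mul_assoc, ← pow_add, ← pow_mul]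
    congr 2
    have := hp.one_lt
    obtain ⟨q, rfl⟩ : ∃ q, p = q + 1 := ⟨p - 1, by omega⟩
    rw [Nat.add_sub_cancel]
    ring
  choose x hx using hN'
  have huN : IsUnit (algebraMap B T g ^ N) := hu.pow N
  have h3 := etale_scale (k := k) hp hpk _ hy hft _ huN
  have h4 : (fun i => algebraMap B T (x i)) =
      fun i => (algebraMap B T g ^ N) ^ p * y i := funext hx
  rw [← h4] at h3
  refine ⟨x, ?_, ?_⟩
  · let e : T ≃ₐ[B] Localization.Away g :=
      IsLocalization.algEquiv (Submonoid.powers g) T _
    have h1 : ((MvPolynomial.aeval (fun c => algebraMap B (Localization.Away g) (x c)) :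
        MvPolynomial (Fin n) k →ₐ[k] Localization.Away g) :
          MvPolynomial (Fin n) k →+* Localization.Away g) =
        (e : T →+* Localization.Away g).comp
          ((MvPolynomial.aeval (fun c => algebraMap B T (x c)) :
            MvPolynomial (Fin n) k →ₐ[k] T) : MvPolynomial (Fin n) k →+* T) := by
      apply MvPolynomial.ringHom_ext
      · intro r
        change MvPolynomial.aeval _ (MvPolynomial.C r) =
          e (MvPolynomial.aeval _ (MvPolynomial.C r))
        rw [MvPolynomial.aeval_C, MvPolynomial.aeval_C,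
          IsScalarTower.algebraMap_apply k B T, e.commutes,
          ← IsScalarTower.algebraMap_apply]
      · intro c
        change MvPolynomial.aeval _ (MvPolynomial.X c) =
          e (MvPolynomial.aeval _ (MvPolynomial.X c))
        rw [MvPolynomial.aeval_X, MvPolynomial.aeval_X, e.commutes]
    rw [h1]
    exact RingHom.Etale.stableUnderComposition _ _ h3 (RingHom.Etale.of_bijective e.bijective)
  · have hFx : ∀ d, (F d).map (algebraMap B T) = (FL x w d).map (algebraMap B T) := by
      intro d
      rw [hF]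
      unfold FL
      rw [Ideal.map_span]
      have hmon : ∀ α : Fin n → ℕ, algebraMap B T (∏ i, x i ^ α i) =
          ((algebraMap B T g ^ N) ^ p) ^ (∑ i, α i) * ∏ i, y i ^ α i := by
        intro α
        rw [map_prod]
        simp only [map_pow, hx, mul_pow, Finset.prod_mul_distrib]
        rw [Finset.prod_pow_eq_pow_sum]
      have hunit : IsUnit ((algebraMap B T g ^ N) ^ p) := huN.pow p
      apply le_antisymm
      · rw [Ideal.span_le]
        rintro _ ⟨α, hα, rfl⟩
        rw [SetLike.mem_coe, ← Ideal.unit_mul_mem_iff_mem _ (hunit.pow (∑ i, α i)), ← hmon]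
        exact Ideal.subset_span ⟨_, ⟨α, hα, rfl⟩, rfl⟩
      · rw [Ideal.span_le]
        rintro _ ⟨_, ⟨α, hα, rfl⟩, rfl⟩
        rw [hmon]
        exact Ideal.mul_mem_left _ _ (Ideal.subset_span ⟨α, hα, rfl⟩)
    constructor
    · intro d b hb
      refine mem_map_away' (f := g) (T := T) ?_
      rw [← hFx]
      exact Ideal.mem_map_of_mem _ hb
    · intro d b hb
      refine mem_map_away' (f := g) (T := T) ?_
      rw [hFx]
      exact Ideal.mem_map_of_mem _ hb

end away

section loc

variable {k B : Type u} [Field k] [CommRing B] [Algebra k B] {δ : B → B} {ε : B} {l : ℕ}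

/-- A centre on a localization. -/
theorem loc_of_centre [IsDomain B] {p : ℕ} (hp : p.Prime) (hpk : (p : k) = 0) {f : B}
    (hf0 : f ≠ 0) (hfδ : δ f = 0) (hsm : Algebra.Smooth k (Localization.Away f))
    {δ' : Localization.Away f → Localization.Away f} {ε' : Localization.Away f}
    (hδ' : TD k δ' ε')
    (hc : ∀ b, δ' (algebraMap B (Localization.Away f) b) =
      algebraMap B (Localization.Away f) (δ b))
    {F : ℕ → Ideal (Localization.Away f)} (hR : RegularWeightedCentre k F)
    (hnd : Nondeg F δ' l) :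
    Loc k δ l f (fun d => (F d).comap (algebraMap B (Localization.Away f))) := by
  classical
  let D := Localization.Away f
  have hpow0 : Submonoid.powers f ≤ nonZeroDivisors B :=
    powers_le_nonZeroDivisors_of_noZeroDivisors hf0
  have _ : IsDomain D := IsLocalization.isDomain_localization hpow0
  have hinj : Function.Injective (algebraMap B D) := IsLocalization.injective D hpow0
  have hu : IsUnit (algebraMap B D f) := IsLocalization.Away.algebraMap_isUnit f
  have hFf : Filt F := Filt.of_centre hR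
  have hu0 : δ' (algebraMap B D f) = 0 := by rw [hc, hfδ, map_zero]
  have hnum : ∀ y : D, ∃ (n : ℕ) (b : B), algebraMap B D b = algebraMap B D f ^ n * y := by
    intro y
    obtain ⟨N, b, hb⟩ := IsLocalization.Away.surj f y
    exact ⟨N, b, by rw [← hb, mul_comm]⟩
  have hprime : ∀ P : Ideal B, P.IsPrime → f ∉ P →
      (P.map (algebraMap B D)).IsPrime ∧ ∀ b, algebraMap B D b ∈ P.map (algebraMap B D) → b ∈ P := by
    intro P hP hfP
    have hdis : Disjoint (Submonoid.powers f : Set B) (P : Set B) := by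
      rw [Set.disjoint_left]
      rintro _ ⟨n, rfl⟩ h
      exact hfP (hP.mem_of_pow_mem n h)
    refine ⟨IsLocalization.isPrime_of_isPrime_disjoint (Submonoid.powers f) D P hP hdis, ?_⟩
    intro b hb
    obtain ⟨n, hn⟩ := mem_map_away' (f := f) (T := D) hb
    exact (hP.mem_or_mem hn).resolve_left fun h => hfP (hP.mem_of_pow_mem n h)
  refine ⟨filt_comap' _ hFf, ?_, ?_, ?_, ?_, ?_, ?_⟩
  · intro d b hb
    rw [Ideal.mem_comap, map_mul] at hb
    exact (Ideal.unit_mul_mem_iff_mem _ hu).1 hb
  · intro d a ha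
    rw [Ideal.mem_comap] at ha ⊢
    rw [← hc]
    exact hnd.div d _ ha
  · intro N m a hN ha
    rw [Ideal.mem_comap, map_pow] at ha
    exact pow_reg hR hN ha
  · intro P hP hfP hδP
    obtain ⟨hPp, hPc⟩ := hprime P hP hfP
    have h1 := hnd.fix _ hPp (fun y => by
      obtain ⟨n, b, hb⟩ := hnum y
      rw [← Ideal.unit_mul_mem_iff_mem _ (hu.pow n), ← delta_pow_mul hδ' hu0 n y, ← hb, hc]
      exact Ideal.mem_map_of_mem _ (hδP b))
    intro b hb
    exact hPc b (h1 hb)
  · intro d hd a ha
    obtain ⟨N, hN⟩ := hnd.lead d hd _ ha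
    have key : ∀ m (y : D), y ∈ LI F δ' l m → ∃ (n : ℕ) (b : B),
        algebraMap B D b = algebraMap B D f ^ n * y ∧
        b ∈ LI (fun d => (F d).comap (algebraMap B D)) δ l m := by
      intro m y hy
      obtain ⟨y1, h1, y2, h2, rfl⟩ := Submodule.mem_sup.1 hy
      obtain ⟨n1, b1, hb1⟩ := hnum y1
      have h3 : ∃ (n : ℕ) (b : B), algebraMap B D b = algebraMap B D f ^ n * y2 ∧
          b ∈ LI (fun d => (F d).comap (algebraMap B D)) δ l m := by
        clear hy
        induction h2 using Submodule.span_induction with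
        | mem z hz =>
          obtain ⟨e, c, hcF, b, hbF, rfl⟩ := hz
          obtain ⟨n2, c0, hc0⟩ := hnum c
          obtain ⟨n3, b0, hb0⟩ := hnum b
          refine ⟨n2 + n3, b0 * δ c0, ?_, Submodule.mem_sup_right (Ideal.subset_span
            ⟨e, c0, ?_, b0, ?_, rfl⟩)⟩
          · rw [map_mul, ← hc, hc0, hb0, delta_pow_mul hδ' hu0]
            ring
          · rw [Ideal.mem_comap, hc0]
            exact Ideal.mul_mem_left _ _ hcF
          · rw [Ideal.mem_comap, hb0]
            exact Ideal.mul_mem_left _ _ hbF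
        | zero => exact ⟨0, 0, by rw [mul_zero, map_zero], Ideal.zero_mem _⟩
        | add a b _ _ ha hb =>
          obtain ⟨n2, a0, ha0, ha1⟩ := ha
          obtain ⟨n3, b0, hb0, hb1⟩ := hb
          refine ⟨n2 + n3, f ^ n3 * a0 + f ^ n2 * b0, ?_,
            Ideal.add_mem _ (Ideal.mul_mem_left _ _ ha1) (Ideal.mul_mem_left _ _ hb1)⟩
          rw [map_add, map_mul, map_mul, map_pow, map_pow, ha0, hb0]
          ring
        | smul r a _ ha =>
          obtain ⟨n2, a0, ha0, ha1⟩ := ha
          obtain ⟨n3, r0, hr0⟩ := hnum r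
          refine ⟨n3 + n2, r0 * a0, ?_, Ideal.mul_mem_left _ _ ha1⟩
          rw [map_mul, hr0, ha0, smul_eq_mul]
          ring
      obtain ⟨n2, b2, hb2, hb2'⟩ := h3
      refine ⟨n1 + n2, f ^ n2 * b1 + f ^ n1 * b2, ?_, Ideal.add_mem _
        (Ideal.mul_mem_left _ _ (Submodule.mem_sup_left ?_)) (Ideal.mul_mem_left _ _ hb2')⟩
      · rw [map_add, map_mul, map_mul, map_pow, map_pow, hb1, hb2]
        ring
      · rw [Ideal.mem_comap, hb1]
        exact Ideal.mul_mem_left _ _ h1
    obtain ⟨n, b, hb, hb'⟩ := key _ _ hN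
    refine ⟨N, n, ?_⟩
    have h1 : b = f ^ n * a ^ N := by
      apply hinj
      rw [hb, map_mul, map_pow, map_pow]
    rw [← h1]
    exact hb'
  · intro P hP hfP hFP
    obtain ⟨hPp, hPc⟩ := hprime P hP hfP
    have hFP' : F 1 ≤ P.map (algebraMap B D) := by
      intro y hy
      obtain ⟨n, b, hb⟩ := hnum y
      rw [← Ideal.unit_mul_mem_iff_mem _ (hu.pow n), ← hb]
      refine Ideal.mem_map_of_mem _ (hFP ?_)
      rw [Ideal.mem_comap, hb]
      exact Ideal.mul_mem_left _ _ hy
    obtain ⟨g', n, x', w, hg', het, hspan⟩ := hR.coord _ hPp hFP'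
    obtain ⟨c, g0, hg0⟩ := hnum g'
    have hg0P : g0 ∉ P := by
      intro h
      apply hg'
      rw [← Ideal.unit_mul_mem_iff_mem _ (hu.pow c), ← hg0]
      exact Ideal.mem_map_of_mem _ h
    let T := Localization.Away g'
    have hass : Associated g' (algebraMap B D g0) := by
      rw [hg0]
      exact ⟨(hu.pow c).unit, by rw [mul_comm]; rfl⟩
    have _ : IsLocalization.Away (algebraMap B D g0) T := IsLocalization.Away.of_associated hass
    have _ : IsLocalization.Away (f * g0) T := IsLocalization.Away.mul' D T f g0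
    have hft : Algebra.FiniteType k T := by
      have _ : Algebra.FiniteType D T :=
        IsLocalization.finiteType_of_monoid_fg (Submonoid.powers g') _
      have _ : Algebra.FiniteType k D := inferInstance
      exact Algebra.FiniteType.trans (S := D) inferInstance inferInstance
    obtain ⟨x, hx1, hx2, hx3⟩ := exists_coord_away (B := B) (T := T) (g := f * g0) hp hpk hft
      (fun i => algebraMap D T (x' i)) het
      (F := fun d => (F d).comap (algebraMap B D)) (w := w) (by
        intro d
        rw [← hspan, IsScalarTower.algebraMap_eq B D T, ← Ideal.map_map]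
        congr 1
        exact IsLocalization.map_under (Submonoid.powers f) D (F d))
    exact ⟨f * g0, n, x, w, fun h => (hP.mem_or_mem h).elim hfP hg0P, hx1, hx2, hx3⟩

end loc

end Pool.Agent.H208P
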