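import Pool.Agent.H208P.X

/-!
Étale pullback of weighted centres; weighted centres from local ones.
-/

set_option autoImplicit false
set_option linter.unusedSectionVars false

open MvPolynomial Pool.Agent.H920R2 TensorProduct

universe u v

namespace Pool.Agent.H208P

section scale

variable {k B : Type u} [Field k] [CommRing B] [Algebra k B] {δ : B → B} {ε : B} {l : ℕ}

/-- Multiplication of the weights. -/
lemma hasCentre_scale (hδ : TD k δ ε) (hfB : Algebra.FiniteType k B) (h : HasCentre k δ l)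
    {r : ℕ} (hr : 1 ≤ r) : HasCentre k δ (r * l) := by
  have hj : IsCoprod k (fun _ : Unit => AlgHom.id k B) := by
    constructor
    · intro S _ _ f
      exact ⟨f (), fun i a => rfl⟩
    · intro S _ _ g g' hg
      apply AlgHom.ext
      intro a
      exact hg () a
  exact hasCentre_prod hj hfB (fun _ => Function.injective_id) (l := fun _ => l) (fun _ => h)
    (w := fun _ => r) (fun _ => hr) (fun _ => rfl) hδ (fun _ _ => rfl)

end scale

section etale

variable {k A D : Type u} [Field k] [CommRing A] [Algebra k A] [CommRing D] [Algebra k D]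
  (φ : A →ₐ[k] D)

/-- Étale pullback of a regular weighted centre. -/
theorem centre_etale (hφ : (φ : A →+* D).Etale) {F : ℕ → Ideal A}
    (hF : RegularWeightedCentre k F) :
    RegularWeightedCentre k (fun d => (F d).map (φ : A →+* D)) := by
  refine ⟨?_, ?_, ?_, ?_⟩
  · change (F 0).map (φ : A →+* D) = ⊤
    rw [hF.zero, Ideal.map_top]
  · intro a b hab
    exact Ideal.map_mono (hF.anti a b hab)
  · intro a b
    rw [← Ideal.map_mul]
    exact Ideal.map_mono (hF.mul a b)
  · intro Q hQ hFQ
    obtain ⟨f, n, x, w, hf, het, hspan⟩ := hF.coord (Q.comap (φ : A →+* D)) (hQ.comap _)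
      (Ideal.map_le_iff_le_comap.1 hFQ)
    let A' := Localization.Away f
    let D' := Localization.Away (φ f)
    have _ : IsLocalization.Away ((φ : A →+* D) f) D' := inferInstanceAs
      (IsLocalization.Away (φ f) D')
    let ψ : A' →+* D' := IsLocalization.Away.map A' D' (φ : A →+* D) f
    have hψ : ∀ a, ψ (algebraMap A A' a) = algebraMap D D' (φ a) := fun a =>
      IsLocalization.map_eq _ a
    have hψE : ψ.Etale :=
      RingHom.Etale.propertyIsLocal.localizationAwayPreserves (φ : A →+* D) f A' D' hφ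
    have hcomp : ((aeval (fun i => algebraMap D D' (φ (x i))) : MvPolynomial (Fin n) k →ₐ[k] D') :
        MvPolynomial (Fin n) k →+* D') = ψ.comp
        ((aeval (fun i => algebraMap A A' (x i)) : MvPolynomial (Fin n) k →ₐ[k] A') :
          MvPolynomial (Fin n) k →+* A') := by
      apply MvPolynomial.ringHom_ext
      · intro r
        change aeval _ (C r) = ψ (aeval _ (C r))
        rw [aeval_C, aeval_C, IsScalarTower.algebraMap_apply k A A', hψ, AlgHom.commutes,
          ← IsScalarTower.algebraMap_apply]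
      · intro i
        change aeval _ (X i) = ψ (aeval _ (X i))
        rw [aeval_X, aeval_X, hψ]
    refine ⟨φ f, n, fun i => φ (x i), w, hf, ?_, ?_⟩
    · rw [hcomp]
      exact RingHom.Etale.stableUnderComposition _ _ het hψE
    · intro d
      have h1 : (algebraMap D D').comp (φ : A →+* D) = ψ.comp (algebraMap A A') := by
        ext a
        exact (hψ a).symm
      change ((F d).map (φ : A →+* D)).map (algebraMap D D') = _
      rw [Ideal.map_map, h1, ← Ideal.map_map, hspan, Ideal.map_span]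
      congr 1
      ext y
      constructor
      · rintro ⟨_, ⟨α, h2, rfl⟩, rfl⟩
        refine ⟨α, h2, ?_⟩
        rw [map_prod]
        refine Finset.prod_congr rfl fun i _ => ?_
        rw [map_pow]
        exact congrArg (· ^ α i) (hψ (x i))
      · rintro ⟨α, h2, rfl⟩
        refine ⟨_, ⟨α, h2, rfl⟩, ?_⟩
        rw [map_prod]
        refine Finset.prod_congr rfl fun i _ => ?_
        rw [map_pow]
        exact congrArg (· ^ α i) (hψ (x i))

/-- Étale pullback of a nondegenerate leading form. -/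
theorem nondeg_etale {F : ℕ → Ideal A} (hF : Filt F) {δ : A → A} {l : ℕ} (h : Nondeg F δ l)
    {δ' : D → D} {ε' : D} (hδ' : TD k δ' ε') (hc : ∀ a, δ' (φ a) = φ (δ a))
    (hr : ∀ y, δ' y ∈ (F l).map (φ : A →+* D)) :
    Nondeg (fun d => (F d).map (φ : A →+* D)) δ' l := by
  have hF' : Filt (fun d => (F d).map (φ : A →+* D)) := by
    refine ⟨?_, ?_, ?_⟩
    · change (F 0).map (φ : A →+* D) = ⊤
      rw [hF.zero, Ideal.map_top]
    · intro a b hab
      exact Ideal.map_mono (hF.anti a b hab)
    · intro a b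
      rw [← Ideal.map_mul]
      exact Ideal.map_mono (hF.mul a b)
  have hdiv : ∀ d, ∀ a ∈ (F d).map (φ : A →+* D), δ' a ∈ (F (d + l)).map (φ : A →+* D) := by
    intro d a ha
    have key : a ∈ (F d).map (φ : A →+* D) ∧ δ' a ∈ (F (d + l)).map (φ : A →+* D) := by
      unfold Ideal.map at ha
      induction ha using Submodule.span_induction with
      | mem z hz =>
        obtain ⟨b, hb, rfl⟩ := hz
        refine ⟨Ideal.mem_map_of_mem _ hb, ?_⟩
        change δ' (φ b) ∈ _
        rw [hc]
        exact Ideal.mem_map_of_mem _ (h.div d b hb)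
      | zero => exact ⟨Ideal.zero_mem _, by rw [hδ'.zero]; exact Ideal.zero_mem _⟩
      | add a b _ _ ha hb =>
        exact ⟨Ideal.add_mem _ ha.1 hb.1, by rw [hδ'.add]; exact Ideal.add_mem _ ha.2 hb.2⟩
      | smul r a _ ha =>
        refine ⟨Ideal.mul_mem_left _ _ ha.1, ?_⟩
        rw [smul_eq_mul, hδ'.mul]
        exact Ideal.add_mem _ (Ideal.add_mem _ (Ideal.mul_mem_left _ _ ha.2)
          (hF'.mul_mem ha.1 (hr r))) (Ideal.mul_mem_left _ _ (Ideal.mul_mem_left _ _ ha.2))
    exact key.2
  refine ⟨hdiv, ?_, ?_⟩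
  · intro Q hQ hQδ
    rw [Ideal.map_le_iff_le_comap]
    refine h.fix _ (hQ.comap _) fun a => ?_
    rw [Ideal.mem_comap]
    change φ (δ a) ∈ Q
    rw [← hc]
    exact hQδ _
  · intro d hd a ha
    refine lead_span hF' hdiv (X := (φ : A →+* D) '' (F d : Set A)) rfl ?_ ha
    rintro _ ⟨b, hb, rfl⟩
    obtain ⟨N, hN⟩ := h.lead d hd b hb
    refine ⟨N, ?_⟩
    change φ b ^ N ∈ _
    rw [← map_pow]
    obtain ⟨x1, hx1, x2, hx2, hx⟩ := Submodule.mem_sup.1 hN
    rw [← hx, map_add]
    refine Ideal.add_mem _ (Submodule.mem_sup_left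
      (Ideal.mem_map_of_mem (φ : A →+* D) hx1)) ?_
    clear hx hx1 hN
    induction hx2 using Submodule.span_induction with
    | mem z hz =>
      obtain ⟨e, c, hcF, b, hbF, rfl⟩ := hz
      refine Submodule.mem_sup_right (Ideal.subset_span ⟨e, φ c,
        Ideal.mem_map_of_mem (φ : A →+* D) hcF, φ b, Ideal.mem_map_of_mem (φ : A →+* D) hbF, ?_⟩)
      rw [map_mul, hc]
    | zero => rw [map_zero]; exact Ideal.zero_mem _
    | add a b _ _ ha hb => rw [map_add]; exact Ideal.add_mem _ ha hb
    | smul r a _ ha => rw [smul_eq_mul, map_mul]; exact Ideal.mul_mem_left _ _ ha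

end etale

section shrink

variable {k A B : Type u} [Field k] [CommRing A] [Algebra k A] [CommRing B] [Algebra k B]

/-- Two étale sections which agree at a point agree near it. -/
theorem exists_shrink (φ : A →ₐ[k] B) (hφ : (φ : A →+* B).Etale) (σ : B ≃ₐ[k] B) (τ : A ≃ₐ[k] A)
    (hc : ∀ a, σ (φ a) = φ (τ a)) (J : Ideal B) (hJ : ∀ a, φ (τ a - a) ∈ J) {P : Ideal B}
    (hP : P.IsPrime) (hσP : ∀ b, σ b - b ∈ P) (hJP : J ≤ P) :
    ∃ f, f ∉ P ∧ ∀ b, f * (σ b - b) ∈ J := by
  let _ : Algebra A B := (φ : A →+* B).toAlgebra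
  have hE : Algebra.Etale A B := hφ
  have hAB : ∀ a, algebraMap A B a = φ a := fun a => rfl
  obtain ⟨t, ht, ht1⟩ := Algebra.FormallyUnramified.iff_exists_tensorProduct.1
    (inferInstance : Algebra.FormallyUnramified A B)
  let ψ1 : B →ₐ[A] B ⧸ J := Ideal.Quotient.mkₐ A J
  let ψ2 : B →ₐ[A] B ⧸ J :=
    { toRingHom := (Ideal.Quotient.mk J).comp (σ : B →+* B)
      commutes' := fun a => by
        change Ideal.Quotient.mk J (σ (algebraMap A B a)) = Ideal.Quotient.mk J (algebraMap A B a)
        rw [hAB, hc, Ideal.Quotient.mk_eq_mk_iff_sub_mem, ← map_sub]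
        exact hJ a }
  let T : B ⊗[A] B →ₐ[A] B ⧸ J := Algebra.TensorProduct.productMap ψ1 ψ2
  obtain ⟨f, hf⟩ := Ideal.Quotient.mk_surjective (I := J) (T t)
  refine ⟨f, ?_, ?_⟩
  · intro hfP
    let π : B ⧸ J →+* B ⧸ P := Ideal.Quotient.factor hJP
    have h1 : π.comp (T : B ⊗[A] B →+* B ⧸ J) = (Ideal.Quotient.mk P).comp
        (Algebra.TensorProduct.lmul' A : B ⊗[A] B →ₐ[A] B).toRingHom := by
      apply Algebra.TensorProduct.ringHom_ext
      · ext b
        change π (T (b ⊗ₜ[A] 1)) = Ideal.Quotient.mk P (Algebra.TensorProduct.lmul' A (b ⊗ₜ[A] 1))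
        rw [Algebra.TensorProduct.productMap_apply_tmul, Algebra.TensorProduct.lmul'_apply_tmul,
          map_one, mul_one, mul_one]
        rfl
      · ext b
        change π (T (1 ⊗ₜ[A] b)) = Ideal.Quotient.mk P (Algebra.TensorProduct.lmul' A (1 ⊗ₜ[A] b))
        rw [Algebra.TensorProduct.productMap_apply_tmul, Algebra.TensorProduct.lmul'_apply_tmul,
          map_one, one_mul, one_mul]
        change Ideal.Quotient.mk P (σ b) = Ideal.Quotient.mk P b
        rw [Ideal.Quotient.mk_eq_mk_iff_sub_mem]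
        exact hσP b
    have h2 := congrArg (fun g : B ⊗[A] B →+* B ⧸ P => g t) h1
    change π (T t) = Ideal.Quotient.mk P (Algebra.TensorProduct.lmul' A t) at h2
    rw [ht1, map_one, ← hf] at h2
    change Ideal.Quotient.mk P f = 1 at h2
    rw [Ideal.Quotient.eq_zero_iff_mem.2 hfP] at h2
    have _ : Nontrivial (B ⧸ P) := Ideal.Quotient.nontrivial_iff.2 hP.ne_top
    exact zero_ne_one h2
  · intro b
    rw [← Ideal.Quotient.eq_zero_iff_mem, map_mul, map_sub, hf]
    have h1 := congrArg T (ht b)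
    rw [map_mul, map_zero, map_sub, Algebra.TensorProduct.productMap_apply_tmul,
      Algebra.TensorProduct.productMap_apply_tmul, map_one, map_one, one_mul, mul_one] at h1
    rw [mul_comm]
    exact h1

end shrink

section glue

variable {k B : Type u} [Field k] [CommRing B] [IsDomain B] [Algebra k B]

lemma smooth_away [Algebra.Smooth k B] (f : B) : Algebra.Smooth k (Localization.Away f) := by
  have _ : Algebra.Etale B (Localization.Away f) := Algebra.Etale.of_isLocalizationAway f
  exact Algebra.Smooth.comp k B (Localization.Away f)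

/-- **Weighted centres from local ones.** -/
theorem hasCentre_glue {p : ℕ} (hp : p.Prime) (hpk : (p : k) = 0) [Algebra.Smooth k B]
    (σ : B ≃ₐ[k] B)
    (h : ∀ P : Ideal B, P.IsPrime → (∀ b, σ b - b ∈ P) → ∃ f, f ∉ P ∧ σ f = f ∧
      ∃ τ : Localization.Away f ≃ₐ[k] Localization.Away f,
        (∀ b, τ (algebraMap B _ b) = algebraMap B _ (σ b)) ∧
        ∃ l, 0 < l ∧ HasCentre k (fun y => τ y - y) l) :
    ∃ l, 0 < l ∧ HasCentre k (fun b => σ b - b) l := by
  classical
  let good : Set B := {f | f ≠ 0 ∧ σ f = f ∧ ∃ τ : Localization.Away f ≃ₐ[k] Localization.Away f,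
        (∀ b, τ (algebraMap B _ b) = algebraMap B _ (σ b)) ∧
        ∃ l, 0 < l ∧ HasCentre k (fun y => τ y - y) l}
  let I : Ideal B := Ideal.span {x | ∃ b, x = σ b - b}
  have htop : I ⊔ Ideal.span good = ⊤ := by
    by_contra hcon
    obtain ⟨M, hM, hle⟩ := Ideal.exists_le_maximal _ hcon
    obtain ⟨f, hf, hf1, hf2⟩ := h M hM.isPrime fun b =>
      hle (Submodule.mem_sup_left (Ideal.subset_span ⟨b, rfl⟩))
    refine hf (hle (Submodule.mem_sup_right (Ideal.subset_span ⟨?_, hf1, hf2⟩)))
    rintro rfl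
    exact hf (Ideal.zero_mem _)
  have h1 : (1 : B) ∈ I ⊔ Ideal.span good := by rw [htop]; trivial
  obtain ⟨a, ha, b, hb, hab⟩ := Submodule.mem_sup.1 h1
  obtain ⟨s, hs, hbs⟩ := Submodule.mem_span_finite_of_mem_span hb
  let e : Fin s.card ≃ s := s.equivFin.symm
  let f : Fin s.card → B := fun i => (e i : B)
  have hfgood : ∀ i, f i ∈ good := fun i => hs (e i).2
  have hcov : ∀ P : Ideal B, P.IsPrime → (∀ c, σ c - c ∈ P) → ∃ i, f i ∉ P := by
    intro P hP hδP
    by_contra hcon
    push Not at hcon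
    apply hP.ne_top
    rw [Ideal.eq_top_iff_one, ← hab]
    refine Ideal.add_mem _ ?_ ?_
    · refine (Ideal.span_le.2 ?_ : I ≤ P) ha
      rintro _ ⟨c, rfl⟩
      exact hδP c
    · refine (Ideal.span_le.2 ?_ : Ideal.span (s : Set B) ≤ P) hbs
      intro x hx
      have h2 := hcon (e.symm ⟨x, hx⟩)
      change ((e (e.symm ⟨x, hx⟩) : s) : B) ∈ P at h2
      rwa [e.apply_symm_apply] at h2
  choose hf0 hfσ τ hτ l hl hc using hfgood
  obtain ⟨w, L, hL0, hw, hL⟩ := exists_weights l hl
  have hsm : ∀ i, Algebra.Smooth k (Localization.Away (f i)) := fun i => smooth_away (f i)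
  have hcL : ∀ i, HasCentre k (fun y => τ i y - y) L := by
    intro i
    have _ := hsm i
    rw [← hL i]
    exact hasCentre_scale (δ := fun y => τ i y - y)
      (td_aut ((τ i) : Localization.Away (f i) →ₐ[k] Localization.Away (f i)))
      inferInstance (hc i) (hw i)
  choose F hR hbot hnd using hcL
  have hloc : ∀ i, Loc k (fun b => σ b - b) L (f i)
      (fun d => (F i d).comap (algebraMap B (Localization.Away (f i)))) := by
    intro i
    refine loc_of_centre (δ := fun b => σ b - b) hp hpk (hf0 i) (sub_eq_zero.2 (hfσ i)) (hsm i)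
      (td_aut ((τ i) : Localization.Away (f i) →ₐ[k] Localization.Away (f i))) ?_ (hR i) (hnd i)
    intro b
    change τ i (algebraMap B _ b) - algebraMap B _ b = algebraMap B _ (σ b - b)
    rw [hτ, map_sub]
  obtain ⟨hR', hnd'⟩ := glue (td_aut (σ : B →ₐ[k] B)) hL0 f (fun i => sub_eq_zero.2 (hfσ i)) _
    hloc hcov
  refine ⟨L, hL0, _, hR', ?_, hnd'⟩
  intro hbot' b
  have h2 := hnd'.div 0 b (by rw [hR'.zero]; trivial)
  have h3 := hR'.anti 1 (0 + L) (by omega) h2
  rw [hbot'] at h3
  exact h3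

end glue

end Pool.Agent.H208P
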