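import Pool.Agent.H208P.Y
import Pool.Agent.H208P.V

/-!
Étale pullback; a class of actions with weighted centres.
-/

set_option autoImplicit false
set_option linter.unusedSectionVars false

open MvPolynomial Pool.Agent.H920R2 TensorProduct

universe u v

namespace Pool.Agent.H208P

section etale

variable {k A B : Type u} [Field k] [CommRing A] [Algebra k A] [CommRing B] [Algebra k B]

/-- The extension of an automorphism to a localization. -/
lemma exists_aut_away {f : B} {σ : B ≃ₐ[k] B} (hf : σ f = f) :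
    ∃ τ : Localization.Away f ≃ₐ[k] Localization.Away f,
      ∀ b, τ (algebraMap B _ b) = algebraMap B _ (σ b) := by
  have H : Submonoid.map σ (Submonoid.powers f) = Submonoid.powers f := by
    rw [Submonoid.map_powers, hf]
  exact ⟨IsLocalization.algEquivOfAlgEquiv (Localization.Away f) (Localization.Away f) σ H,
    fun b => IsLocalization.algEquivOfAlgEquiv_eq H b⟩

/-- **Étale pullback.** -/
theorem hasCentre_of_etale [IsDomain B] [Algebra.Smooth k B] {p : ℕ} (hp : p.Prime)
    (hpk : (p : k) = 0) (φ : A →ₐ[k] B) (hφ : (φ : A →+* B).Etale) (σ : B ≃ₐ[k] B)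
    (hσ : ∀ b, σ^[p] b = b) (τ : A ≃ₐ[k] A) (hc : ∀ a, σ (φ a) = φ (τ a)) {l : ℕ} (hl : 0 < l)
    (h : HasCentre k (fun a => τ a - a) l) :
    ∃ l, 0 < l ∧ HasCentre k (fun b => σ b - b) l := by
  classical
  obtain ⟨F, hR, -, hnd⟩ := h
  have hFf : Filt F := Filt.of_centre hR
  refine hasCentre_glue hp hpk σ fun P hP hσP => ?_
  have hJ : ∀ a, φ (τ a - a) ∈ (F l).map (φ : A →+* B) := by
    intro a
    have h1 := hnd.div 0 a (hFf.mem0 a)
    rw [Nat.zero_add] at h1
    exact Ideal.mem_map_of_mem (φ : A →+* B) h1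
  have hJP : (F l).map (φ : A →+* B) ≤ P := by
    rw [Ideal.map_le_iff_le_comap]
    refine (hFf.anti _ _ hl).trans (hnd.fix _ (hP.comap _) fun a => ?_)
    rw [Ideal.mem_comap]
    change φ (τ a - a) ∈ P
    rw [map_sub, ← hc]
    exact hσP _
  obtain ⟨f0, hf0, hf0J⟩ := exists_shrink φ hφ σ τ hc _ hJ hP hσP hJP
  -- an invariant function
  let f : B := H920R2.nrm σ p f0
  have hσf : σ f = f := map_nrm σ p hσ f0
  have hiter : ∀ (i : ℕ) (b : B), σ^[i] b - b ∈ P := by
    intro i b
    induction i with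
    | zero => rw [Function.iterate_zero, id, sub_self]; exact Ideal.zero_mem _
    | succ i ih =>
      rw [Function.iterate_succ_apply']
      have e : σ (σ^[i] b) - b = (σ (σ^[i] b) - σ^[i] b) + (σ^[i] b - b) := by ring
      rw [e]
      exact Ideal.add_mem _ (hσP _) ih
  have hfP : f ∉ P := by
    intro hf
    change ∏ i ∈ Finset.range p, σ^[i] f0 ∈ P at hf
    obtain ⟨i, -, hi⟩ := (Ideal.IsPrime.prod_mem_iff).1 hf
    apply hf0
    have h1 := Ideal.sub_mem _ hi (hiter i f0)
    rwa [sub_sub_cancel] at h1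
  have hfJ : ∀ b, f * (σ b - b) ∈ (F l).map (φ : A →+* B) := by
    intro b
    obtain ⟨q, hq⟩ : ∃ q, p = q + 1 := ⟨p - 1, by have := hp.pos; omega⟩
    have h1 : f = (∏ i ∈ Finset.range q, σ^[i + 1] f0) * f0 := by
      change H920R2.nrm σ p f0 = _
      rw [hq, nrm_succ']
    rw [h1, mul_assoc]
    exact Ideal.mul_mem_left _ _ (hf0J b)
  obtain ⟨ρ, hρ⟩ := exists_aut_away (k := k) hσf
  refine ⟨f, hfP, hσf, ρ, hρ, l, hl, ?_⟩
  let D := Localization.Away f
  let ib : B →ₐ[k] D := IsScalarTower.toAlgHom k B D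
  have hib : ∀ b, ib b = algebraMap B D b := fun b => rfl
  let ψ : A →ₐ[k] D := ib.comp φ
  have hψ : (ψ : A →+* D).Etale := by
    have _ : Algebra.Etale B D := Algebra.Etale.of_isLocalizationAway f
    exact RingHom.Etale.stableUnderComposition _ _ hφ
      (RingHom.etale_algebraMap.2 (inferInstance : Algebra.Etale B D))
  have hu : IsUnit (algebraMap B D f) := IsLocalization.Away.algebraMap_isUnit f
  have hTD := td_aut (k := k) (ρ : D →ₐ[k] D)
  have hu0 : ρ (algebraMap B D f) - algebraMap B D f = 0 := by rw [hρ, hσf, sub_self]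
  have hcψ : ∀ a, ρ (ψ a) - ψ a = ψ (τ a - a) := by
    intro a
    change ρ (algebraMap B D (φ a)) - algebraMap B D (φ a) = algebraMap B D (φ (τ a - a))
    rw [hρ, hc, map_sub, map_sub]
  have hmapψ : (F l).map (ψ : A →+* D) = ((F l).map (φ : A →+* B)).map (algebraMap B D) := by
    rw [Ideal.map_map]
    rfl
  have hr : ∀ y, ρ y - y ∈ (F l).map (ψ : A →+* D) := by
    intro y
    obtain ⟨n, b, hb⟩ := IsLocalization.Away.surj f y
    have h1 : (fun y => ρ y - y) (algebraMap B D f ^ n * y) =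
        algebraMap B D f ^ n * (ρ y - y) := delta_pow_mul hTD hu0 n y
    have h2 : algebraMap B D f ^ n * y = algebraMap B D b := by rw [mul_comm]; exact hb
    rw [h2] at h1
    change ρ (algebraMap B D b) - algebraMap B D b = _ at h1
    rw [hρ, ← map_sub] at h1
    rw [← Ideal.unit_mul_mem_iff_mem _ (hu.pow n), ← h1, hmapψ,
      ← Ideal.unit_mul_mem_iff_mem _ hu, ← map_mul]
    exact Ideal.mem_map_of_mem _ (hfJ b)
  refine ⟨_, centre_etale ψ hψ hR, ?_, nondeg_etale ψ hFf hnd hTD hcψ hr⟩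
  intro hbot y
  have h1 : (F l).map (ψ : A →+* D) ≤ (F 1).map (ψ : A →+* D) := Ideal.map_mono (hFf.anti _ _ hl)
  have h2 := h1 (hr y)
  change ρ y - y = 0
  change (F 1).map (ψ : A →+* D) = ⊥ at hbot
  rw [hbot] at h2
  exact h2

end etale

/-- The least class of pairs of a `k`-algebra and a `k`-automorphism which contains: the
automorphisms `σ` with `σ ^ p = 1` of smooth curves; the linear automorphisms of affine space with
`p`-th power one; the identity of smooth varieties; the automorphisms `σ` for which `σ - 1` has a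
centre of positive weight; and which is stable under products, equivariant étale maps and gluing
along a covering of the fixed points by invariant principal open subsets. -/
inductive Weighted (p : ℕ) (k : Type u) [Field k] :
    ∀ (A : Type u) [CommRing A] [Algebra k A], (A ≃ₐ[k] A) → Prop
  | curve (A : Type u) [CommRing A] [Algebra k A] [IsDedekindDomain A] [Algebra.Smooth k A]
      (σ : A ≃ₐ[k] A) (hσ : σ ^ p = 1) : Weighted p k A σ
  | linear (n : ℕ) (M : Matrix (Fin n) (Fin n) k) (hM : M ^ p = 1)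
      (σ : MvPolynomial (Fin n) k ≃ₐ[k] MvPolynomial (Fin n) k) (hσ : ∀ a, σ a = linSub M a) :
      Weighted p k (MvPolynomial (Fin n) k) σ
  | trivial (A : Type u) [CommRing A] [Algebra k A] [Algebra.Smooth k A] :
      Weighted p k A (1 : A ≃ₐ[k] A)
  | centred (A : Type u) [CommRing A] [Algebra k A] (σ : A ≃ₐ[k] A) (l : ℕ) (hl : 0 < l)
      (F : ℕ → Ideal A) (h : Centred k (fun a => σ a - a) l F) : Weighted p k A σ
  | prod (n : ℕ) (A : Fin n → Type u) [∀ i, CommRing (A i)] [∀ i, Algebra k (A i)]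
      [∀ i, Nontrivial (A i)] (B : Type u) [CommRing B] [Algebra k B] [Algebra.FiniteType k B]
      (j : ∀ i, A i →ₐ[k] B) (hj : IsCoprod k j) (σ : ∀ i, A i ≃ₐ[k] A i) (s : B ≃ₐ[k] B)
      (hs : ∀ i a, s (j i a) = j i (σ i a)) (h : ∀ i, Weighted p k (A i) (σ i)) :
      Weighted p k B s
  | etale (A B : Type u) [CommRing A] [Algebra k A] [CommRing B] [Algebra k B] [IsDomain B]
      [Algebra.Smooth k B] (φ : A →ₐ[k] B) (hφ : φ.toRingHom.Etale) (σ : B ≃ₐ[k] B)
      (hσ : σ ^ p = 1) (τ : A ≃ₐ[k] A) (hc : ∀ a, σ (φ a) = φ (τ a)) (h : Weighted p k A τ) :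
      Weighted p k B σ
  | glue (B : Type u) [CommRing B] [Algebra k B] [IsDomain B] [Algebra.Smooth k B]
      (σ : B ≃ₐ[k] B) (n : ℕ) (f : Fin n → B) (hf : ∀ i, σ (f i) = f i)
      (hcov : ∀ P : Ideal B, P.IsPrime → (∀ b, σ b - b ∈ P) → ∃ i, f i ∉ P)
      (τ : ∀ i, Localization.Away (f i) ≃ₐ[k] Localization.Away (f i))
      (hτ : ∀ i b, τ i (algebraMap B _ b) = algebraMap B _ (σ b))
      (h : ∀ i, Weighted p k (Localization.Away (f i)) (τ i)) : Weighted p k B σ

lemma iter_of_pow {k A : Type u} [Field k] [CommRing A] [Algebra k A] {σ : A ≃ₐ[k] A} {p : ℕ}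
    (h : σ ^ p = 1) (a : A) : σ^[p] a = a := by
  have h1 : ∀ (n : ℕ) (a : A), (σ ^ n) a = σ^[n] a := by
    intro n
    induction n with
    | zero => intro a; rfl
    | succ n ih => intro a; rw [pow_succ, Function.iterate_succ_apply, ← ih]; rfl
  rw [← h1, h]
  rfl

theorem Weighted.hasCentre {p : ℕ} (hp : p.Prime) {k : Type u} [Field k] [PerfectField k]
    (hpk : (p : k) = 0) {A : Type u} [CommRing A] [Algebra k A] {σ : A ≃ₐ[k] A}
    (h : Weighted p k A σ) : ∃ l, 0 < l ∧ HasCentre k (fun a => σ a - a) l := by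
  induction h with
  | curve A σ hσ =>
    exact hasCentre_curve_aut inferInstance hp hpk σ (iter_of_pow hσ)
  | linear n M hM σ hσ =>
    refine ⟨1, one_pos, ?_⟩
    have h1 : (fun a => σ a - a) = fun a => linSub M a - a := by
      funext a
      rw [hσ]
    rw [h1]
    exact hasCentre_linSub hp hpk M hM
  | trivial A =>
    exact ⟨1, one_pos, hasCentre_zero hp hpk inferInstance (fun a => sub_self a) 1⟩
  | centred A σ l hl F h => exact ⟨l, hl, h.hasCentre⟩
  | prod n A B j hj σ s hs h ih =>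
    refine hasCentre_prod_pos hj inferInstance (fun i => coprod_injective hj i) ih
      (td_aut (s : B →ₐ[k] B)) ?_
    intro i a
    rw [map_sub, ← hs]
  | etale A B φ hφ σ hσ τ hc h ih =>
    obtain ⟨l, hl, hcen⟩ := ih
    exact hasCentre_of_etale hp hpk φ hφ σ (iter_of_pow hσ) τ hc hl hcen
  | glue B σ n f hf hcov τ hτ h ih =>
    refine hasCentre_glue hp hpk σ fun P hP hσP => ?_
    obtain ⟨i, hi⟩ := hcov P hP hσP
    exact ⟨f i, hi, hf i, τ i, hτ i, ih i⟩

end Pool.Agent.H208P
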